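import Pool.Agent.QPIT.CircW

/-!
# CT: circuits of bounded product depth: the size and the number of the lower gates
-/

set_option autoImplicit false
set_option linter.unusedSectionVars false

namespace Pool.CT

open Finset MvPolynomial Pool.Agent.Helper41.CD Pool.XD Pool.QPIT

section circuit

variable {σ K : Type} [Fintype σ] [Field K]

variable {d w s : ℕ} {P : Fin s → MvPolynomial σ K} {lev : Fin s → ℕ}

/-- a sum over the gates of level at most `δ` -/
theorem sum_low (δ : ℕ) (f : Fin s → MvPolynomial σ K) (hf : ∀ h, f h ≠ 0 → lev h ≤ δ) :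
    ∑ h, f h = ∑ h : {h // lev h ≤ δ}, f h.1 := by
  classical
  rw [← Finset.sum_subtype (univ.filter fun h => lev h ≤ δ) (fun h => by simp) f]
  refine (sum_filter_of_ne fun h _ hh => hf h hh).symm

/-- a product over the gates of level at most `δ` -/
theorem prod_low (δ : ℕ) (f : Fin s → MvPolynomial σ K) (hf : ∀ h, f h ≠ 1 → lev h ≤ δ) :
    ∏ h, f h = ∏ h : {h // lev h ≤ δ}, f h.1 := by
  classical
  rw [← Finset.prod_subtype (univ.filter fun h => lev h ≤ δ) (fun h => by simp) f]
  refine (prod_filter_of_ne fun h _ hh => hf h hh).symm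

/-- the number of the gates of level at most `δ` -/
def nlow (lev : Fin s → ℕ) (δ : ℕ) : ℕ := (univ.filter fun h => lev h ≤ δ).card

theorem card_low (δ : ℕ) : Fintype.card {h // lev h ≤ δ} = nlow lev δ := by
  rw [Fintype.card_subtype]
  rfl

theorem nlow_mono {δ δ' : ℕ} (h : δ ≤ δ') : nlow lev δ ≤ nlow lev δ' := by
  refine card_le_card fun g hg => ?_
  rw [mem_filter] at hg ⊢
  exact ⟨hg.1, hg.2.trans h⟩

theorem nlow_le (δ : ℕ) : nlow lev δ ≤ s := by
  refine (card_le_univ _).trans (le_of_eq ?_)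
  rw [Fintype.card_fin]

/-- a combination of product gates and arbitrary gates of level at most `δ + 1` is a sum of `T`
products of members of the class `δ` -/
theorem rep_sum2 {S T : ℕ} (hw : 1 ≤ w) (δ : ℕ) (hT : nlow lev (δ + 1) + 1 ≤ T)
    (hS : nlow lev δ + Fintype.card σ + 1 ≤ S)
    (ih : ∀ g, lev g ≤ δ → P g ∈ Cls w w S δ)
    (ih' : ∀ g, lev g ≤ δ + 1 → IsArb w P lev g → P g ∈ Cls w w S δ) {f : MvPolynomial σ K}
    (hf : RepW w P lev (δ + 1) f) :
    ∃ g : Fin T → Fin S → MvPolynomial σ K, (∀ i j, g i j ∈ Cls w w S δ) ∧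
      ∑ i, ∏ j, g i j = f := by
  classical
  have hS1 : 1 ≤ S := by omega
  have h1 : (1 : MvPolynomial σ K) ∈ Cls w w S δ := one_mem' w w S δ
  have h0 : (0 : MvPolynomial σ K) ∈ Cls w w S δ := zero_mem' w w S δ
  have haff : ∀ A : MvPolynomial σ K, A.totalDegree ≤ 1 → A ∈ Cls w w S δ := fun A hA =>
    monoW' hw hS1 (Nat.zero_le δ) (affineW hw hA)
  have hone : ∀ A : MvPolynomial σ K, A ∈ Cls w w S δ →
      ∃ g : Fin S → MvPolynomial σ K, (∀ j, g j ∈ Cls w w S δ) ∧ ∏ j, g j = A := by
    intro A hA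
    obtain ⟨g, hg, hgf⟩ := exists_prod (S := S) (ι := Unit)
      (by rw [Fintype.card_unit]; exact hS1) h1 (fun _ => A) (fun _ => hA)
    exact ⟨g, hg, by rw [hgf]; simp⟩
  obtain ⟨A, c, hA, hc, rfl⟩ := hf
  obtain ⟨g, hg, hgf⟩ := exists_sum_prod (T := T) (ι := Option {h // lev h ≤ δ + 1}) hS1
    (by rw [Fintype.card_option, card_low]; exact hT) h0
    (fun o => o.elim A fun h => C (c h.1) * P h.1) (fun o => by
      cases o with
      | none => exact hone A (haff A hA)
      | some h' =>
        obtain ⟨h, hle⟩ := h'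
        by_cases hh : c h = 0
        · have e0 : C (c h) * P h = 0 := by rw [hh, C_0, zero_mul]
          show ∃ g : Fin S → MvPolynomial σ K, (∀ j, g j ∈ Cls w w S δ) ∧
            ∏ j, g j = C (c h) * P h
          rw [e0]
          exact hone 0 h0
        rcases (hc h hh).1 with hpr | harb
        swap
        · exact hone _ (smul_mem' (ih' h hle harb) _)
        · obtain ⟨a₀, a, e, hlev, he, hP⟩ := hpr
          obtain ⟨g, hg, hgf⟩ := exists_prod (S := S) (ι := Option (σ ⊕ {h // lev h ≤ δ}))
            (by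
              rw [Fintype.card_option, Fintype.card_sum, card_low]
              omega) h1
            (fun o => o.elim (C (c h * a₀)) (Sum.elim (fun v => X v ^ a v)
              fun h' => P h'.1 ^ e h'.1))
            (fun o => by
              rcases o with _ | v | h'
              · exact const_mem w w S δ _
              · exact powW δ (haff _ (by rw [totalDegree_X])) _
              · show P h'.1 ^ e h'.1 ∈ Cls w w S δ
                by_cases hh' : e h'.1 = 0
                · rw [hh', pow_zero]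
                  exact h1
                · refine powW δ (ih h'.1 ?_) _
                  have := (he h'.1 hh').2
                  omega)
          refine ⟨g, hg, ?_⟩
          rw [hgf, Fintype.prod_option, Fintype.prod_sum_type]
          show C (c h * a₀) * ((∏ v, X v ^ a v) * ∏ h' : {h // lev h ≤ δ}, P h'.1 ^ e h'.1) =
            C (c h) * P h
          rw [← prod_low δ (fun h' => P h' ^ e h') (fun h' hh' => by
            have h2 : e h' ≠ 0 := by
              intro h3
              apply hh'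
              rw [h3, pow_zero]
            have := (he h' h2).2
            omega), hP, C_mul]
          ring)
  refine ⟨g, hg, ?_⟩
  rw [hgf, Fintype.sum_option, sum_low (δ + 1) (fun h => C (c h) * P h) (fun h hh => by
    refine (hc h fun h2 => hh ?_).2
    rw [h2, C_0, zero_mul])]
  rfl

theorem gate_mem2 {S D : ℕ} (hw : 1 ≤ w) (hS : nlow lev D + Fintype.card σ + 1 ≤ S)
    (H : ∀ g, lev g ≤ d ∧
    ((∃ (a₀ : K) (a : σ → K) (c : Fin s → K), (∀ h, c h ≠ 0 → h < g ∧ lev h ≤ lev g) ∧
        P g = C a₀ + ∑ v, C (a v) * X v + ∑ h, C (c h) * P h) ∨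
      IsPr P lev g ∨ IsArb w P lev g)) (δ : ℕ) (hδ : δ ≤ D) :
    (∀ g, lev g ≤ δ → P g ∈ Cls w w S δ) ∧
      (∀ g, lev g ≤ δ + 1 → IsArb w P lev g → P g ∈ Cls w w S δ) := by
  induction δ with
  | zero =>
    have h0 : ∀ g, lev g ≤ 0 → (P g).totalDegree ≤ 1 := by
      intro g hg
      obtain ⟨A, c, hA, hc, hP⟩ := (rep_gateW H g).mono hg
      have hc0 : ∀ h, c h = 0 := by
        intro h
        by_contra hh
        obtain ⟨h1, hle⟩ := hc h hh
        rcases h1 with ⟨a₀, a, e, hlev, _⟩ | ⟨t, Q, hlev, _⟩ <;> omega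
      have e1 : P g = A := by
        rw [hP, sum_eq_zero, add_zero]
        intro h _
        rw [hc0 h, C_0, zero_mul]
      rw [e1]
      exact hA
    refine ⟨fun g hg => affineW hw (h0 g hg), fun g hg harb => ?_⟩
    obtain ⟨t, Q, hlev, ht, hP⟩ := harb
    rw [hP]
    exact ⟨fun i => P (t i), Q, fun i => h0 _ (by have := (ht i).2; omega), rfl⟩
  | succ δ ih =>
    have ih := ih (by omega)
    have hn1 : nlow lev (δ + 1) ≤ nlow lev D := nlow_mono hδ
    have hn2 : nlow lev δ ≤ nlow lev D := nlow_mono (by omega)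
    have h1 : ∀ g, lev g ≤ δ + 1 → ∃ F : Fin S → Fin S → MvPolynomial σ K,
        (∀ i j, F i j ∈ Cls w w S δ) ∧ ∑ i, ∏ j, F i j = P g := fun g hg =>
      rep_sum2 (T := S) hw δ (by omega) (by omega) ih.1 ih.2 ((rep_gateW H g).mono hg)
    refine ⟨fun g hg => ?_, fun g hg harb => ?_⟩
    · obtain ⟨F, hF, hFg⟩ := h1 g hg
      rw [← hFg]
      exact sum_prodW hw δ F hF
    · obtain ⟨t, Q, hlev, ht, hP⟩ := harb
      rw [hP]
      exact poly_mem le_rfl _ (fun i => h1 _ (by have := (ht i).2; omega)) Q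

/-- A gate of a circuit with `s` gates and at most `k + 1` product gates or arbitrary gates on each
path, `s₁` gates of which are of level at most `k`, is a sum of `s + 1` products of
`S ≥ s₁ + N + 1` elements of the class `k`. -/
theorem circuit_sum2 {S k : ℕ} (hw : 1 ≤ w) (hS : nlow lev k + Fintype.card σ + 1 ≤ S)
    (H : ∀ g, lev g ≤ k + 1 ∧
    ((∃ (a₀ : K) (a : σ → K) (c : Fin s → K), (∀ h, c h ≠ 0 → h < g ∧ lev h ≤ lev g) ∧
        P g = C a₀ + ∑ v, C (a v) * X v + ∑ h, C (c h) * P h) ∨
      IsPr P lev g ∨ IsArb w P lev g))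
    (g : Fin s) : ∃ f : Fin (s + 1) → Fin S → MvPolynomial σ K,
      (∀ i j, f i j ∈ Cls w w S k) ∧ ∑ i, ∏ j, f i j = P g :=
  rep_sum2 hw k (by
    have := nlow_le (lev := lev) (k + 1)
    omega) hS (gate_mem2 hw hS H k le_rfl).1 (gate_mem2 hw hS H k le_rfl).2
    ((rep_gateW H g).mono (H g).1)

end circuit

end Pool.CT
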