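import Pool.Agent.XP.Defs

/-!
# CT: the exchanges of a code in which any `k` positions determine the word
-/

set_option autoImplicit false

namespace Pool.CT

open Finset Pool.XP

section code

variable {I A : Type} [Fintype I] [DecidableEq I] [Fintype A] [DecidableEq A]

/-- the weight of a set of blocks as a product -/
theorem weight_eq (ty : I → Bool) (oU oV : ℝ) (B : Finset I) :
    oU ^ (B.filter fun i => ty i = true).card * oV ^ (B.filter fun i => ty i = false).card =
      ∏ i ∈ B, (if ty i then oU else oV) := by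
  rw [← prod_filter_mul_prod_filter_not B (fun i => ty i = true)]
  congr 1
  · rw [prod_congr rfl (g := fun _ => oU) fun i hi => by rw [if_pos (mem_filter.1 hi).2], prod_const]
  · rw [prod_congr rfl (g := fun _ => oV) fun i hi => by rw [if_neg (mem_filter.1 hi).2], prod_const]
    congr 2
    ext i
    simp

/-- the pairs of words which agree on `M` -/
def agree (Om : Finset (I → A)) (M : Finset I) : Finset ((I → A) × (I → A)) :=
  (Om ×ˢ Om).filter fun p => ∀ i ∈ M, p.1 i = p.2 i

theorem ZB_le_agree (ty : I → Bool) (Om : Finset (I → A)) {k : ℕ}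
    (hk : 2 * k ≤ Fintype.card I + 1) {oU oV : ℝ} (h0U : 0 ≤ oU) (h0V : 0 ≤ oV)
    (hdet : ∀ s ∈ Om, ∀ t ∈ Om, ∀ M : Finset I, k ≤ M.card → (∀ i ∈ M, s i = t i) → s = t) :
    ZB ty Om oU oV ≤ ∑ B : Finset I, (∏ i ∈ B, (if ty i then oU else oV)) *
      (((agree Om B).card : ℝ) + (agree Om Bᶜ).card) := by
  have h1 : ZB ty Om oU oV = ∑ B : Finset I, (∏ i ∈ B, (if ty i then oU else oV)) *
      (((Om ×ˢ Om).filter fun p => mixB B p.1 p.2 ∈ Om ∧ mixB B p.2 p.1 ∈ Om).card : ℝ) := by
    unfold ZB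
    rw [← sum_product']
    have h2 : ∀ p : (I → A) × (I → A),
        (∑ B ∈ (univ : Finset (Finset I)).filter
          (fun B => mixB B p.1 p.2 ∈ Om ∧ mixB B p.2 p.1 ∈ Om),
          oU ^ (B.filter fun i => ty i = true).card * oV ^ (B.filter fun i => ty i = false).card) =
        ∑ B : Finset I, if mixB B p.1 p.2 ∈ Om ∧ mixB B p.2 p.1 ∈ Om then
          (∏ i ∈ B, (if ty i then oU else oV)) else 0 := by
      intro p
      rw [sum_filter]
      refine sum_congr rfl fun B _ => ?_
      rw [weight_eq]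
    rw [sum_congr rfl fun p _ => h2 p, sum_comm]
    refine sum_congr rfl fun B _ => ?_
    rw [← sum_filter, sum_const, nsmul_eq_mul, mul_comm]
  rw [h1]
  refine sum_le_sum fun B _ => mul_le_mul_of_nonneg_left ?_ (prod_nonneg fun i _ => by
    split_ifs <;> assumption)
  rw [← Nat.cast_add, Nat.cast_le]
  refine le_trans (card_le_card ?_) (card_union_le (agree Om B) (agree Om Bᶜ))
  intro p hp
  obtain ⟨h3, h4, h5⟩ := mem_filter.1 hp
  obtain ⟨h6, h7⟩ := mem_product.1 h3
  rw [mem_union]
  rcases Nat.lt_or_ge B.card k with h8 | h8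
  · -- the complement is large: mixB B p.1 p.2 is p.2
    left
    have h9 : k ≤ Bᶜ.card := by
      have := card_compl B
      have := card_le_univ B
      omega
    have h10 := hdet _ h4 _ h7 Bᶜ h9 fun i hi => by
      unfold mixB
      rw [if_neg (mem_compl.1 hi)]
    refine mem_filter.2 ⟨h3, fun i hi => ?_⟩
    have h11 := congrFun h10 i
    unfold mixB at h11
    rwa [if_pos hi] at h11
  · right
    have h10 := hdet _ h4 _ h6 B h8 fun i hi => by
      unfold mixB
      rw [if_pos hi]
    refine mem_filter.2 ⟨h3, fun i hi => ?_⟩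
    have h11 := congrFun h10 i
    unfold mixB at h11
    rw [if_neg (mem_compl.1 hi)] at h11
    exact h11.symm

/-- **the weighted number of the exchanges of a separable code** -/
theorem ZB_le_mds (ty : I → Bool) (Om : Finset (I → A)) {k : ℕ} {N : ℝ} (hN : 0 ≤ N)
    (hk : 2 * k ≤ Fintype.card I + 1) {oU oV : ℝ} (h0U : 0 ≤ oU) (h0V : 0 ≤ oV)
    (hdet : ∀ s ∈ Om, ∀ t ∈ Om, ∀ M : Finset I, k ≤ M.card → (∀ i ∈ M, s i = t i) → s = t)
    (hcnt : ∀ M : Finset I, ((agree Om M).card : ℝ) ≤ (Om.card : ℝ) ^ 2 * (N ^ M.card + N ^ k)) :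
    ZB ty Om oU oV ≤ (Om.card : ℝ) ^ 2 *
      ((∏ i, (1 + (if ty i then oU else oV) * N)) + (∏ i, ((if ty i then oU else oV) + N)) +
        2 * (N ^ k * ∏ i, (1 + if ty i then oU else oV))) := by
  refine (ZB_le_agree ty Om hk h0U h0V hdet).trans ?_
  have h1 : ∀ B : Finset I, (∏ i ∈ B, (if ty i then oU else oV)) *
      (((agree Om B).card : ℝ) + (agree Om Bᶜ).card) ≤ (Om.card : ℝ) ^ 2 *
        ((∏ i ∈ B, (if ty i then oU else oV) * N) +
          (∏ i ∈ B, (if ty i then oU else oV)) * (∏ i ∈ univ \ B, N) +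
          2 * (N ^ k * ∏ i ∈ B, (if ty i then oU else oV))) := by
    intro B
    have h2 : 0 ≤ ∏ i ∈ B, (if ty i then oU else oV) := prod_nonneg fun i _ => by
      split_ifs <;> assumption
    have h3 := hcnt B
    have h4 := hcnt Bᶜ
    have h5 : (∏ i ∈ univ \ B, N) = N ^ Bᶜ.card := by
      rw [prod_const, compl_eq_univ_sdiff]
    have h6 : (∏ i ∈ B, (if ty i then oU else oV) * N) =
        (∏ i ∈ B, (if ty i then oU else oV)) * N ^ B.card := by
      rw [prod_mul_distrib, prod_const]
    rw [h5, h6]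
    calc _ ≤ (∏ i ∈ B, (if ty i then oU else oV)) * ((Om.card : ℝ) ^ 2 * (N ^ B.card + N ^ k) +
          (Om.card : ℝ) ^ 2 * (N ^ Bᶜ.card + N ^ k)) :=
          mul_le_mul_of_nonneg_left (add_le_add h3 h4) h2
      _ = _ := by ring
  refine (sum_le_sum fun B _ => h1 B).trans (le_of_eq ?_)
  rw [← mul_sum]
  congr 1
  rw [sum_add_distrib, sum_add_distrib, ← mul_sum, ← mul_sum]
  congr 1
  · congr 1
    · rw [prod_one_add, powerset_univ]
    · rw [prod_add, powerset_univ]
  · rw [prod_one_add, powerset_univ]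

end code

end Pool.CT
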