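import Pool.Agent.XD.Assembly
import Pool.Agent.XD.Num

/-!
# CT: the core inequality for an arbitrary hard polynomial and arbitrary scales
-/

set_option autoImplicit false

namespace Pool.CT

open Finset Pool.XD Pool.Agent.Helper87.D3 Pool.Agent.Helper41.CD

/-- **the core inequality** -/
theorem core_gen {L : Type} [Fintype L] (ty : L → Bool) (F0 : MvPolynomial L ℤ)
    {K Γ : Type} [Field K] [LinearOrderedCommGroupWithZero Γ] (v : Valuation K Γ)
    (hv : ∀ n : ℕ, n ≠ 0 → v n = 1) {T S w w0 k r E : ℕ} {HU HV Z : ℝ} {X Y : ℕ → ℝ}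
    (f : Fin T → Fin S → MvPolynomial L K) (hS : 1 ≤ S) (hw : 1 ≤ w)
    (hw0 : 1 ≤ w0) (hf : ∀ i j, f i j ∈ Cls w0 w S k)
    (hcl : ∀ m, v (MvPolynomial.coeff m ((∑ i, ∏ j, f i j) -
      MvPolynomial.map (Int.castRingHom K) F0)) < 1)
    (htop : ∀ c : L → K, cf r E (PhiX ty c (MvPolynomial.map (Int.castRingHom K) F0)) =
      MvPolynomial.map (Int.castRingHom K) F0)
    (hHU : 0 < HU) (hHV : 0 < HV)
    (hX : ∀ i, 0 < X i) (hY : ∀ i, 0 < Y i) (hX0 : X 0 = 1) (hY0 : Y 0 = 1)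
    (hnum : ∀ i ≤ 2 * k, NumD (r + E) (S * ((r + E : ℕ) + 1) ^ (8 * (w0 + w) + 16))
        HU HV (X i) (Y i) (X (i + 1)) (Y (i + 1)))
    {LU LV : ℕ} (hr : r ≤ LU) (h1U : 1 ≤ nU ty) (h1V : 1 ≤ nV ty)
    (hU : HU * LU ≤ nU ty + LU - 1) (hV : (nV ty : ℝ) + LV ≤ HV * (LV + 1)) (hZ : 0 ≤ Z)
    (hcount : (((nU ty).multichoose LU * (nV ty).multichoose LV : ℕ) : ℝ) ≤
      ((opM ty (MvPolynomial.map (Int.castRingHom ℝ) F0) LU LV (LU - r) (LV + E)).rank : ℝ) * Z) :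
    HU ^ r ≤ T * (((r + E : ℕ) + 1 : ℝ) ^ 16 * (X (2 * k + 1) ^ r * Y (2 * k + 1) ^ E)) * Z := by
  classical
  have := charZero_of_val v hv
  -- the machine
  obtain ⟨SU, SV, hSU, hSV⟩ := exists_sub ty (K := K)
  have hfV := filt_VV ty (K := K)
  have hfU := filt_UU ty (K := K)
  obtain ⟨W, hW, hmach⟩ := level_machine (σ := L) (K := K)
    (B := MvPolynomial L K)
    (Pool.CD.cost_Nu hfV hfU hHV.le hHU.le) (Pool.CD.big_Bi hfV hfU) hHU hHV
    (Pool.CD.leaf_Bi hfV hfU HV HU) SU SV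
    (fun a ha b hb => by
      have h1 := Pool.CD.Nu.ofMul (V := VV ty K) (U := UU ty K)
        (hv := HV) (hu := HU) ((hSU a).1 ha) ((hSV b).1 hb)
      rwa [pow_zero, pow_zero, mul_one] at h1)
    (PhiX ty) (PhiX_mem _) (PhiX_zero _)
    (fun c p hp => by
      obtain ⟨α, hα, β, hβ, h1⟩ := PhiX_one ty c p hp
      exact ⟨α, (hSU α).2 hα, β, (hSV β).2 hβ, h1⟩)
    (d := r + E) hw0 hw hS hX hY hX0 hY0 hnum f hf
  obtain ⟨c, hc⟩ := exists_nat_eval W hW
  have hNu := hmach (fun l => (c l : K)) hc r E le_rfl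
  -- the matrix
  set P := cf r E (PhiX ty (fun l => (c l : K)) (∑ i, ∏ j, f i j)) with hP
  have hPm : P ∈ UU ty K r ∧ P ∈ VV ty K E :=
    PhiX_mem ty (fun l => (c l : K)) (∑ i, ∏ j, f i j) r E
  have hrank1 := rank_opM_le ty hHU hHV (LU := LU) (LV := LV) (r := r) (E := E)
    hr h1U h1V hU hV P hPm.1 hPm.2 hNu
  have hclose : ∀ m', v (MvPolynomial.coeff m' (P - MvPolynomial.map (Int.castRingHom K) F0)) < 1 := by
    intro m'
    have h1 := val_cf_PhiX ty v (fun l => (c l : K)) (fun l => val_nat_le v _) _ hcl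
      r E m'
    rw [map_sub, cf_sub] at h1
    rwa [htop] at h1
  have hrank2 := rank_le_of_close v hv
    (opM ty F0 LU LV (LU - r) (LV + E))
    (opM ty P LU LV (LU - r) (LV + E)) (fun α γ => by
      unfold opM
      split_ifs
      · have h1 := hclose (gap ty α.1 γ.1)
        rw [MvPolynomial.coeff_sub, MvPolynomial.coeff_map] at h1
        exact h1
      · rw [Int.cast_zero, sub_zero, map_zero]
        exact zero_lt_one)
  have hmap : (opM ty F0 LU LV (LU - r) (LV + E)).map (Int.cast : ℤ → ℝ) =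
      opM ty (MvPolynomial.map (Int.castRingHom ℝ) F0) LU LV (LU - r) (LV + E) :=
    opM_map ty (Int.castRingHom ℝ) F0 LU LV (LU - r) (LV + E)
  rw [hmap] at hrank2
  -- conclusion
  have hD0pos : (0 : ℝ) < (((nU ty).multichoose LU * (nV ty).multichoose LV : ℕ) : ℝ) := by
    have h1 : 0 < (nU ty).multichoose LU := by
      rw [Nat.multichoose_eq]
      exact Nat.choose_pos (by omega)
    have h2 : 0 < (nV ty).multichoose LV := by
      rw [Nat.multichoose_eq]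
      exact Nat.choose_pos (by omega)
    exact Nat.cast_pos.2 (Nat.mul_pos h1 h2)
  obtain ⟨D0, hD0⟩ : ∃ D0 : ℝ, D0 = (((nU ty).multichoose LU * (nV ty).multichoose LV : ℕ) : ℝ) :=
    ⟨_, rfl⟩
  rw [← hD0] at hD0pos hcount hrank1
  have h1 : D0 ≤ ((opM ty P LU LV (LU - r) (LV + E)).rank : ℝ) * Z :=
    hcount.trans (mul_le_mul_of_nonneg_right (Nat.cast_le.2 hrank2) hZ)
  have h2 : D0 * HU ^ r ≤ D0 * (T * (((r + E : ℕ) + 1 : ℝ) ^ 16 *
      (X (2 * k + 1) ^ r * Y (2 * k + 1) ^ E)) * Z) := by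
    calc D0 * HU ^ r ≤ (((opM ty P LU LV (LU - r) (LV + E)).rank : ℝ) * Z) * HU ^ r :=
          mul_le_mul_of_nonneg_right h1 (by positivity)
      _ = (((opM ty P LU LV (LU - r) (LV + E)).rank : ℝ) * HU ^ r) * Z := by ring
      _ ≤ (T * (((r + E : ℕ) + 1 : ℝ) ^ 16 *
          (X (2 * k + 1) ^ r * Y (2 * k + 1) ^ E)) * D0) * Z :=
          mul_le_mul_of_nonneg_right hrank1 hZ
      _ = _ := by ring
  exact le_of_mul_le_mul_left h2 hD0pos

end Pool.CT
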