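import Pool.Agent.CT.Upper
import Pool.Agent.XG.Core

/-!
# CT: the core inequality for correlations, an arbitrary code and arbitrary scales
-/

set_option autoImplicit false

namespace Pool.CT

open Finset Pool.XD Pool.XP Pool.XG Pool.Agent.Helper87.D3 Pool.Agent.Helper41.CD

/-- **the core inequality** -/
theorem core_avg {I A : Type} [Fintype I] [DecidableEq I] [Fintype A] [DecidableEq A]
    (ty : I → Bool) (Om : Finset (I → A)) (hOm : Om.Nonempty)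
    {T S w w0 k r E : ℕ} {HU HV Z N oU oV : ℝ} {X Y : ℕ → ℝ}
    (f : Fin T → Fin S → MvPolynomial (I × A) ℂ) (hS : 1 ≤ S) (hw : 1 ≤ w)
    (hw0 : 1 ≤ w0) (hf : ∀ i j, f i j ∈ Cls w0 w S k)
    (hl : 0 < l2 (∑ i, ∏ j, f i j))
    (hcl : Om.card * l2 (∑ i, ∏ j, f i j) ≤ N * ‖corr Om (∑ i, ∏ j, f i j)‖ ^ 2)
    (hHU : 0 < HU) (hHV : 0 < HV)
    (hX : ∀ i, 0 < X i) (hY : ∀ i, 0 < Y i) (hX0 : X 0 = 1) (hY0 : Y 0 = 1)
    (hnum : ∀ i ≤ 2 * k, NumD (r + E) (S * ((r + E : ℕ) + 1) ^ (8 * (w0 + w) + 16))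
        HU HV (X i) (Y i) (X (i + 1)) (Y (i + 1)))
    (hr : r = (univ.filter fun i : I => ty i = true).card)
    (hE : E = (univ.filter fun i : I => ty i = false).card)
    {LU LV : ℕ} (h2 : 2 * r ≤ LU) (h1U : 1 ≤ nU (rty ty : I × A → Bool))
    (h1V : 1 ≤ nV (rty ty : I × A → Bool))
    (hU : HU * LU ≤ nU (rty ty : I × A → Bool) + LU - 1)
    (hV : (nV (rty ty : I × A → Bool) : ℝ) + LV ≤ HV * (LV + 1))
    (h0U : 0 ≤ oU) (h0V : 0 ≤ oV)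
    (hoU : (nU (rty ty : I × A → Bool) : ℝ) + LU - r ≤ oU * (LU - r + 1))
    (hoV : (LV : ℝ) ≤ oV * (nV (rty ty : I × A → Bool) + LV - 1))
    (hZ : ZB ty Om oU oV ≤ (Om.card : ℝ) ^ 2 * Z) :
    HU ^ r ≤ (T * N ^ 2) * (((r + E : ℕ) + 1 : ℝ) ^ 16 *
      (X (2 * k + 1) ^ r * Y (2 * k + 1) ^ E)) * Z := by
  classical
  have hrank1 := upper' (rty ty) hHU hHV (LU := LU) (LV := LV) (r := r) (E := E) (d := r + E) f hS hw
    hw0 hf hX hY hX0 hY0 hnum le_rfl (by omega) h1U h1V hU hV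
  obtain ⟨F, hF⟩ : ∃ F, F = ∑ i, ∏ j, f i j := ⟨_, rfl⟩
  rw [← hF] at hl hcl hrank1
  -- the count
  have hcount := code_corr (A := A) ty Om F (LU := LU) (LV := LV) (r := r) (E := E)
    hr hE h2 h0U h0V h1U h1V hoU hoV
  -- conclusion
  have hD0pos : (0 : ℝ) < (((nU (rty ty : I × A → Bool)).multichoose LU *
      (nV (rty ty : I × A → Bool)).multichoose LV : ℕ) : ℝ) := by
    have h1 : 0 < (nU (rty ty : I × A → Bool)).multichoose LU := by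
      rw [Nat.multichoose_eq]
      exact Nat.choose_pos (by omega)
    have h2 : 0 < (nV (rty ty : I × A → Bool)).multichoose LV := by
      rw [Nat.multichoose_eq]
      exact Nat.choose_pos (by omega)
    exact Nat.cast_pos.2 (Nat.mul_pos h1 h2)
  obtain ⟨D0, hD0⟩ : ∃ D0 : ℝ, D0 = (((nU (rty ty : I × A → Bool)).multichoose LU *
      (nV (rty ty : I × A → Bool)).multichoose LV : ℕ) : ℝ) := ⟨_, rfl⟩
  rw [← hD0] at hcount hD0pos hrank1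
  obtain ⟨rk, hrk⟩ : ∃ rk : ℝ, rk = ((opM (rty ty) F LU LV (LU - r) (LV + E)).rank : ℝ) :=
    ⟨_, rfl⟩
  rw [← hrk] at hcount hrank1
  have hrk0 : 0 ≤ rk := by
    rw [hrk]
    exact Nat.cast_nonneg _
  obtain ⟨M, hM⟩ : ∃ M : ℝ, M = (Om.card : ℝ) := ⟨_, rfl⟩
  have hM0 : 0 < M := by
    rw [hM]
    exact Nat.cast_pos.2 hOm.card_pos
  rw [← hM] at hcl hZ
  obtain ⟨ZZ, hZZ⟩ : ∃ ZZ, ZZ = ZB ty Om oU oV := ⟨_, rfl⟩
  rw [← hZZ] at hcount hZ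
  have hcl2 : M ^ 2 * l2 F ^ 2 ≤ N ^ 2 * ‖corr Om F‖ ^ 4 := by
    have h0 : (0 : ℝ) ≤ M * l2 F := mul_nonneg hM0.le hl.le
    have h1 := pow_le_pow_left₀ h0 hcl 2
    calc M ^ 2 * l2 F ^ 2 = (M * l2 F) ^ 2 := by ring
      _ ≤ (N * ‖corr Om F‖ ^ 2) ^ 2 := h1
      _ = _ := by ring
  have hl2 : 0 < l2 F ^ 2 := by positivity
  have hcnt : D0 * M ^ 2 ≤ (N ^ 2 * rk) * (M ^ 2 * Z) := by
    refine le_of_mul_le_mul_left ?_ hl2
    calc l2 F ^ 2 * (D0 * M ^ 2)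
        = D0 * (M ^ 2 * l2 F ^ 2) := by ring
      _ ≤ D0 * (N ^ 2 * ‖corr Om F‖ ^ 4) := mul_le_mul_of_nonneg_left hcl2 hD0pos.le
      _ = N ^ 2 * (D0 * ‖corr Om F‖ ^ 4) := by ring
      _ ≤ N ^ 2 * (rk * l2 F ^ 2 * ZZ) := mul_le_mul_of_nonneg_left hcount (by positivity)
      _ ≤ N ^ 2 * (rk * l2 F ^ 2 * (M ^ 2 * Z)) :=
          mul_le_mul_of_nonneg_left (mul_le_mul_of_nonneg_left hZ (by positivity)) (by positivity)
      _ = _ := by ring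
  have hcnt' : D0 ≤ (N ^ 2 * rk) * Z := by
    have hM2 : 0 < M ^ 2 := by positivity
    refine le_of_mul_le_mul_right ?_ hM2
    linarith
  have hZ0 : 0 ≤ Z := by
    have h1 : 0 ≤ ZZ := by
      rw [hZZ]
      exact ZB_nonneg _ _ h0U h0V
    have h3 : 0 ≤ M ^ 2 * Z := h1.trans hZ
    exact nonneg_of_mul_nonneg_right h3 (by positivity)
  have hfin : D0 * HU ^ r ≤ D0 * ((T * N ^ 2) * (((r + E : ℕ) + 1 : ℝ) ^ 16 *
      (X (2 * k + 1) ^ r * Y (2 * k + 1) ^ E)) * Z) := by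
    calc D0 * HU ^ r ≤ ((N ^ 2 * rk) * Z) * HU ^ r :=
          mul_le_mul_of_nonneg_right hcnt' (by positivity)
      _ = (rk * HU ^ r) * (N ^ 2 * Z) := by ring
      _ ≤ (T * (((r + E : ℕ) + 1 : ℝ) ^ 16 *
          (X (2 * k + 1) ^ r * Y (2 * k + 1) ^ E)) * D0) * (N ^ 2 * Z) :=
          mul_le_mul_of_nonneg_right hrank1 (by positivity)
      _ = _ := by ring
  exact le_of_mul_le_mul_left hfin hD0pos

end Pool.CT
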