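import Mathlib

/-!
# The integral of the Jacobian of a compactly supported map vanishes
-/

open MeasureTheory Set Filter Topology

namespace Pool.Agent.CT

section

/-- weights with `coeff n P = ∑ c j * P (s j)` for `natDegree P ≤ n` -/
theorem exists_weights (n : ℕ) (hn : 0 < n) (δ : ℝ) (hδ : 0 < δ) :
    ∃ (s c : Fin (n + 1) → ℝ), (∀ j, 0 ≤ s j ∧ s j ≤ δ) ∧ ∑ j, c j = 0 ∧
      ∀ P : Polynomial ℝ, P.natDegree ≤ n → P.coeff n = ∑ j, c j * P.eval (s j) := by
  classical
  set s : Fin (n + 1) → ℝ := fun j => δ * ((j : ℕ) : ℝ) / n with hs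
  have hn' : (0 : ℝ) < n := by exact_mod_cast hn
  have hinj : Set.InjOn s (Finset.univ : Finset (Fin (n + 1))) := by
    intro i _ j _ hij
    simp only [hs] at hij
    have h2 : ((i : ℕ) : ℝ) = ((j : ℕ) : ℝ) := by
      field_simp at hij
      exact hij
    exact Fin.ext (by exact_mod_cast h2)
  have key : ∀ P : Polynomial ℝ, P.natDegree ≤ n → P.coeff n =
      ∑ j, (Lagrange.basis Finset.univ s j).coeff n * P.eval (s j) := by
    intro P hP
    have h1 : P.degree < (Finset.univ : Finset (Fin (n + 1))).card := by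
      rw [Finset.card_univ, Fintype.card_fin]
      refine lt_of_le_of_lt Polynomial.degree_le_natDegree ?_
      exact_mod_cast Nat.lt_succ_of_le hP
    have h2 := Lagrange.eq_interpolate (s := Finset.univ) (v := s) hinj h1
    conv_lhs => rw [h2]
    rw [Lagrange.interpolate_apply, Polynomial.finsetSum_coeff]
    refine Finset.sum_congr rfl fun j _ => ?_
    rw [Polynomial.coeff_C_mul, mul_comm]
  refine ⟨s, fun j => (Lagrange.basis Finset.univ s j).coeff n, ?_, ?_, key⟩
  · intro j
    have hj : ((j : ℕ) : ℝ) ≤ n := by exact_mod_cast Nat.lt_succ_iff.1 j.2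
    refine ⟨by positivity, ?_⟩
    simp only [hs]
    rw [div_le_iff₀ hn']
    exact mul_le_mul_of_nonneg_left hj hδ.le
  · have h := key 1 (by simp)
    rw [Polynomial.coeff_one, if_neg hn.ne'] at h
    simpa using h.symm

/-- the top coefficient of `det (1 + s A)` -/
theorem det_weights {n : ℕ} (c s : Fin (n + 1) → ℝ)
    (hc : ∀ P : Polynomial ℝ, P.natDegree ≤ n → P.coeff n = ∑ j, c j * P.eval (s j))
    {E : Type*} [NormedAddCommGroup E] [NormedSpace ℝ E] [FiniteDimensional ℝ E]
    (hE : Module.finrank ℝ E = n) (A : E →L[ℝ] E) :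
    A.det = ∑ j, c j * (ContinuousLinearMap.id ℝ E + s j • A).det := by
  classical
  let b := Module.finBasisOfFinrankEq ℝ E hE
  set M : Matrix (Fin n) (Fin n) ℝ := LinearMap.toMatrix b b (A : E →ₗ[ℝ] E) with hM
  have hdet : ∀ t : ℝ, (ContinuousLinearMap.id ℝ E + t • A).det =
      (t • M + (1 : Matrix (Fin n) (Fin n) ℝ)).det := by
    intro t
    have : (ContinuousLinearMap.id ℝ E + t • A).det =
        LinearMap.det ((ContinuousLinearMap.id ℝ E + t • A : E →L[ℝ] E) : E →ₗ[ℝ] E) := rfl
    rw [this, ← LinearMap.det_toMatrix b]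
    congr 1
    simp only [ContinuousLinearMap.toLinearMap_add, ContinuousLinearMap.toLinearMap_smul,
      map_add, map_smul, hM]
    rw [add_comm]
    congr 1
    exact LinearMap.toMatrix_id b
  set P : Polynomial ℝ := Matrix.det ((Polynomial.X : Polynomial ℝ) • M.map Polynomial.C +
    (1 : Matrix (Fin n) (Fin n) ℝ).map Polynomial.C) with hP
  have hPdeg : P.natDegree ≤ n := by
    have := Polynomial.natDegree_det_X_add_C_le M (1 : Matrix (Fin n) (Fin n) ℝ)
    rwa [Fintype.card_fin] at this
  have hPc : P.coeff n = M.det := by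
    have := Polynomial.coeff_det_X_add_C_card M (1 : Matrix (Fin n) (Fin n) ℝ)
    rwa [Fintype.card_fin] at this
  have hPe : ∀ t : ℝ, P.eval t = (t • M + (1 : Matrix (Fin n) (Fin n) ℝ)).det := by
    intro t
    rw [← Polynomial.coe_evalRingHom, hP, RingHom.map_det]
    congr 1
    ext i j
    by_cases hij : i = j
    · subst hij
      simp
      ring
    · simp [Matrix.one_apply_ne hij]
      ring
  have h0 : A.det = M.det := by
    rw [hM, LinearMap.det_toMatrix]
  rw [h0, ← hPc, hc P hPdeg]
  refine Finset.sum_congr rfl fun j _ => ?_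
  rw [hPe, hdet]

theorem det_pos_of_small {E : Type*} [NormedAddCommGroup E] [NormedSpace ℝ E]
    [FiniteDimensional ℝ E] (A : E →L[ℝ] E) (hA : ‖A‖ ≤ 1 / 2) :
    0 < (ContinuousLinearMap.id ℝ E + A).det := by
  have hne : ∀ t : ℝ, 0 ≤ t → t ≤ 1 → (ContinuousLinearMap.id ℝ E + t • A).det ≠ 0 := by
    intro t ht0 ht1 h0
    have h1 : LinearMap.det ((ContinuousLinearMap.id ℝ E + t • A : E →L[ℝ] E) : E →ₗ[ℝ] E) = 0 := h0
    have h2 := LinearMap.bot_lt_ker_of_det_eq_zero h1
    obtain ⟨x, hx, hx0⟩ := Submodule.exists_mem_ne_zero_of_ne_bot h2.ne'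
    rw [LinearMap.mem_ker] at hx
    have h3 : x + t • A x = 0 := by simpa using hx
    have h4 : x = -(t • A x) := eq_neg_of_add_eq_zero_left h3
    have h5 : ‖x‖ ≤ 1 / 2 * ‖x‖ := by
      calc ‖x‖ = ‖t • A x‖ := by conv_lhs => rw [h4, norm_neg]
        _ = t * ‖A x‖ := by rw [norm_smul, Real.norm_eq_abs, abs_of_nonneg ht0]
        _ ≤ 1 * (‖A‖ * ‖x‖) := mul_le_mul ht1 (A.le_opNorm x) (norm_nonneg _) zero_le_one
        _ ≤ 1 / 2 * ‖x‖ := by
          rw [one_mul]
          exact mul_le_mul_of_nonneg_right hA (norm_nonneg _)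
    have h6 : 0 < ‖x‖ := norm_pos_iff.2 hx0
    linarith
  have hcont : Continuous fun t : ℝ => (ContinuousLinearMap.id ℝ E + t • A).det := by
    have h1 : Continuous fun t : ℝ => ContinuousLinearMap.id ℝ E + t • A := by fun_prop
    exact ContinuousLinearMap.continuous_det.comp h1
  by_contra hcon
  push Not at hcon
  have h1 : (ContinuousLinearMap.id ℝ E + (0 : ℝ) • A).det = 1 := by
    have : (ContinuousLinearMap.id ℝ E + (0 : ℝ) • A) = ContinuousLinearMap.id ℝ E := by simp
    rw [this]
    exact LinearMap.det_id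
  have h2 : (ContinuousLinearMap.id ℝ E + (1 : ℝ) • A).det ≤ 0 := by
    rw [one_smul]
    exact hcon
  have h3 : (0 : ℝ) ∈ Icc ((fun t : ℝ => (ContinuousLinearMap.id ℝ E + t • A).det) 1)
      ((fun t : ℝ => (ContinuousLinearMap.id ℝ E + t • A).det) 0) := by
    refine ⟨h2, ?_⟩
    simp only [h1]
    exact zero_le_one
  obtain ⟨t, ht, ht0⟩ := intermediate_value_Icc' zero_le_one hcont.continuousOn h3
  exact hne t ht.1 ht.2 ht0

variable {E : Type*} [NormedAddCommGroup E] [NormedSpace ℝ E] [FiniteDimensional ℝ E]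
  [MeasurableSpace E] [BorelSpace E]

/-- the integral of the Jacobian of a compactly supported map vanishes -/
theorem integral_det_fderiv_eq_zero [Nontrivial E] (μ : Measure E) [μ.IsAddHaarMeasure]
    (u : E → E) (hu : ContDiff ℝ 1 u) (hc : HasCompactSupport u) :
    ∫ x, (fderiv ℝ u x).det ∂μ = 0 := by
  have hpos : 0 < Module.finrank ℝ E := Module.finrank_pos
  set n := Module.finrank ℝ E with hn
  -- bounds
  have hcd : Continuous (fderiv ℝ u) := hu.continuous_fderiv (by norm_num)
  have hcs : HasCompactSupport (fderiv ℝ u) := hc.fderiv (𝕜 := ℝ)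
  obtain ⟨C, hC⟩ := hcd.bounded_above_of_compact_support hcs
  obtain ⟨R, hR⟩ := hc.isCompact.isBounded.subset_closedBall (0 : E)
  set C' := max C 0 with hC'
  have hC'0 : 0 ≤ C' := le_max_right _ _
  have hCb : ∀ x, ‖fderiv ℝ u x‖ ≤ C' := fun x => (hC x).trans (le_max_left _ _)
  set δ : ℝ := 1 / (2 * (C' + 1)) with hδ
  have hδ0 : 0 < δ := by positivity
  have hδC : δ * C' ≤ 1 / 2 := by
    rw [hδ, div_mul_eq_mul_div, div_le_iff₀ (by positivity)]
    nlinarith
  obtain ⟨s, c, hs, hcsum, hcP⟩ := exists_weights n hpos δ hδ0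
  set B : Set E := Metric.closedBall (0 : E) R with hB
  have hBm : MeasurableSet B := measurableSet_closedBall
  have hu0 : ∀ x, x ∉ B → u x = 0 := by
    intro x hx
    by_contra h
    exact hx (hR (subset_tsupport u h))
  -- volume of the image
  have hvol : ∀ t : ℝ, 0 ≤ t → t ≤ δ →
      ∫ x in B, (ContinuousLinearMap.id ℝ E + t • fderiv ℝ u x).det ∂μ = μ.real B := by
    intro t ht0 htδ
    set f : E → E := fun x => x + t • u x with hf
    have htC : t * C' ≤ 1 / 2 := (mul_le_mul_of_nonneg_right htδ hC'0).trans hδC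
    have hdf : ∀ x, HasFDerivAt f (ContinuousLinearMap.id ℝ E + t • fderiv ℝ u x) x := by
      intro x
      have h1 : HasFDerivAt u (fderiv ℝ u x) x :=
        (hu.differentiable (by norm_num) x).hasFDerivAt
      exact (hasFDerivAt_id x).add (h1.const_smul t)
    have hlip : ∀ x y, ‖u x - u y‖ ≤ C' * ‖x - y‖ := by
      intro x y
      exact Convex.norm_image_sub_le_of_norm_fderiv_le (𝕜 := ℝ) (s := univ)
        (fun z _ => hu.differentiable (by norm_num) z) (fun z _ => hCb z) convex_univ
        (mem_univ y) (mem_univ x)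
    have happ : ApproximatesLinearOn f
        ((ContinuousLinearEquiv.refl ℝ E : E ≃L[ℝ] E) : E →L[ℝ] E) univ (1 / 2 : NNReal) := by
      intro x _ y _
      have h1 : f x - f y - ((ContinuousLinearEquiv.refl ℝ E : E ≃L[ℝ] E) : E →L[ℝ] E) (x - y) =
          t • (u x - u y) := by
        simp only [hf, ContinuousLinearEquiv.coe_refl, ContinuousLinearMap.coe_id', id]
        rw [smul_sub]
        abel
      rw [h1, norm_smul, Real.norm_eq_abs, abs_of_nonneg ht0]
      calc t * ‖u x - u y‖ ≤ t * (C' * ‖x - y‖) := mul_le_mul_of_nonneg_left (hlip x y) ht0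
        _ = (t * C') * ‖x - y‖ := by ring
        _ ≤ (1 / 2) * ‖x - y‖ := mul_le_mul_of_nonneg_right htC (norm_nonneg _)
        _ = ((1 / 2 : NNReal) : ℝ) * ‖x - y‖ := by norm_num
    have hc1 : Subsingleton E ∨ (1 / 2 : NNReal) <
        ‖((ContinuousLinearEquiv.refl ℝ E).symm : E →L[ℝ] E)‖₊⁻¹ := by
      right
      have h1 : ‖((ContinuousLinearEquiv.refl ℝ E).symm : E →L[ℝ] E)‖₊ = 1 := by
        have : ((ContinuousLinearEquiv.refl ℝ E).symm : E →L[ℝ] E) =
          ContinuousLinearMap.id ℝ E := rfl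
        rw [this]
        exact ContinuousLinearMap.nnnorm_id
      rw [h1, inv_one]
      rw [← NNReal.coe_lt_coe]
      norm_num
    have hinj : Function.Injective f := by
      have := happ.injOn hc1
      exact Set.injOn_univ.1 this
    have hsurj : Function.Surjective f := happ.surjective hc1
    have himg : f '' B = B := by
      apply Subset.antisymm
      · rintro _ ⟨x, hx, rfl⟩
        by_contra hfx
        have h1 : f (f x) = f x := by
          simp only [hf]
          have := hu0 (f x) hfx
          simp only [hf] at this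
          rw [this, smul_zero, add_zero]
        have h2 := hinj h1
        rw [h2] at hfx
        exact hfx hx
      · intro y hy
        obtain ⟨x, rfl⟩ := hsurj y
        refine ⟨x, ?_, rfl⟩
        by_contra hx
        have h1 : f x = x := by
          simp only [hf]
          rw [hu0 x hx, smul_zero, add_zero]
        rw [h1] at hy
        exact hx hy
    have h1 := integral_image_eq_integral_abs_det_fderiv_smul μ hBm
      (fun x _ => (hdf x).hasFDerivWithinAt) hinj.injOn (fun _ => (1 : ℝ))
    rw [himg] at h1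
    simp only [integral_const, smul_eq_mul, mul_one] at h1
    rw [measureReal_restrict_apply_univ] at h1
    rw [h1]
    refine setIntegral_congr_fun hBm fun x _ => ?_
    have h2 : 0 < (ContinuousLinearMap.id ℝ E + t • fderiv ℝ u x).det := by
      apply det_pos_of_small
      rw [norm_smul, Real.norm_eq_abs, abs_of_nonneg ht0]
      exact (mul_le_mul_of_nonneg_left (hCb x) ht0).trans htC
    exact (abs_of_pos h2).symm
  -- restrict to B
  have h0 : ∀ x, x ∉ B → (fderiv ℝ u x).det = 0 := by
    intro x hx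
    have h1 : fderiv ℝ u x = 0 := by
      by_contra h
      exact hx (hR (support_fderiv_subset ℝ h))
    rw [h1]
    have : (0 : E →L[ℝ] E).det = LinearMap.det (0 : E →ₗ[ℝ] E) := rfl
    rw [this, LinearMap.det_zero, zero_pow hpos.ne']
  rw [← setIntegral_eq_integral_of_forall_compl_eq_zero (s := B) h0]
  have h1 : ∀ x, (fderiv ℝ u x).det =
      ∑ j, c j * (ContinuousLinearMap.id ℝ E + s j • fderiv ℝ u x).det :=
    fun x => det_weights c s hcP hn.symm _
  simp only [h1]
  have hBc : IsCompact B := isCompact_closedBall _ _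
  rw [integral_finsetSum]
  · have h2 : ∀ j, ∫ x in B, c j * (ContinuousLinearMap.id ℝ E + s j • fderiv ℝ u x).det ∂μ =
        c j * μ.real B := by
      intro j
      rw [integral_const_mul, hvol (s j) (hs j).1 (hs j).2]
    simp only [h2]
    rw [← Finset.sum_mul, hcsum, zero_mul]
  · intro j _
    apply ContinuousOn.integrableOn_compact hBc
    apply Continuous.continuousOn
    apply continuous_const.mul
    exact ContinuousLinearMap.continuous_det.comp (continuous_const.add (hcd.const_smul (s j)))

end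

end Pool.Agent.CT
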