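import Pool.Agent.CT.Deg1

/-!
# Homotopy invariance of the weighted degree integral
-/

open MeasureTheory Set Filter Topology

namespace Pool.Agent.CT

section

theorem det_block {E : Type*} [NormedAddCommGroup E] [NormedSpace ℝ E] [FiniteDimensional ℝ E]
    (α : ℝ) (l : E →L[ℝ] ℝ) (A : ℝ × E →L[ℝ] E) :
    ((l.comp A + α • ContinuousLinearMap.fst ℝ ℝ E).prod A).det =
      α * (A.comp (ContinuousLinearMap.inr ℝ ℝ E)).det := by
  set B : E →L[ℝ] E := A.comp (ContinuousLinearMap.inr ℝ ℝ E) with hB
  set a : E := A (1, 0) with ha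
  -- P (r, y) = (r + l y, y)
  set P : ℝ × E →ₗ[ℝ] ℝ × E := LinearMap.transvection
    ((l : E →ₗ[ℝ] ℝ).comp (LinearMap.snd ℝ ℝ E)) ((1 : ℝ), (0 : E)) with hP
  set Q : ℝ × E →ₗ[ℝ] ℝ × E := LinearMap.transvection (LinearMap.fst ℝ ℝ E) ((0 : ℝ), a) with hQ
  have hPd : LinearMap.det P = 1 := by
    rw [hP, LinearMap.transvection.det]
    simp
  have hQd : LinearMap.det Q = 1 := by
    rw [hQ, LinearMap.transvection.det]
    simp
  have hfac : (((l.comp A + α • ContinuousLinearMap.fst ℝ ℝ E).prod A :
      ℝ × E →L[ℝ] ℝ × E) : ℝ × E →ₗ[ℝ] ℝ × E) =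
      P ∘ₗ (LinearMap.prodMap (α • LinearMap.id) LinearMap.id) ∘ₗ Q ∘ₗ
        (LinearMap.prodMap LinearMap.id (B : E →ₗ[ℝ] E)) := by
    apply LinearMap.ext
    rintro ⟨τ, ξ⟩
    have h1 : A (τ, ξ) = τ • a + B ξ := by
      have : ((τ, ξ) : ℝ × E) = τ • ((1 : ℝ), (0 : E)) + (0, ξ) := by
        ext <;> simp
      rw [this, map_add, map_smul]
      rfl
    simp only [hP, hQ, LinearMap.comp_apply, LinearMap.transvection.apply,
      LinearMap.prodMap_apply, LinearMap.id_apply, LinearMap.smul_apply, LinearMap.fst_apply,
      LinearMap.snd_apply, ContinuousLinearMap.coe_coe, ContinuousLinearMap.prod_apply,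
      add_apply, ContinuousLinearMap.coe_comp, Function.comp_apply,
      FunLike.coe_smul, Pi.smul_apply, ContinuousLinearMap.coe_fst', h1,
      Prod.smul_mk, Prod.mk_add_mk, smul_zero, add_zero, smul_eq_mul, mul_one, mul_zero]
    ext
    · simp
      ring
    · simp
      abel
  have h0 : ((l.comp A + α • ContinuousLinearMap.fst ℝ ℝ E).prod A).det =
      LinearMap.det ((((l.comp A + α • ContinuousLinearMap.fst ℝ ℝ E).prod A :
      ℝ × E →L[ℝ] ℝ × E) : ℝ × E →ₗ[ℝ] ℝ × E)) := rfl
  rw [h0, hfac, LinearMap.det_comp, LinearMap.det_comp, LinearMap.det_comp, hPd, hQd,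
    LinearMap.det_prodMap, LinearMap.det_prodMap, LinearMap.det_id, LinearMap.det_smul,
    LinearMap.det_id]
  have hBd : LinearMap.det (B : E →ₗ[ℝ] E) = B.det := rfl
  rw [hBd]
  simp

/-- a continuous function orthogonal to all derivatives of test functions on `(0,1)` is constant -/
theorem const_of_orth (I : ℝ → ℝ) (hI : Continuous I)
    (h : ∀ ψ : ℝ → ℝ, ContDiff ℝ 1 ψ → (∀ t, t ≤ 0 ∨ 1 ≤ t → ψ t = 0) →
      (∀ t, t ≤ 0 ∨ 1 ≤ t → deriv ψ t = 0) → HasCompactSupport ψ →
      ∫ t, deriv ψ t * I t = 0) : I 0 = I 1 := by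
  set S := Real.smoothTransition with hS
  have hSd : ContDiff ℝ 1 S := Real.smoothTransition.contDiff
  have hSdiff : Differentiable ℝ S := hSd.differentiable (by norm_num)
  have hSc : Continuous (deriv S) := hSd.continuous_deriv (by norm_num)
  have hS0 : ∀ x, x ≤ 0 → S x = 0 := fun x hx => Real.smoothTransition.zero_of_nonpos hx
  have hS1 : ∀ x, 1 ≤ x → S x = 1 := fun x hx => Real.smoothTransition.one_of_one_le hx
  have hSd0 : ∀ x, x < 0 ∨ 1 < x → deriv S x = 0 := by
    intro x hx
    rcases hx with hx | hx
    · have : S =ᶠ[𝓝 x] fun _ => 0 := by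
        filter_upwards [Iio_mem_nhds hx] with y hy using hS0 y (le_of_lt hy)
      rw [this.deriv_eq]
      simp
    · have : S =ᶠ[𝓝 x] fun _ => 1 := by
        filter_upwards [Ioi_mem_nhds hx] with y hy using hS1 y (le_of_lt hy)
      rw [this.deriv_eq]
      simp
  have hint : ∫ y in (0 : ℝ)..1, deriv S y = 1 := by
    rw [intervalIntegral.integral_deriv_eq_sub (fun x _ => hSdiff x)
      (hSc.intervalIntegrable _ _), hS1 1 le_rfl, hS0 0 le_rfl, sub_zero]
  -- the key identity
  have key : ∀ a b : ℝ, 0 < a → a < b → b < 1 → I a = I b := by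
    intro a b ha hab hb
    set G : ℝ → ℝ := fun ε => ∫ y in (0 : ℝ)..1, deriv S y * (I (a + ε * y) - I (b + ε * y))
      with hG
    have hGc : Continuous G := by
      apply intervalIntegral.continuous_parametric_intervalIntegral_of_continuous'
      simp only [Function.uncurry_def]
      fun_prop
    have hG0 : G 0 = I a - I b := by
      simp only [hG, zero_mul, add_zero]
      rw [intervalIntegral.integral_mul_const, hint, one_mul]
    have hGε : ∀ ε : ℝ, 0 < ε → ε < 1 - b → G ε = 0 := by
      intro ε hε hε1
      set ψ : ℝ → ℝ := fun t => S ((t - a) / ε) - S ((t - b) / ε) with hψ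
      have hψd : ContDiff ℝ 1 ψ := by
        apply ContDiff.sub
        · exact hSd.comp ((contDiff_id.sub contDiff_const).div_const ε)
        · exact hSd.comp ((contDiff_id.sub contDiff_const).div_const ε)
      have hψl : ∀ t, t ≤ a → ψ t = 0 := by
        intro t ht
        simp only [hψ]
        rw [hS0 _ (div_nonpos_of_nonpos_of_nonneg (by linarith) hε.le),
          hS0 _ (div_nonpos_of_nonpos_of_nonneg (by linarith) hε.le), sub_zero]
      have hψr : ∀ t, b + ε ≤ t → ψ t = 0 := by
        intro t ht
        simp only [hψ]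
        rw [hS1 _ ((one_le_div hε).2 (by linarith)), hS1 _ ((one_le_div hε).2 (by linarith)),
          sub_self]
      have hψ' : ∀ t, deriv ψ t = deriv S ((t - a) / ε) / ε - deriv S ((t - b) / ε) / ε := by
        intro t
        have e1 : ∀ c : ℝ, HasDerivAt (fun t => S ((t - c) / ε)) (deriv S ((t - c) / ε) / ε) t := by
          intro c
          have h1 : HasDerivAt (fun t : ℝ => (t - c) / ε) (1 / ε) t :=
            ((hasDerivAt_id t).sub_const c).div_const ε
          have h2 := (hSdiff ((t - c) / ε)).hasDerivAt.comp t h1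
          rw [mul_one_div] at h2
          exact h2
        exact ((e1 a).sub (e1 b)).deriv
      have hvan : ∀ t, t ≤ 0 ∨ 1 ≤ t → ψ t = 0 := by
        intro t ht
        rcases ht with ht | ht
        · exact hψl t (by linarith)
        · exact hψr t (by linarith)
      have hvan' : ∀ t, t ≤ 0 ∨ 1 ≤ t → deriv ψ t = 0 := by
        intro t ht
        have : ψ =ᶠ[𝓝 t] fun _ => 0 := by
          rcases ht with ht | ht
          · filter_upwards [Iio_mem_nhds (show t < a by linarith)] with y hy
              using hψl y (le_of_lt hy)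
          · filter_upwards [Ioi_mem_nhds (show b + ε < t by linarith)] with y hy
              using hψr y (le_of_lt hy)
        rw [this.deriv_eq]
        simp
      have hcs : HasCompactSupport ψ := by
        apply HasCompactSupport.intro (isCompact_Icc (a := (0 : ℝ)) (b := 1))
        intro t ht
        apply hvan
        rw [mem_Icc, not_and_or, not_le, not_le] at ht
        rcases ht with ht | ht
        · exact Or.inl ht.le
        · exact Or.inr ht.le
      have h0 := h ψ hψd hvan hvan' hcs
      -- the two pieces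
      have piece : ∀ c : ℝ, ∫ t, deriv S ((t - c) / ε) / ε * I t =
          ∫ y in (0 : ℝ)..1, deriv S y * I (c + ε * y) := by
        intro c
        have h2 : ∫ t, deriv S ((t - c) / ε) / ε * I t =
            ∫ t, deriv S (t / ε) / ε * I (t + c) := by
          rw [← integral_add_right_eq_self (fun t => deriv S ((t - c) / ε) / ε * I t) c]
          simp
        have h3 : ∫ y, deriv S y * I (c + ε * y) = ∫ t, deriv S (t / ε) / ε * I (t + c) := by
          have h4 := Measure.integral_comp_mul_left (fun t => deriv S (t / ε) / ε * I (t + c)) ε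
          have h5 : (fun y => deriv S (ε * y / ε) / ε * I (ε * y + c)) =
              fun y => ε⁻¹ * (deriv S y * I (c + ε * y)) := by
            funext y
            rw [mul_div_cancel_left₀ _ hε.ne', add_comm]
            field_simp
          rw [h5, integral_const_mul, abs_of_pos (inv_pos.2 hε), smul_eq_mul] at h4
          exact mul_left_cancel₀ (inv_pos.2 hε).ne' h4
        rw [h2, ← h3]
        rw [intervalIntegral.integral_of_le zero_le_one]
        rw [← integral_Icc_eq_integral_Ioc]
        rw [setIntegral_eq_integral_of_forall_compl_eq_zero]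
        intro y hy
        rw [mem_Icc, not_and_or, not_le, not_le] at hy
        rw [hSd0 y hy, zero_mul]
      have hcont1 : ∀ c : ℝ, Integrable fun t => deriv S ((t - c) / ε) / ε * I t := by
        intro c
        apply Continuous.integrable_of_hasCompactSupport
        · fun_prop
        · apply HasCompactSupport.intro (isCompact_Icc (a := c) (b := c + ε))
          intro t ht
          rw [mem_Icc, not_and_or, not_le, not_le] at ht
          rw [hSd0, zero_div, zero_mul]
          rcases ht with ht | ht
          · left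
            exact div_neg_of_neg_of_pos (by linarith) hε
          · right
            exact (one_lt_div hε).2 (by linarith)
      simp only [hψ', sub_mul] at h0
      rw [integral_sub (hcont1 a) (hcont1 b), piece a, piece b] at h0
      simp only [hG, mul_sub]
      rw [intervalIntegral.integral_sub]
      · exact h0
      · apply Continuous.intervalIntegrable
        fun_prop
      · apply Continuous.intervalIntegrable
        fun_prop
    have hcl : IsClosed {ε : ℝ | G ε = 0} := isClosed_eq hGc continuous_const
    have hsub : Ioo 0 (1 - b) ⊆ {ε : ℝ | G ε = 0} := fun ε hε => hGε ε hε.1 hε.2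
    have h1 : (0 : ℝ) ∈ closure (Ioo 0 (1 - b)) := by
      rw [closure_Ioo (by linarith)]
      exact ⟨le_rfl, by linarith⟩
    have h2 : G 0 = 0 := (closure_minimal hsub hcl) h1
    rw [hG0] at h2
    linarith
  have hall : ∀ t ∈ Ioo (0 : ℝ) 1, I t = I (1 / 2) := by
    intro t ht
    rcases lt_trichotomy t (1 / 2) with h1 | h1 | h1
    · exact key t (1 / 2) ht.1 h1 (by norm_num)
    · rw [h1]
    · exact (key (1 / 2) t (by norm_num) h1 ht.2).symm
  have hcl : IsClosed {t : ℝ | I t = I (1 / 2)} := isClosed_eq hI continuous_const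
  have hsub : closure (Ioo (0 : ℝ) 1) ⊆ {t : ℝ | I t = I (1 / 2)} := closure_minimal hall hcl
  rw [closure_Ioo (by norm_num)] at hsub
  have h0 := hsub (show (0 : ℝ) ∈ Icc (0 : ℝ) 1 from ⟨le_rfl, zero_le_one⟩)
  have h1 := hsub (show (1 : ℝ) ∈ Icc (0 : ℝ) 1 from ⟨zero_le_one, le_rfl⟩)
  exact h0.trans h1.symm

variable {E : Type*} [NormedAddCommGroup E] [NormedSpace ℝ E] [FiniteDimensional ℝ E]
  [MeasurableSpace E] [BorelSpace E]

theorem deg_homotopy (μ : Measure E) [μ.IsAddHaarMeasure] (F : ℝ × E → E) (hF : ContDiff ℝ 1 F)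
    (w : ℝ × E → ℝ) (hw : ContDiff ℝ 1 w) (hwc : HasCompactSupport w) (φ : E → ℝ)
    (hφ : ContDiff ℝ 1 φ)
    (hsep : ∀ p : ℝ × E, p.1 ∈ Icc (0 : ℝ) 1 → fderiv ℝ w p ≠ 0 → φ (F p) = 0) :
    ∫ x, w (0, x) * φ (F (0, x)) * (fderiv ℝ (fun y => F (0, y)) x).det ∂μ =
      ∫ x, w (1, x) * φ (F (1, x)) * (fderiv ℝ (fun y => F (1, y)) x).det ∂μ := by
  set J : ℝ × E → ℝ := fun p =>
    ((fderiv ℝ F p).comp (ContinuousLinearMap.inr ℝ ℝ E)).det with hJ
  have hFd : Differentiable ℝ F := hF.differentiable (by norm_num)
  have hwd : Differentiable ℝ w := hw.differentiable (by norm_num)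
  have hφd : Differentiable ℝ φ := hφ.differentiable (by norm_num)
  have hFc : Continuous (fderiv ℝ F) := hF.continuous_fderiv (by norm_num)
  have hJc : Continuous J := by
    apply ContinuousLinearMap.continuous_det.comp
    fun_prop
  have hsec : ∀ (t : ℝ) (x : E), (fderiv ℝ (fun y => F (t, y)) x).det = J (t, x) := by
    intro t x
    have h1 : HasFDerivAt (fun y : E => F (t, y))
        ((fderiv ℝ F (t, x)).comp (ContinuousLinearMap.inr ℝ ℝ E)) x := by
      have h2 : HasFDerivAt (fun y : E => (t, y)) (ContinuousLinearMap.inr ℝ ℝ E) x := by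
        have := (hasFDerivAt_const (𝕜 := ℝ) t x).prodMk (hasFDerivAt_id (𝕜 := ℝ) x)
        exact this
      exact (hFd (t, x)).hasFDerivAt.comp x h2
    rw [h1.fderiv]
  simp only [hsec]
  set f : ℝ × E → ℝ := fun p => w p * φ (F p) * J p with hf
  have hfc : Continuous f := (hw.continuous.mul (hφ.continuous.comp hF.continuous)).mul hJc
  set I : ℝ → ℝ := fun t => ∫ x, f (t, x) ∂μ with hI
  obtain ⟨R, hR⟩ := hwc.isCompact.isBounded.subset_closedBall (0 : ℝ × E)
  have hw0 : ∀ p : ℝ × E, R < ‖p‖ → w p = 0 := by
    intro p hp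
    by_contra hne
    have := hR (subset_tsupport w hne)
    rw [mem_closedBall_zero_iff] at this
    linarith
  have hIc : Continuous I := by
    have h1 : I = fun t => ∫ x in Metric.closedBall (0 : E) R, f (t, x) ∂μ := by
      funext t
      rw [setIntegral_eq_integral_of_forall_compl_eq_zero]
      intro x hx
      rw [Metric.mem_closedBall, dist_zero_right, not_le] at hx
      have : w (t, x) = 0 := hw0 _ (lt_of_lt_of_le hx (norm_snd_le (t, x)))
      simp only [hf, this, zero_mul]
    rw [h1]
    exact continuous_parametric_integral_of_continuous (f := fun t x => f (t, x))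
      (by simpa [Function.uncurry_def] using hfc) (isCompact_closedBall _ _)
  refine const_of_orth I hIc ?_
  intro ψ hψ hψ0 hψ0' hψc
  have hψd : Differentiable ℝ ψ := hψ.differentiable (by norm_num)
  -- the test map
  let χ : ContDiffBump (0 : ℝ × E) :=
    { rIn := max R 0 + 1, rOut := max R 0 + 2, rIn_pos := by positivity, rIn_lt_rOut := by linarith }
  set h : ℝ × E → ℝ := fun p => w p * φ (F p) * ψ p.1 with hh
  set u : ℝ × E → ℝ × E := fun p => (h p, χ p • F p) with hu
  have hhC : ContDiff ℝ 1 h := (hw.mul (hφ.comp hF)).mul (hψ.comp contDiff_fst)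
  have hχC : ContDiff ℝ 1 (fun p => χ p) := χ.contDiff
  have huC : ContDiff ℝ 1 u := hhC.prodMk (hχC.smul hF)
  have huc : HasCompactSupport u := by
    apply HasCompactSupport.intro (isCompact_closedBall (0 : ℝ × E) (max R 0 + 2))
    intro p hp
    rw [Metric.mem_closedBall, dist_zero_right, not_le] at hp
    have h1 : w p = 0 := hw0 p (by
      have := le_max_left R 0
      linarith)
    have h2 : χ p = 0 := χ.zero_of_le_dist (by
      rw [dist_zero_right]
      exact hp.le)
    simp only [hu, hh, h1, h2, zero_mul, zero_smul, Prod.mk_zero_zero]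
  have hmain := integral_det_fderiv_eq_zero (volume.prod μ) u huC huc
  have hdet : ∀ p : ℝ × E, (fderiv ℝ u p).det = deriv ψ p.1 * f p := by
    intro p
    by_cases hp : p ∈ tsupport w
    · have hχ1 : (fun q => χ q) =ᶠ[𝓝 p] fun _ => (1 : ℝ) := by
        have h1 : ‖p‖ ≤ R := by
          have := hR hp
          rwa [mem_closedBall_zero_iff] at this
        have h2 : p ∈ Metric.ball (0 : ℝ × E) (max R 0 + 1) := by
          rw [mem_ball_zero_iff]
          have := le_max_left R 0
          linarith
        filter_upwards [Metric.isOpen_ball.mem_nhds h2] with q hq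
        exact χ.one_of_mem_closedBall (Metric.ball_subset_closedBall hq)
      have hue : u =ᶠ[𝓝 p] fun q => (h q, F q) := by
        filter_upwards [hχ1] with q hq
        simp only [hu]
        rw [hq, one_smul]
      rw [hue.fderiv_eq]
      have hhd : HasFDerivAt h (((w p * ψ p.1) • fderiv ℝ φ (F p)).comp (fderiv ℝ F p) +
          (w p * φ (F p) * deriv ψ p.1) • ContinuousLinearMap.fst ℝ ℝ E) p := by
        have e1 := (hwd p).hasFDerivAt
        have e2 := (hφd (F p)).hasFDerivAt.comp p (hFd p).hasFDerivAt
        have e3 : HasFDerivAt (fun q : ℝ × E => ψ q.1)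
            (deriv ψ p.1 • ContinuousLinearMap.fst ℝ ℝ E) p := by
          have := (hψd p.1).hasDerivAt.comp_hasFDerivAt p
            (hasFDerivAt_fst (𝕜 := ℝ) (E := ℝ) (F := E) (p := p))
          exact this
        have e4 := (e1.mul e2).mul e3
        refine e4.congr_fderiv ?_
        have e5 : (φ (F p) * ψ p.1) • fderiv ℝ w p = 0 := by
          by_cases hz : fderiv ℝ w p = 0
          · rw [hz, smul_zero]
          · by_cases ht : p.1 ∈ Icc (0 : ℝ) 1
            · rw [hsep p ht hz, zero_mul, zero_smul]
            · have : ψ p.1 = 0 := by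
                apply hψ0
                rw [mem_Icc, not_and_or, not_le, not_le] at ht
                rcases ht with ht | ht
                · exact Or.inl ht.le
                · exact Or.inr ht.le
              rw [this, mul_zero, zero_smul]
        have e6 : ∀ v, (φ (F p) * ψ p.1) * (fderiv ℝ w p v) = 0 := by
          intro v
          have := DFunLike.congr_fun e5 v
          simpa using this
        apply ContinuousLinearMap.ext
        intro v
        have := e6 v
        simp only [Function.comp_apply, ContinuousLinearMap.coe_comp, add_apply, Pi.mul_apply,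
          FunLike.coe_smul, Pi.smul_apply, smul_eq_mul, ContinuousLinearMap.coe_fst'] at this ⊢
        linear_combination this
      rw [(hhd.prodMk (hFd p).hasFDerivAt).fderiv, det_block]
      simp only [hf, hJ]
      ring
    · have hw0' : w =ᶠ[𝓝 p] fun _ => 0 := by
        have := notMem_tsupport_iff_eventuallyEq.1 hp
        exact this
      have hwp : w p = 0 := hw0'.self_of_nhds
      have hue : u =ᶠ[𝓝 p] fun q => ((0 : ℝ), χ q • F q) := by
        filter_upwards [hw0'] with q hq
        simp only [hu, hh, hq, zero_mul]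
      rw [hue.fderiv_eq]
      have hd : HasFDerivAt (fun q => ((0 : ℝ), χ q • F q))
          (((0 : E →L[ℝ] ℝ).comp (fderiv ℝ (fun q => χ q • F q) p) +
            (0 : ℝ) • ContinuousLinearMap.fst ℝ ℝ E).prod (fderiv ℝ (fun q => χ q • F q) p)) p := by
        have h1 : HasFDerivAt (fun q => χ q • F q) (fderiv ℝ (fun q => χ q • F q) p) p :=
          ((hχC.smul hF).differentiable (by norm_num) p).hasFDerivAt
        have h2 := (hasFDerivAt_const (𝕜 := ℝ) (0 : ℝ) p).prodMk h1
        refine h2.congr_fderiv ?_
        simp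
      rw [hd.fderiv, det_block]
      simp only [hf, hwp, zero_mul, mul_zero]
  have hψ'c : Continuous (deriv ψ) := hψ.continuous_deriv (by norm_num)
  simp only [hdet] at hmain
  rw [integral_prod] at hmain
  · simp only [integral_const_mul] at hmain
    exact hmain
  · apply Continuous.integrable_of_hasCompactSupport
    · exact (hψ'c.comp continuous_fst).mul hfc
    · apply HasCompactSupport.intro hwc.isCompact
      intro p hp
      have : w p = 0 := image_eq_zero_of_notMem_tsupport hp
      simp only [hf, this, zero_mul, mul_zero]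

end

end Pool.Agent.CT
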