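import Pool.Agent.CT.Deg2

/-!
# The degree integral and the simple zeros
-/

open MeasureTheory Set Filter Topology

namespace Pool.Agent.CT

section

variable {E : Type*} [NormedAddCommGroup E] [NormedSpace ℝ E] [FiniteDimensional ℝ E]

theorem local_piece (f : E → E) (hf : ContDiff ℝ 1 f) (x : E) (hx : (fderiv ℝ f x).det ≠ 0)
    (W : Set E) (hW : W ∈ 𝓝 x) : ∃ A : Set E, IsOpen A ∧ x ∈ A ∧ A ⊆ W ∧ InjOn f A ∧
      IsOpen (f '' A) ∧ ∀ y ∈ A, 0 < (fderiv ℝ f x).det * (fderiv ℝ f y).det := by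
  have hs : HasStrictFDerivAt f (fderiv ℝ f x) x := hf.contDiffAt.hasStrictFDerivAt (by norm_num)
  set e := (fderiv ℝ f x).toContinuousLinearEquivOfDetNeZero hx with he
  have hs' : HasStrictFDerivAt f (e : E →L[ℝ] E) x := by
    rw [he, ContinuousLinearMap.coe_toContinuousLinearEquivOfDetNeZero]
    exact hs
  set R := hs'.toOpenPartialHomeomorph f with hR
  have hRc : (R : E → E) = f := hs'.toOpenPartialHomeomorph_coe
  have hc : Continuous fun y => (fderiv ℝ f x).det * (fderiv ℝ f y).det :=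
    continuous_const.mul (ContinuousLinearMap.continuous_det.comp
      (hf.continuous_fderiv (by norm_num)))
  have hA : IsOpen (R.source ∩ interior W ∩ {y | 0 < (fderiv ℝ f x).det * (fderiv ℝ f y).det}) :=
    (R.open_source.inter isOpen_interior).inter (isOpen_lt continuous_const hc)
  refine ⟨_, hA, ⟨⟨hs'.mem_toOpenPartialHomeomorph_source, mem_interior_iff_mem_nhds.2 hW⟩, ?_⟩,
    fun y hy => interior_subset hy.1.2, ?_, ?_, fun y hy => hy.2⟩
  · exact mul_self_pos.2 hx
  · intro a ha b hb hab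
    refine R.injOn ha.1.1 hb.1.1 ?_
    rw [hRc]
    exact hab
  · have := R.isOpen_image_of_subset_source hA (fun y hy => hy.1.1)
    rwa [hRc] at this

variable [MeasurableSpace E] [BorelSpace E]

theorem piece_integral (μ : Measure E) [μ.IsAddHaarMeasure] (f : E → E) (hf : ContDiff ℝ 1 f)
    (A : Set E) (hA : IsOpen A) (hinj : InjOn f A) (φ : E → ℝ)
    (hφ : ∀ y, y ∉ f '' A → φ y = 0) :
    ∫ x in A, |(fderiv ℝ f x).det| * φ (f x) ∂μ = ∫ y, φ y ∂μ := by
  have h1 := integral_image_eq_integral_abs_det_fderiv_smul μ hA.measurableSet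
    (fun x _ => ((hf.differentiable (by norm_num) x).hasFDerivAt).hasFDerivWithinAt) hinj φ
  simp only [smul_eq_mul] at h1
  rw [← h1, setIntegral_eq_integral_of_forall_compl_eq_zero hφ]

/-- simple zeros compute the degree integral -/
theorem deg_local (μ : Measure E) [μ.IsAddHaarMeasure] (f : E → E) (hf : ContDiff ℝ 1 f)
    (w : E → ℝ) (hw : Continuous w) (hwc : HasCompactSupport w) (Z : Finset E)
    (hZ : ∀ x ∈ tsupport w, f x = 0 → x ∈ Z)
    (hZ0 : ∀ x ∈ Z, f x = 0) (hZd : ∀ x ∈ Z, (fderiv ℝ f x).det ≠ 0)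
    (hwl : ∀ x ∈ Z, ∀ᶠ y in 𝓝 x, w y = w x) :
    ∃ r > 0, ∀ φ : E → ℝ, Continuous φ → (∀ y, r ≤ ‖y‖ → φ y = 0) →
      ∫ x, w x * φ (f x) * (fderiv ℝ f x).det ∂μ =
        (∑ x ∈ Z, w x * ((SignType.sign (fderiv ℝ f x).det : SignType) : ℝ)) * ∫ y, φ y ∂μ := by
  classical
  obtain ⟨U, hU, hUd⟩ := (Z.finite_toSet).t2_separation
  have hA : ∀ x : E, ∃ A : Set E, x ∈ Z → (IsOpen A ∧ x ∈ A ∧ A ⊆ U x ∩ {y | w y = w x} ∧
      InjOn f A ∧ IsOpen (f '' A) ∧ ∀ y ∈ A, 0 < (fderiv ℝ f x).det * (fderiv ℝ f y).det) := by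
    intro x
    by_cases hx : x ∈ Z
    · obtain ⟨A, hA⟩ := local_piece f hf x (hZd x hx) (U x ∩ {y | w y = w x})
        (inter_mem ((hU x).2.mem_nhds (hU x).1) (hwl x hx))
      exact ⟨A, fun _ => hA⟩
    · exact ⟨∅, fun h => absurd h hx⟩
  choose A hA using hA
  have hball : ∀ x : E, ∃ r > 0, x ∈ Z → Metric.ball (0 : E) r ⊆ f '' (A x) := by
    intro x
    by_cases hx : x ∈ Z
    · obtain ⟨hAo, hxA, -, -, hfo, -⟩ := hA x hx
      obtain ⟨r, hr, hr2⟩ := Metric.isOpen_iff.1 hfo 0 ⟨x, hxA, hZ0 x hx⟩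
      exact ⟨r, hr, fun _ => hr2⟩
    · exact ⟨1, one_pos, fun h => absurd h hx⟩
  choose ρ hρ0 hρ using hball
  -- away from the pieces
  have hVo : IsOpen (⋃ x ∈ Z, A x) := isOpen_biUnion fun x hx => (hA x hx).1
  have hK : IsCompact (tsupport w \ ⋃ x ∈ Z, A x) := hwc.isCompact.diff hVo
  obtain ⟨r1, hr1, hr1f⟩ : ∃ r1 > 0, ∀ y ∈ tsupport w \ ⋃ x ∈ Z, A x, r1 ≤ ‖f y‖ := by
    rcases (tsupport w \ ⋃ x ∈ Z, A x).eq_empty_or_nonempty with h | h
    · rw [h]
      exact ⟨1, one_pos, fun y hy => absurd hy (notMem_empty y)⟩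
    · obtain ⟨y0, hy0, hmin⟩ := hK.exists_isMinOn h (hf.continuous.norm.continuousOn)
      refine ⟨‖f y0‖, ?_, fun y hy => hmin hy⟩
      rw [gt_iff_lt, norm_pos_iff]
      intro h0
      have := hZ y0 hy0.1 h0
      exact hy0.2 (mem_biUnion this (hA y0 this).2.1)
  obtain ⟨r, hr, hrr, hr1'⟩ : ∃ r > 0, (∀ x ∈ Z, r ≤ ρ x) ∧ r ≤ r1 := by
    rcases Z.eq_empty_or_nonempty with h | h
    · exact ⟨r1, hr1, by simp [h], le_rfl⟩
    · refine ⟨min r1 (Z.inf' h ρ), ?_, ?_, min_le_left _ _⟩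
      · apply lt_min hr1
        rw [Finset.lt_inf'_iff]
        exact fun x _ => hρ0 x
      · intro x hx
        exact (min_le_right _ _).trans (Finset.inf'_le _ hx)
  refine ⟨r, hr, fun φ hφ hφ0 => ?_⟩
  have hdc : Continuous fun x => (fderiv ℝ f x).det :=
    ContinuousLinearMap.continuous_det.comp (hf.continuous_fderiv (by norm_num))
  have hgc : Continuous fun x => w x * φ (f x) * (fderiv ℝ f x).det :=
    (hw.mul (hφ.comp hf.continuous)).mul hdc
  have hgi : Integrable (fun x => w x * φ (f x) * (fderiv ℝ f x).det) μ := by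
    apply hgc.integrable_of_hasCompactSupport
    apply HasCompactSupport.intro hwc.isCompact
    intro x hx
    rw [image_eq_zero_of_notMem_tsupport hx, zero_mul, zero_mul]
  have h0 : ∀ x, x ∉ (⋃ x ∈ Z, A x) → w x * φ (f x) * (fderiv ℝ f x).det = 0 := by
    intro x hx
    by_cases hxw : x ∈ tsupport w
    · rw [hφ0 (f x) (hr1'.trans (hr1f x ⟨hxw, hx⟩)), mul_zero, zero_mul]
    · rw [image_eq_zero_of_notMem_tsupport hxw, zero_mul, zero_mul]
  rw [← setIntegral_eq_integral_of_forall_compl_eq_zero h0]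
  rw [integral_biUnion_finset Z (fun x hx => (hA x hx).1.measurableSet)
    (fun x hx y hy hxy => by
      have h1 := hUd hx hy hxy
      refine Disjoint.mono ?_ ?_ h1
      · exact fun z hz => ((hA x hx).2.2.1 hz).1
      · exact fun z hz => ((hA y hy).2.2.1 hz).1)
    (fun x _ => hgi.integrableOn)]
  rw [Finset.sum_mul]
  refine Finset.sum_congr rfl fun x hx => ?_
  obtain ⟨hAo, hxA, hAU, hAi, hAf, hAd⟩ := hA x hx
  rw [← piece_integral μ f hf (A x) hAo hAi φ (fun y hy => by
    by_contra hne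
    have h1 : ‖y‖ < r := by
      by_contra hle
      exact hne (hφ0 y (not_lt.1 hle))
    exact hy (hρ x hx (by
      rw [mem_ball_zero_iff]
      exact lt_of_lt_of_le h1 (hrr x hx))))]
  rw [← integral_const_mul]
  refine setIntegral_congr_fun hAo.measurableSet fun y hy => ?_
  have h1 : w y = w x := (hAU hy).2
  have h2 : (fderiv ℝ f y).det = ((SignType.sign (fderiv ℝ f x).det : SignType) : ℝ) *
      |(fderiv ℝ f y).det| := by
    have h3 := hAd y hy
    rcases lt_or_gt_of_ne (hZd x hx) with h4 | h4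
    · have h5 : (fderiv ℝ f y).det < 0 := by nlinarith
      rw [sign_neg h4, abs_of_neg h5]
      simp
    · have h5 : 0 < (fderiv ℝ f y).det := by nlinarith
      rw [sign_pos h4, abs_of_pos h5]
      simp
  rw [h1]
  conv_lhs => rw [h2]
  ring

/-- with a nonnegative Jacobian the integral bounds the number of simple zeros -/
theorem card_mul_le (μ : Measure E) [μ.IsAddHaarMeasure] (f : E → E) (hf : ContDiff ℝ 1 f)
    (w : E → ℝ) (hw : Continuous w) (hwc : HasCompactSupport w) (hw0 : ∀ x, 0 ≤ w x)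
    (hd : ∀ x, 0 ≤ (fderiv ℝ f x).det) (T : Finset E)
    (hT0 : ∀ x ∈ T, f x = 0) (hTd : ∀ x ∈ T, (fderiv ℝ f x).det ≠ 0)
    (hwl : ∀ x ∈ T, ∀ᶠ y in 𝓝 x, w y = 1) :
    ∃ r > 0, ∀ φ : E → ℝ, Continuous φ → (∀ y, 0 ≤ φ y) → (∀ y, r ≤ ‖y‖ → φ y = 0) →
      (T.card : ℝ) * ∫ y, φ y ∂μ ≤ ∫ x, w x * φ (f x) * (fderiv ℝ f x).det ∂μ := by
  classical
  obtain ⟨U, hU, hUd⟩ := (T.finite_toSet).t2_separation
  have hA : ∀ x : E, ∃ A : Set E, x ∈ T → (IsOpen A ∧ x ∈ A ∧ A ⊆ U x ∩ {y | w y = 1} ∧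
      InjOn f A ∧ IsOpen (f '' A) ∧ ∀ y ∈ A, 0 < (fderiv ℝ f x).det * (fderiv ℝ f y).det) := by
    intro x
    by_cases hx : x ∈ T
    · obtain ⟨A, hA⟩ := local_piece f hf x (hTd x hx) (U x ∩ {y | w y = 1})
        (inter_mem ((hU x).2.mem_nhds (hU x).1) (hwl x hx))
      exact ⟨A, fun _ => hA⟩
    · exact ⟨∅, fun h => absurd h hx⟩
  choose A hA using hA
  have hball : ∀ x : E, ∃ r > 0, x ∈ T → Metric.ball (0 : E) r ⊆ f '' (A x) := by
    intro x
    by_cases hx : x ∈ T
    · obtain ⟨hAo, hxA, -, -, hfo, -⟩ := hA x hx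
      obtain ⟨r, hr, hr2⟩ := Metric.isOpen_iff.1 hfo 0 ⟨x, hxA, hT0 x hx⟩
      exact ⟨r, hr, fun _ => hr2⟩
    · exact ⟨1, one_pos, fun h => absurd h hx⟩
  choose ρ hρ0 hρ using hball
  obtain ⟨r, hr, hrr⟩ : ∃ r > 0, ∀ x ∈ T, r ≤ ρ x := by
    rcases T.eq_empty_or_nonempty with h | h
    · exact ⟨1, one_pos, by simp [h]⟩
    · refine ⟨T.inf' h ρ, ?_, fun x hx => Finset.inf'_le _ hx⟩
      rw [gt_iff_lt, Finset.lt_inf'_iff]
      exact fun x _ => hρ0 x
  refine ⟨r, hr, fun φ hφ hφn hφ0 => ?_⟩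
  have hdc : Continuous fun x => (fderiv ℝ f x).det :=
    ContinuousLinearMap.continuous_det.comp (hf.continuous_fderiv (by norm_num))
  have hgc : Continuous fun x => w x * φ (f x) * (fderiv ℝ f x).det :=
    (hw.mul (hφ.comp hf.continuous)).mul hdc
  have hgi : Integrable (fun x => w x * φ (f x) * (fderiv ℝ f x).det) μ := by
    apply hgc.integrable_of_hasCompactSupport
    apply HasCompactSupport.intro hwc.isCompact
    intro x hx
    rw [image_eq_zero_of_notMem_tsupport hx, zero_mul, zero_mul]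
  have hgn : ∀ x, 0 ≤ w x * φ (f x) * (fderiv ℝ f x).det := fun x =>
    mul_nonneg (mul_nonneg (hw0 x) (hφn _)) (hd x)
  have h1 : ∫ x in (⋃ x ∈ T, A x), w x * φ (f x) * (fderiv ℝ f x).det ∂μ ≤
      ∫ x, w x * φ (f x) * (fderiv ℝ f x).det ∂μ :=
    setIntegral_le_integral hgi (Eventually.of_forall hgn)
  refine le_trans (le_of_eq ?_) h1
  rw [integral_biUnion_finset T (fun x hx => (hA x hx).1.measurableSet)
    (fun x hx y hy hxy => by
      have h1 := hUd hx hy hxy
      refine Disjoint.mono ?_ ?_ h1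
      · exact fun z hz => ((hA x hx).2.2.1 hz).1
      · exact fun z hz => ((hA y hy).2.2.1 hz).1)
    (fun x _ => hgi.integrableOn)]
  rw [← nsmul_eq_mul, ← Finset.sum_const]
  refine Finset.sum_congr rfl fun x hx => ?_
  obtain ⟨hAo, hxA, hAU, hAi, hAf, hAd⟩ := hA x hx
  rw [← piece_integral μ f hf (A x) hAo hAi φ (fun y hy => by
    by_contra hne
    have h1 : ‖y‖ < r := by
      by_contra hle
      exact hne (hφ0 y (not_lt.1 hle))
    exact hy (hρ x hx (by
      rw [mem_ball_zero_iff]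
      exact lt_of_lt_of_le h1 (hrr x hx))))]
  refine setIntegral_congr_fun hAo.measurableSet fun y hy => ?_
  have h1 : w y = 1 := (hAU hy).2
  rw [h1, abs_of_nonneg (hd y)]
  ring

/-- a large integral gives many simple preimages of some small value -/
theorem exists_many (μ : Measure E) [μ.IsAddHaarMeasure] (f : E → E) (hf : ContDiff ℝ 1 f)
    (w : E → ℝ) (hw : Continuous w) (hwc : HasCompactSupport w) (hw1 : ∀ x, |w x| ≤ 1)
    (d : ℕ) (r0 : ℝ) (hr0 : 0 < r0)
    (h : ∀ φ : E → ℝ, ContDiff ℝ 1 φ → (∀ y, 0 ≤ φ y) → (∀ y, r0 ≤ ‖y‖ → φ y = 0) →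
      (d : ℝ) * ∫ y, φ y ∂μ ≤ |∫ x, w x * φ (f x) * (fderiv ℝ f x).det ∂μ|) :
    ∀ r > 0, ∃ u : E, ‖u‖ < r ∧ ∃ T : Finset E, T.card = d ∧
      ∀ x ∈ T, w x ≠ 0 ∧ f x = u ∧ (fderiv ℝ f x).det ≠ 0 := by
  classical
  intro r hr
  by_contra hcon
  push Not at hcon
  rcases Nat.eq_zero_or_pos d with hd | hd
  · subst hd
    obtain ⟨x, hx, -⟩ := hcon 0 (by simpa using hr) ∅ (by simp)
    exact absurd hx (Finset.notMem_empty x)
  -- the bump
  set r1 := min r r0 with hr1
  have hr1p : 0 < r1 := lt_min hr hr0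
  let φ : ContDiffBump (0 : E) :=
    { rIn := r1 / 2, rOut := r1, rIn_pos := by positivity, rIn_lt_rOut := by linarith }
  have hφ0 : ∀ y, r1 ≤ ‖y‖ → φ y = 0 := fun y hy => φ.zero_of_le_dist (by
    rw [dist_zero_right]
    exact hy)
  have hφn : ∀ y, 0 ≤ φ y := fun y => φ.nonneg
  have hφc : Continuous fun y => φ y := φ.continuous
  have hφi : Integrable (fun y => φ y) μ := φ.integrable
  have hφpos : 0 < ∫ y, φ y ∂μ := φ.integral_pos
  have h1 := h φ φ.contDiff hφn (fun y hy => hφ0 y ((min_le_right _ _).trans hy))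
  -- the set
  have hdc : Continuous fun x => (fderiv ℝ f x).det :=
    ContinuousLinearMap.continuous_det.comp (hf.continuous_fderiv (by norm_num))
  set A : Set E := {x | w x ≠ 0 ∧ (fderiv ℝ f x).det ≠ 0} with hAdef
  have hAo : IsOpen A := (isOpen_ne_fun hw continuous_const).inter
    (isOpen_ne_fun hdc continuous_const)
  -- pieces
  have hpc : ∀ x : E, ∃ B : Set E, IsOpen B ∧ (x ∈ A → x ∈ B) ∧ B ⊆ A ∧ InjOn f B := by
    intro x
    by_cases hx : x ∈ A
    · obtain ⟨B, hB⟩ := local_piece f hf x hx.2 A (hAo.mem_nhds hx)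
      exact ⟨B, hB.1, fun _ => hB.2.1, hB.2.2.1, hB.2.2.2.1⟩
    · exact ⟨∅, isOpen_empty, fun h => absurd h hx, empty_subset _, injOn_empty _⟩
  choose B hBo hBx hBA hBi using hpc
  obtain ⟨T0, hT0, hT0u⟩ := TopologicalSpace.isOpen_iUnion_countable B hBo
  have hT0ne : ∃ e : ℕ → Set E, (∀ n, IsOpen (e n)) ∧ (∀ n, e n ⊆ A) ∧ (∀ n, InjOn f (e n)) ∧
      A ⊆ ⋃ n, e n := by
    rcases T0.eq_empty_or_nonempty with h0 | h0
    · refine ⟨fun _ => ∅, fun _ => isOpen_empty, fun _ => empty_subset _,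
        fun _ => injOn_empty _, ?_⟩
      intro x hx
      have : x ∈ ⋃ i, B i := mem_iUnion.2 ⟨x, hBx x hx⟩
      rw [← hT0u, h0] at this
      simp at this
    · obtain ⟨g, hg⟩ := hT0.exists_eq_range h0
      refine ⟨fun n => B (g n), fun n => hBo _, fun n => hBA _, fun n => hBi _, ?_⟩
      intro x hx
      have : x ∈ ⋃ i, B i := mem_iUnion.2 ⟨x, hBx x hx⟩
      rw [← hT0u, hg] at this
      simp only [mem_range, iUnion_exists, iUnion_iUnion_eq', mem_iUnion] at this ⊢
      exact this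
  obtain ⟨e, heo, heA, hei, heU⟩ := hT0ne
  set D : ℕ → Set E := disjointed e with hD
  have hDsub : ∀ n, D n ⊆ e n := fun n => disjointed_subset e n
  have hDdis : Pairwise fun i j => Disjoint (D i) (D j) := disjoint_disjointed e
  have hDU : ⋃ n, D n = A := by
    rw [hD, iUnion_disjointed]
    exact Subset.antisymm (iUnion_subset heA) heU
  have hDm : ∀ n, MeasurableSet (D n) := fun n =>
    MeasurableSet.disjointed (fun n => (heo n).measurableSet) n
  have hDi : ∀ n, InjOn f (D n) := fun n => (hei n).mono (hDsub n)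
  -- lintegral
  set Φ : E → ENNReal := fun y => ENNReal.ofReal (φ y) with hΦ
  have hΦm : Measurable Φ := (hφc.measurable).ennreal_ofReal
  have key : ∫⁻ x in A, ENNReal.ofReal |(fderiv ℝ f x).det| * Φ (f x) ∂μ ≤
      ((d - 1 : ℕ) : ENNReal) * ∫⁻ y, Φ y ∂μ := by
    have h2 : ∀ n, ∫⁻ x in D n, ENNReal.ofReal |(fderiv ℝ f x).det| * Φ (f x) ∂μ =
        ∫⁻ y, (f '' D n).indicator Φ y ∂μ := by
      intro n
      have h3 := lintegral_image_eq_lintegral_abs_det_fderiv_mul μ (hDm n)
        (fun x _ => ((hf.differentiable (by norm_num) x).hasFDerivAt).hasFDerivWithinAt)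
        (hDi n) Φ
      rw [← h3, lintegral_indicator]
      exact measurable_image_of_fderivWithin (hDm n)
        (fun x _ => ((hf.differentiable (by norm_num) x).hasFDerivAt).hasFDerivWithinAt) (hDi n)
    rw [← hDU, lintegral_iUnion hDm hDdis]
    simp only [h2]
    rw [← lintegral_tsum]
    · rw [← lintegral_const_mul _ hΦm]
      apply lintegral_mono
      intro y
      -- at most d - 1 pieces meet the fibre
      by_cases hy : φ y = 0
      · have : ∀ n, (f '' D n).indicator Φ y = 0 := by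
          intro n
          by_cases hyn : y ∈ f '' D n
          · rw [indicator_of_mem hyn]
            simp [hΦ, hy]
          · rw [indicator_of_notMem hyn]
        simp [this]
      · have hyr : ‖y‖ < r := by
          by_contra hle
          exact hy (hφ0 y ((min_le_left _ _).trans (not_lt.1 hle)))
        set N : Set ℕ := {n | y ∈ f '' D n} with hN
        have hfin : ∀ F : Finset ℕ, (F : Set ℕ) ⊆ N → F.card ≤ d - 1 := by
          intro F hF
          by_contra hlt
          have hle : d ≤ F.card := by omega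
          obtain ⟨F', hF', hF'c⟩ := Finset.exists_subset_card_eq hle
          have hc : ∀ n : ℕ, ∃ x : E, n ∈ F' → x ∈ D n ∧ f x = y := by
            intro n
            by_cases hn : n ∈ F'
            · obtain ⟨x, hx, hxy⟩ := hF (hF' hn)
              exact ⟨x, fun _ => ⟨hx, hxy⟩⟩
            · exact ⟨0, fun h => absurd h hn⟩
          choose g hg using hc
          have hgi : Set.InjOn g F' := by
            intro a ha b hb hab
            by_contra hne
            have h5 := (hg a ha).1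
            have h6 := (hg b hb).1
            rw [hab] at h5
            exact (disjoint_left.1 (hDdis hne)) h5 h6
          have hcard : (F'.image g).card = d := by
            rw [Finset.card_image_of_injOn hgi, hF'c]
          obtain ⟨x, hx, hx2⟩ := hcon y hyr (F'.image g) hcard
          obtain ⟨n, hn, rfl⟩ := Finset.mem_image.1 hx
          have h7 : g n ∈ A := by
            rw [← hDU]
            exact mem_iUnion.2 ⟨n, (hg n hn).1⟩
          exact h7.2 (hx2 h7.1 (hg n hn).2)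
        have hNf : N.Finite := by
          by_contra hinf
          obtain ⟨F, hF, hFc⟩ := Set.Infinite.exists_subset_card_eq hinf d
          have := hfin F hF
          omega
        have h8 : ∑' n, (f '' D n).indicator Φ y = ∑ n ∈ hNf.toFinset, Φ y := by
          rw [tsum_eq_sum (s := hNf.toFinset)]
          · refine Finset.sum_congr rfl fun n hn => ?_
            have hn' : y ∈ f '' D n := hNf.mem_toFinset.1 hn
            exact indicator_of_mem hn' Φ
          · intro n hn
            have hn' : y ∉ f '' D n := fun h => hn (hNf.mem_toFinset.2 h)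
            exact indicator_of_notMem hn' Φ
        simp only
        rw [h8, Finset.sum_const, nsmul_eq_mul]
        have h9 := hfin hNf.toFinset (by simp)
        gcongr
    · intro n
      have hm : MeasurableSet (f '' D n) := measurable_image_of_fderivWithin (hDm n)
        (fun x _ => ((hf.differentiable (by norm_num) x).hasFDerivAt).hasFDerivWithinAt) (hDi n)
      exact (hΦm.indicator hm).aemeasurable
  -- compare
  have hgc : Continuous fun x => w x * φ (f x) * (fderiv ℝ f x).det :=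
    (hw.mul (hφc.comp hf.continuous)).mul hdc
  have hgi : Integrable (fun x => w x * φ (f x) * (fderiv ℝ f x).det) μ := by
    apply hgc.integrable_of_hasCompactSupport
    apply HasCompactSupport.intro hwc.isCompact
    intro x hx
    rw [image_eq_zero_of_notMem_tsupport hx, zero_mul, zero_mul]
  have h2 : ENNReal.ofReal |∫ x, w x * φ (f x) * (fderiv ℝ f x).det ∂μ| ≤
      ((d - 1 : ℕ) : ENNReal) * ∫⁻ y, Φ y ∂μ := by
    refine le_trans ?_ key
    have h3 : |∫ x, w x * φ (f x) * (fderiv ℝ f x).det ∂μ| ≤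
        ∫ x, |w x * φ (f x) * (fderiv ℝ f x).det| ∂μ := abs_integral_le_integral_abs
    refine (ENNReal.ofReal_le_ofReal h3).trans ?_
    rw [ofReal_integral_eq_lintegral_ofReal hgi.abs (Eventually.of_forall fun x => abs_nonneg _)]
    have h4 : ∀ x, ENNReal.ofReal |w x * φ (f x) * (fderiv ℝ f x).det| ≤
        A.indicator (fun x => ENNReal.ofReal |(fderiv ℝ f x).det| * Φ (f x)) x := by
      intro x
      by_cases hx : x ∈ A
      · rw [indicator_of_mem hx, ← ENNReal.ofReal_mul (abs_nonneg _)]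
        apply ENNReal.ofReal_le_ofReal
        rw [abs_mul, abs_mul, abs_of_nonneg (hφn (f x))]
        calc |w x| * φ (f x) * |(fderiv ℝ f x).det|
            ≤ 1 * φ (f x) * |(fderiv ℝ f x).det| := by
              apply mul_le_mul_of_nonneg_right _ (abs_nonneg _)
              exact mul_le_mul_of_nonneg_right (hw1 x) (hφn _)
          _ = |(fderiv ℝ f x).det| * φ (f x) := by ring
      · rw [indicator_of_notMem hx]
        have h5 : w x * φ (f x) * (fderiv ℝ f x).det = 0 := by
          simp only [hAdef, mem_ofPred_eq, not_and_or, not_not] at hx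
          rcases hx with hx | hx
          · rw [hx, zero_mul, zero_mul]
          · rw [hx, mul_zero]
        rw [h5, abs_zero, ENNReal.ofReal_zero]
    refine (lintegral_mono h4).trans ?_
    rw [lintegral_indicator hAo.measurableSet]
  have h3 : ∫⁻ y, Φ y ∂μ = ENNReal.ofReal (∫ y, φ y ∂μ) :=
    (ofReal_integral_eq_lintegral_ofReal hφi (Eventually.of_forall hφn)).symm
  rw [h3] at h2
  have h4 : |∫ x, w x * φ (f x) * (fderiv ℝ f x).det ∂μ| ≤ ((d - 1 : ℕ) : ℝ) * ∫ y, φ y ∂μ := by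
    have h5 : ((d - 1 : ℕ) : ENNReal) = ENNReal.ofReal ((d - 1 : ℕ) : ℝ) :=
      (ENNReal.ofReal_natCast _).symm
    rw [h5, ← ENNReal.ofReal_mul (Nat.cast_nonneg _)] at h2
    exact (ENNReal.ofReal_le_ofReal_iff (by positivity)).1 h2
  have h5 : ((d - 1 : ℕ) : ℝ) = (d : ℝ) - 1 := by
    rw [Nat.cast_sub hd, Nat.cast_one]
  rw [h5] at h4
  nlinarith

end

end Pool.Agent.CT
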