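import Pool.Agent.CT.Deg3

/-!
# Degree theorems in the form used by the continuation argument
-/

open MeasureTheory Set Filter Topology
open scoped Manifold ContDiff

namespace Pool.Agent.CT

section

theorem exists_cutoff {X : Type*} [NormedAddCommGroup X] [NormedSpace ℝ X]
    [FiniteDimensional ℝ X] {K U : Set X} (hK : IsCompact K) (hU : IsOpen U) (hKU : K ⊆ U) :
    ∃ g : X → ℝ, ContDiff ℝ 1 g ∧ HasCompactSupport g ∧ tsupport g ⊆ U ∧
      (∀ x, 0 ≤ g x ∧ g x ≤ 1) ∧ ∀ x ∈ K, ∀ᶠ y in 𝓝 x, g y = 1 := by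
  obtain ⟨L, hL, hKL, hLU⟩ := exists_compact_between hK hU hKU
  obtain ⟨f, hf1, hf0, hf⟩ := exists_contMDiffMap_one_nhds_of_subset_interior (n := 1)
    (I := 𝓘(ℝ, X)) hK.isClosed hKL
  have hsupp : tsupport (f : X → ℝ) ⊆ L := by
    apply closure_minimal _ hL.isClosed
    intro x hx
    by_contra hxL
    exact hx (hf0 x hxL)
  refine ⟨f, f.contMDiff.contDiff, ?_, hsupp.trans hLU, fun x => ⟨(hf x).1, (hf x).2⟩, ?_⟩
  · exact hL.of_isClosed_subset (isClosed_tsupport _) hsupp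
  · intro x hx
    exact hf1.filter_mono (nhds_le_nhdsSet hx)

theorem exists_weight {X : Type*} [NormedAddCommGroup X] [NormedSpace ℝ X]
    [FiniteDimensional ℝ X] {K U : Set X} (hK : IsCompact K) (hU : IsOpen U) (hKU : K ⊆ U)
    {s : X → ℝ} (hs : ∀ p ∈ K, s p = 1 ∨ s p = -1) (hsc : ContinuousOn s K) :
    ∃ w : X → ℝ, ContDiff ℝ 1 w ∧ HasCompactSupport w ∧ tsupport w ⊆ U ∧
      (∀ x, |w x| ≤ 1) ∧ ∀ x ∈ K, ∀ᶠ y in 𝓝 x, w y = s x := by
  set K1 : Set X := K ∩ s ⁻¹' {1} with hK1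
  set K2 : Set X := K ∩ s ⁻¹' {-1} with hK2
  have hc1 : IsCompact K1 := hK.of_isClosed_subset
    (hsc.preimage_isClosed_of_isClosed hK.isClosed isClosed_singleton) inter_subset_left
  have hc2 : IsCompact K2 := hK.of_isClosed_subset
    (hsc.preimage_isClosed_of_isClosed hK.isClosed isClosed_singleton) inter_subset_left
  have hdis : Disjoint K1 K2 := by
    rw [disjoint_left]
    rintro x ⟨_, h1⟩ ⟨_, h2⟩
    simp only [mem_preimage, mem_singleton_iff] at h1 h2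
    rw [h1] at h2
    norm_num at h2
  obtain ⟨U1, U2, hU1, hU2, hKU1, hKU2, hUd⟩ := SeparatedNhds.of_isCompact_isCompact hc1 hc2 hdis
  obtain ⟨g1, hg1, hgc1, hgt1, hgb1, hgn1⟩ := exists_cutoff hc1 (hU.inter hU1)
    (subset_inter (inter_subset_left.trans hKU) hKU1)
  obtain ⟨g2, hg2, hgc2, hgt2, hgb2, hgn2⟩ := exists_cutoff hc2 (hU.inter hU2)
    (subset_inter (inter_subset_left.trans hKU) hKU2)
  have hz : ∀ x, g1 x = 0 ∨ g2 x = 0 := by
    intro x
    by_contra hcon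
    push Not at hcon
    have h1 := (hgt1 (subset_tsupport _ hcon.1)).2
    have h2 := (hgt2 (subset_tsupport _ hcon.2)).2
    exact (disjoint_left.1 hUd) h1 h2
  refine ⟨fun x => g1 x - g2 x, hg1.sub hg2, hgc1.sub hgc2, ?_, ?_, ?_⟩
  · have h1 : tsupport (fun x => g1 x - g2 x) ⊆ tsupport g1 ∪ tsupport g2 := by
      apply closure_minimal _ ((isClosed_tsupport _).union (isClosed_tsupport _))
      intro x hx
      by_contra hcon
      simp only [mem_union, not_or] at hcon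
      apply hx
      simp only
      rw [image_eq_zero_of_notMem_tsupport hcon.1, image_eq_zero_of_notMem_tsupport hcon.2,
        sub_zero]
    exact h1.trans (union_subset (hgt1.trans inter_subset_left) (hgt2.trans inter_subset_left))
  · intro x
    have h1 := hgb1 x
    have h2 := hgb2 x
    rw [abs_le]
    constructor <;> linarith
  · intro x hx
    rcases hs x hx with h | h
    · have h1 := hgn1 x ⟨hx, h⟩
      filter_upwards [h1] with y hy
      have h2 : g2 y = 0 := by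
        rcases hz y with h3 | h3
        · rw [hy] at h3
          norm_num at h3
        · exact h3
      rw [hy, h2, h, sub_zero]
    · have h1 := hgn2 x ⟨hx, h⟩
      filter_upwards [h1] with y hy
      have h2 : g1 y = 0 := by
        rcases hz y with h3 | h3
        · exact h3
        · rw [hy] at h3
          norm_num at h3
      rw [hy, h2, h, zero_sub]

variable {E : Type*} [NormedAddCommGroup E] [NormedSpace ℝ E] [FiniteDimensional ℝ E]

theorem exists_sep {F : ℝ × E → E} (hF : Continuous F) {K U : Set (ℝ × E)}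
    (hz : ∀ p ∈ U, p.1 ∈ Icc (0 : ℝ) 1 → F p = 0 → p ∈ K) {w : ℝ × E → ℝ}
    (hwc : HasCompactSupport w) (hwU : tsupport w ⊆ U)
    (hwl : ∀ p ∈ K, ∃ c : ℝ, ∀ᶠ q in 𝓝 p, w q = c) :
    ∃ ρ > 0, ∀ p : ℝ × E, p.1 ∈ Icc (0 : ℝ) 1 → fderiv ℝ w p ≠ 0 → ρ ≤ ‖F p‖ := by
  set V : Set (ℝ × E) := interior {p | fderiv ℝ w p = 0} with hV
  have hKV : K ⊆ V := by
    intro p hp
    obtain ⟨c, hc⟩ := hwl p hp
    rw [hV, mem_interior_iff_mem_nhds]
    have h1 : ∀ᶠ q in 𝓝 p, ∀ᶠ q' in 𝓝 q, w q' = c := eventually_eventually_nhds.2 hc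
    filter_upwards [h1] with q hq
    have h2 : w =ᶠ[𝓝 q] fun _ => c := hq
    change fderiv ℝ w q = 0
    rw [h2.fderiv_eq]
    simp
  set C : Set (ℝ × E) := (tsupport w ∩ (Prod.fst ⁻¹' Icc (0 : ℝ) 1)) \ V with hC
  have hCc : IsCompact C := (hwc.isCompact.inter_right
    (isClosed_Icc.preimage continuous_fst)).diff isOpen_interior
  have hmem : ∀ p : ℝ × E, p.1 ∈ Icc (0 : ℝ) 1 → fderiv ℝ w p ≠ 0 → p ∈ C := by
    intro p hp hne
    refine ⟨⟨?_, hp⟩, ?_⟩
    · by_contra hnt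
      have h1 : w =ᶠ[𝓝 p] fun _ => 0 := notMem_tsupport_iff_eventuallyEq.1 hnt
      apply hne
      rw [h1.fderiv_eq]
      simp
    · intro hpV
      have h1 : p ∈ {p | fderiv ℝ w p = 0} := interior_subset hpV
      exact hne h1
  rcases C.eq_empty_or_nonempty with h0 | h0
  · refine ⟨1, one_pos, fun p hp hne => ?_⟩
    have := hmem p hp hne
    rw [h0] at this
    exact absurd this (notMem_empty p)
  · obtain ⟨p0, hp0, hmin⟩ := hCc.exists_isMinOn h0 hF.norm.continuousOn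
    refine ⟨‖F p0‖, ?_, fun p hp hne => hmin (hmem p hp hne)⟩
    rw [gt_iff_lt, norm_pos_iff]
    intro h1
    exact hp0.2 (hKV (hz p0 (hwU hp0.1.1) hp0.1.2 h1))

omit [FiniteDimensional ℝ E] in
theorem slice_contDiff {F : ℝ × E → E} (hF : ContDiff ℝ 1 F) (t : ℝ) :
    ContDiff ℝ 1 fun y => F (t, y) := hF.comp (contDiff_prodMk_right t)

omit [FiniteDimensional ℝ E] in
theorem slice_weight {w : ℝ × E → ℝ} (hw : ContDiff ℝ 1 w) (hwc : HasCompactSupport w) (t : ℝ) :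
    Continuous (fun y => w (t, y)) ∧ HasCompactSupport (fun y => w (t, y)) ∧
      ∀ y ∈ tsupport (fun y => w (t, y)), (t, y) ∈ tsupport w := by
  have hc : Continuous fun y : E => (t, y) := by fun_prop
  have h1 : ∀ y ∈ tsupport (fun y => w (t, y)), (t, y) ∈ tsupport w := by
    have h2 : tsupport (fun y => w (t, y)) ⊆ (fun y : E => (t, y)) ⁻¹' tsupport w := by
      apply closure_minimal _ ((isClosed_tsupport _).preimage hc)
      intro y hy
      exact subset_tsupport w hy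
    exact h2
  refine ⟨hw.continuous.comp hc, ?_, h1⟩
  have h3 : IsCompact (Prod.snd '' (tsupport w)) := hwc.isCompact.image continuous_snd
  exact h3.of_isClosed_subset (isClosed_tsupport _) fun y hy => ⟨(t, y), h1 y hy, rfl⟩

/-- **real twisted degree** -/
theorem real_degree {F : ℝ × E → E} (hF : ContDiff ℝ 1 F) {K U : Set (ℝ × E)}
    (hK : IsCompact K) (hU : IsOpen U) (hKU : K ⊆ U)
    (hz : ∀ p ∈ U, p.1 ∈ Icc (0 : ℝ) 1 → F p = 0 → p ∈ K)
    (hKF : ∀ p ∈ K, F p = 0) {s : ℝ × E → ℝ}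
    (hs : ∀ p ∈ K, s p = 1 ∨ s p = -1) (hsc : ContinuousOn s K)
    (Z : Finset E) (hZ : ∀ x, x ∈ Z ↔ (0, x) ∈ K)
    (hZd : ∀ x ∈ Z, (fderiv ℝ (fun y => F (0, y)) x).det ≠ 0) :
    (∀ σ : ℝ, (σ = 1 ∨ σ = -1) →
      (∀ x ∈ Z, s (0, x) * ((SignType.sign (fderiv ℝ (fun y => F (0, y)) x).det : SignType) : ℝ)
        = σ) →
      ∀ r > 0, ∃ u : E, ‖u‖ < r ∧ ∃ T : Finset E, T.card = Z.card ∧
        ∀ x ∈ T, (1, x) ∈ U ∧ F (1, x) = u ∧ (fderiv ℝ (fun y => F (1, y)) x).det ≠ 0) ∧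
    (∀ Z1 : Finset E, (∀ x, x ∈ Z1 ↔ (1, x) ∈ K) →
      (∀ x ∈ Z1, (fderiv ℝ (fun y => F (1, y)) x).det ≠ 0) →
      ∑ x ∈ Z1, s (1, x) *
        ((SignType.sign (fderiv ℝ (fun y => F (1, y)) x).det : SignType) : ℝ) =
      ∑ x ∈ Z, s (0, x) *
        ((SignType.sign (fderiv ℝ (fun y => F (0, y)) x).det : SignType) : ℝ)) := by
  let _ : MeasurableSpace E := borel E
  have _ : BorelSpace E := ⟨rfl⟩
  set μ : Measure E := Measure.addHaar with hμ
  obtain ⟨w, hw, hwc, hwU, hw1, hwl⟩ := exists_weight hK hU hKU hs hsc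
  obtain ⟨ρ, hρ, hsep⟩ := exists_sep hF.continuous hz hwc hwU (fun p hp => ⟨s p, hwl p hp⟩)
  have hwK : ∀ p ∈ K, w p = s p := fun p hp => (hwl p hp).self_of_nhds
  have hcy : ∀ t : ℝ, Continuous fun y : E => (t, y) := fun t => by fun_prop
  have hloc : ∀ t : ℝ, t ∈ Icc (0 : ℝ) 1 → ∀ Zt : Finset E, (∀ x, x ∈ Zt ↔ (t, x) ∈ K) →
      (∀ x ∈ Zt, (fderiv ℝ (fun y => F (t, y)) x).det ≠ 0) →
      ∃ r > 0, ∀ φ : E → ℝ, Continuous φ → (∀ y, r ≤ ‖y‖ → φ y = 0) →
      ∫ x, w (t, x) * φ (F (t, x)) * (fderiv ℝ (fun y => F (t, y)) x).det ∂μ =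
        (∑ x ∈ Zt, s (t, x) * ((SignType.sign (fderiv ℝ (fun y => F (t, y)) x).det :
          SignType) : ℝ)) * ∫ y, φ y ∂μ := by
    intro t ht Zt hZt hZtd
    obtain ⟨h1, h2, h3⟩ := slice_weight hw hwc t
    obtain ⟨r, hr, h4⟩ := deg_local μ (fun y => F (t, y)) (slice_contDiff hF t)
      (fun y => w (t, y)) h1 h2 Zt
      (fun x hx hx0 => (hZt x).2 (hz (t, x) (hwU (h3 x hx)) ht hx0))
      (fun x hx => hKF (t, x) ((hZt x).1 hx)) hZtd
      (fun x hx => by
        have h5 := hwl (t, x) ((hZt x).1 hx)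
        have h6 := ((hcy t).tendsto x).eventually h5
        filter_upwards [h6] with y hy
        rw [hy, hwK (t, x) ((hZt x).1 hx)])
    refine ⟨r, hr, fun φ hφ hφ0 => ?_⟩
    rw [h4 φ hφ hφ0]
    congr 1
    refine Finset.sum_congr rfl fun x hx => ?_
    rw [hwK (t, x) ((hZt x).1 hx)]
  have h0m : (0 : ℝ) ∈ Icc (0 : ℝ) 1 := ⟨le_rfl, zero_le_one⟩
  have h1m : (1 : ℝ) ∈ Icc (0 : ℝ) 1 := ⟨zero_le_one, le_rfl⟩
  obtain ⟨r0, hr0, hI0⟩ := hloc 0 h0m Z hZ hZd
  have hhom : ∀ φ : E → ℝ, ContDiff ℝ 1 φ → (∀ y, ρ ≤ ‖y‖ → φ y = 0) →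
      ∫ x, w (0, x) * φ (F (0, x)) * (fderiv ℝ (fun y => F (0, y)) x).det ∂μ =
        ∫ x, w (1, x) * φ (F (1, x)) * (fderiv ℝ (fun y => F (1, y)) x).det ∂μ := by
    intro φ hφ hφ0
    exact deg_homotopy μ F hF w hw hwc φ hφ fun p hp hne => hφ0 _ (hsep p hp hne)
  constructor
  · intro σ hσ hσZ r hr
    obtain ⟨h1, h2, h3⟩ := slice_weight hw hwc 1
    have hmany := exists_many μ (fun y => F (1, y)) (slice_contDiff hF 1) (fun y => w (1, y))
      h1 h2 (fun x => hw1 _) Z.card (min ρ r0) (lt_min hρ hr0) ?_ r hr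
    · obtain ⟨u, hu, T, hT, hTx⟩ := hmany
      refine ⟨u, hu, T, hT, fun x hx => ?_⟩
      obtain ⟨h4, h5, h6⟩ := hTx x hx
      exact ⟨hwU (subset_tsupport w h4), h5, h6⟩
    · intro φ hφ hφn hφ0
      rw [← hhom φ hφ (fun y hy => hφ0 y ((min_le_left _ _).trans hy)),
        hI0 φ hφ.continuous (fun y hy => hφ0 y ((min_le_right _ _).trans hy)),
        Finset.sum_congr rfl hσZ, Finset.sum_const, nsmul_eq_mul, abs_mul, abs_mul]
      have h4 : |σ| = 1 := by
        rcases hσ with h | h <;> rw [h] <;> norm_num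
      have h5 : 0 ≤ ∫ y, φ y ∂μ := integral_nonneg hφn
      rw [h4, mul_one, abs_of_nonneg h5, Nat.abs_cast]
  · intro Z1 hZ1 hZ1d
    obtain ⟨r1, hr1, hI1⟩ := hloc 1 h1m Z1 hZ1 hZ1d
    set r := min ρ (min r0 r1) with hr
    have hrp : 0 < r := lt_min hρ (lt_min hr0 hr1)
    let φ : ContDiffBump (0 : E) :=
      { rIn := r / 2, rOut := r, rIn_pos := by positivity, rIn_lt_rOut := by linarith }
    have hφ0 : ∀ y, r ≤ ‖y‖ → φ y = 0 := fun y hy => φ.zero_of_le_dist (by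
      rw [dist_zero_right]
      exact hy)
    have hφpos : 0 < ∫ y, φ y ∂μ := φ.integral_pos
    have e0 := hI0 φ φ.continuous (fun y hy => hφ0 y
      (((min_le_right _ _).trans (min_le_left _ _)).trans hy))
    have e1 := hI1 φ φ.continuous (fun y hy => hφ0 y
      (((min_le_right _ _).trans (min_le_right _ _)).trans hy))
    have e2 := hhom φ φ.contDiff (fun y hy => hφ0 y ((min_le_left _ _).trans hy))
    rw [e0, e1] at e2
    exact (mul_right_cancel₀ hφpos.ne' e2).symm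

/-- **degree of maps with nonnegative Jacobian**: upper bound of the number of simple zeros -/
theorem nonneg_degree {F : ℝ × E → E} (hF : ContDiff ℝ 1 F) {K U : Set (ℝ × E)}
    (hK : IsCompact K) (hU : IsOpen U) (hKU : K ⊆ U)
    (hz : ∀ p ∈ U, p.1 ∈ Icc (0 : ℝ) 1 → F p = 0 → p ∈ K)
    (hKF : ∀ p ∈ K, F p = 0)
    (hd : ∀ t x, 0 ≤ (fderiv ℝ (fun y => F (t, y)) x).det)
    (Z : Finset E) (hZ : ∀ x, x ∈ Z ↔ (0, x) ∈ K)
    (hZd : ∀ x ∈ Z, (fderiv ℝ (fun y => F (0, y)) x).det ≠ 0) :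
    ∃ V L : Set E, IsOpen V ∧ (∀ x, (1, x) ∈ K → x ∈ V) ∧ IsCompact L ∧ ∃ η > 0,
      ∀ G : E → E, ContDiff ℝ 1 G → (∀ x, 0 ≤ (fderiv ℝ G x).det) →
        (∀ x ∈ L, ‖G x - F (1, x)‖ < η) → ∀ T : Finset E,
        (∀ x ∈ T, x ∈ V ∧ G x = 0 ∧ (fderiv ℝ G x).det ≠ 0) → T.card ≤ Z.card := by
  let _ : MeasurableSpace E := borel E
  have _ : BorelSpace E := ⟨rfl⟩
  set μ : Measure E := Measure.addHaar with hμ
  obtain ⟨w, hw, hwc, hwU, hw1, hwl⟩ := exists_cutoff hK hU hKU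
  obtain ⟨ρ, hρ, hsep⟩ := exists_sep hF.continuous hz hwc hwU (fun p hp => ⟨1, hwl p hp⟩)
  have hwK : ∀ p ∈ K, w p = 1 := fun p hp => (hwl p hp).self_of_nhds
  have hcy : ∀ t : ℝ, Continuous fun y : E => (t, y) := fun t => by fun_prop
  obtain ⟨h1, h2, h3⟩ := slice_weight hw hwc 0
  obtain ⟨r0, hr0, hI0⟩ := deg_local μ (fun y => F (0, y)) (slice_contDiff hF 0)
      (fun y => w (0, y)) h1 h2 Z
      (fun x hx hx0 => (hZ x).2 (hz (0, x) (hwU (h3 x hx)) ⟨le_rfl, zero_le_one⟩ hx0))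
      (fun x hx => hKF (0, x) ((hZ x).1 hx)) hZd
      (fun x hx => by
        have h5 := hwl (0, x) ((hZ x).1 hx)
        have h6 := ((hcy 0).tendsto x).eventually h5
        filter_upwards [h6] with y hy
        rw [hy, hwK (0, x) ((hZ x).1 hx)])
  have hc0 : ∑ x ∈ Z, w (0, x) * ((SignType.sign (fderiv ℝ (fun y => F (0, y)) x).det :
      SignType) : ℝ) = Z.card := by
    rw [Finset.card_eq_sum_ones, Nat.cast_sum]
    refine Finset.sum_congr rfl fun x hx => ?_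
    have h4 : 0 < (fderiv ℝ (fun y => F (0, y)) x).det :=
      lt_of_le_of_ne (hd 0 x) (hZd x hx).symm
    rw [hwK (0, x) ((hZ x).1 hx), sign_pos h4]
    simp
  rw [hc0] at hI0
  -- the weight at time one
  obtain ⟨g1, g2, g3⟩ := slice_weight hw hwc 1
  set w1 : E → ℝ := fun y => w (1, y) with hw1def
  have hw1C : ContDiff ℝ 1 w1 := hw.comp (contDiff_prodMk_right 1)
  have hKV : ∀ x, (1, x) ∈ K → x ∈ interior {x | w1 x = 1} := by
    intro x hx
    rw [mem_interior_iff_mem_nhds]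
    exact ((hcy 1).tendsto x).eventually (hwl (1, x) hx)
  refine ⟨interior {x | w1 x = 1}, tsupport w1, isOpen_interior, hKV, g2.isCompact, ρ / 2,
    by positivity, ?_⟩
  intro G hG hGd hGη T hT
  -- homotopy F 0 -> F 1
  have hhom : ∀ φ : E → ℝ, ContDiff ℝ 1 φ → (∀ y, ρ ≤ ‖y‖ → φ y = 0) →
      ∫ x, w (0, x) * φ (F (0, x)) * (fderiv ℝ (fun y => F (0, y)) x).det ∂μ =
        ∫ x, w (1, x) * φ (F (1, x)) * (fderiv ℝ (fun y => F (1, y)) x).det ∂μ := by
    intro φ hφ hφ0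
    exact deg_homotopy μ F hF w hw hwc φ hφ fun p hp hne => hφ0 _ (hsep p hp hne)
  -- homotopy F 1 -> G
  have hhom2 : ∀ φ : E → ℝ, ContDiff ℝ 1 φ → (∀ y, ρ / 2 ≤ ‖y‖ → φ y = 0) →
      ∫ x, w1 x * φ (F (1, x)) * (fderiv ℝ (fun y => F (1, y)) x).det ∂μ =
        ∫ x, w1 x * φ (G x) * (fderiv ℝ G x).det ∂μ := by
    intro φ hφ hφ0
    set F' : ℝ × E → E := fun p => F (1, p.2) + p.1 • (G p.2 - F (1, p.2)) with hF'
    have hF1 : ContDiff ℝ 1 (fun p : ℝ × E => F (1, p.2)) :=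
      (slice_contDiff hF 1).comp contDiff_snd
    have hF'C : ContDiff ℝ 1 F' :=
      hF1.add (contDiff_fst.smul ((hG.comp contDiff_snd).sub hF1))
    let χ : ContDiffBump (0 : ℝ) :=
      { rIn := 2, rOut := 3, rIn_pos := by norm_num, rIn_lt_rOut := by norm_num }
    set w' : ℝ × E → ℝ := fun p => χ p.1 * w1 p.2 with hw'
    have hw'C : ContDiff ℝ 1 w' := (χ.contDiff.comp contDiff_fst).mul (hw1C.comp contDiff_snd)
    have hw'c : HasCompactSupport w' := by
      apply HasCompactSupport.intro ((isCompact_closedBall (0 : ℝ) 3).prod g2.isCompact)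
      intro p hp
      simp only [hw']
      by_cases h4 : p.1 ∈ Metric.closedBall (0 : ℝ) 3
      · have h5 : p.2 ∉ tsupport w1 := fun h => hp ⟨h4, h⟩
        rw [image_eq_zero_of_notMem_tsupport h5, mul_zero]
      · rw [Metric.mem_closedBall, not_le] at h4
        rw [χ.zero_of_le_dist h4.le, zero_mul]
    have hcχ : ∀ t ∈ Icc (0 : ℝ) 1, ∀ᶠ t' in 𝓝 t, χ t' = 1 := by
      intro t ht
      have h4 : t ∈ Metric.ball (0 : ℝ) 2 := by
        rw [Metric.mem_ball, Real.dist_eq, sub_zero, abs_of_nonneg ht.1]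
        linarith [ht.2]
      filter_upwards [Metric.isOpen_ball.mem_nhds h4] with t' ht'
      exact χ.one_of_mem_closedBall (Metric.ball_subset_closedBall ht')
    have hsep' : ∀ p : ℝ × E, p.1 ∈ Icc (0 : ℝ) 1 → fderiv ℝ w' p ≠ 0 → φ (F' p) = 0 := by
      intro p hp hne
      have h4 : w' =ᶠ[𝓝 p] fun q => w1 q.2 := by
        have := (continuous_fst.tendsto p).eventually (hcχ p.1 hp)
        filter_upwards [this] with q hq
        simp only [hw']
        rw [hq, one_mul]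
      rw [h4.fderiv_eq] at hne
      have h5 : fderiv ℝ w (1, p.2) ≠ 0 := by
        intro h0
        apply hne
        have h6 : HasFDerivAt (fun q : ℝ × E => ((1 : ℝ), q.2))
            ((0 : ℝ × E →L[ℝ] ℝ).prod (ContinuousLinearMap.snd ℝ ℝ E)) p :=
          (hasFDerivAt_const (𝕜 := ℝ) (1 : ℝ) p).prodMk hasFDerivAt_snd
        have h7 : HasFDerivAt (fun q : ℝ × E => w1 q.2)
            ((fderiv ℝ w (1, p.2)).comp
              ((0 : ℝ × E →L[ℝ] ℝ).prod (ContinuousLinearMap.snd ℝ ℝ E))) p :=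
          ((hw.differentiable (by norm_num) (1, p.2)).hasFDerivAt).comp p h6
        rw [h7.fderiv, h0, ContinuousLinearMap.zero_comp]
      have h6 := hsep (1, p.2) ⟨zero_le_one, le_rfl⟩ h5
      have h7 : p.2 ∈ tsupport w1 := by
        by_contra hnt
        have h8 : w1 =ᶠ[𝓝 p.2] fun _ => 0 := notMem_tsupport_iff_eventuallyEq.1 hnt
        apply hne
        have h9 : (fun q : ℝ × E => w1 q.2) =ᶠ[𝓝 p] fun _ => 0 :=
          (continuous_snd.tendsto p).eventually h8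
        rw [h9.fderiv_eq]
        simp
      apply hφ0
      simp only [hF']
      have h8 := hGη p.2 h7
      have h9 : ‖p.1 • (G p.2 - F (1, p.2))‖ ≤ ρ / 2 := by
        rw [norm_smul, Real.norm_eq_abs, abs_of_nonneg hp.1]
        calc p.1 * ‖G p.2 - F (1, p.2)‖ ≤ 1 * (ρ / 2) :=
              mul_le_mul hp.2 h8.le (norm_nonneg _) zero_le_one
          _ = ρ / 2 := one_mul _
      have h10 : ‖F (1, p.2)‖ ≤ ‖F (1, p.2) + p.1 • (G p.2 - F (1, p.2))‖ +
          ‖p.1 • (G p.2 - F (1, p.2))‖ := by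
        have := norm_sub_le (F (1, p.2) + p.1 • (G p.2 - F (1, p.2)))
          (p.1 • (G p.2 - F (1, p.2)))
        rwa [add_sub_cancel_right] at this
      linarith
    have h4 := deg_homotopy μ F' hF'C w' hw'C hw'c φ hφ hsep'
    have hχ0 : χ 0 = 1 := (hcχ 0 ⟨le_rfl, zero_le_one⟩).self_of_nhds
    have hχ1 : χ 1 = 1 := (hcχ 1 ⟨zero_le_one, le_rfl⟩).self_of_nhds
    have e0 : (fun y : E => F' (0, y)) = fun y => F (1, y) := by
      funext y
      simp [hF']
    have e1 : (fun y : E => F' (1, y)) = G := by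
      funext y
      simp [hF']
    have e0' : ∀ y : E, F' (0, y) = F (1, y) := fun y => congrFun e0 y
    have e1' : ∀ y : E, F' (1, y) = G y := fun y => congrFun e1 y
    simp only [e0', e1', hw', hχ0, hχ1, one_mul] at h4
    exact h4
  obtain ⟨r2, hr2, hcard⟩ := card_mul_le μ G hG w1 g1 g2 (fun x => (hw1 _).1) hGd T
    (fun x hx => (hT x hx).2.1) (fun x hx => (hT x hx).2.2)
    (fun x hx => mem_interior_iff_mem_nhds.1 (hT x hx).1)
  set r := min (ρ / 2) (min r0 r2) with hr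
  have hrp : 0 < r := lt_min (by positivity) (lt_min hr0 hr2)
  let φ : ContDiffBump (0 : E) :=
    { rIn := r / 2, rOut := r, rIn_pos := by positivity, rIn_lt_rOut := by linarith }
  have hφ0 : ∀ y, r ≤ ‖y‖ → φ y = 0 := fun y hy => φ.zero_of_le_dist (by
    rw [dist_zero_right]
    exact hy)
  have hφpos : 0 < ∫ y, φ y ∂μ := φ.integral_pos
  have e0 := hI0 φ φ.continuous (fun y hy => hφ0 y
    (((min_le_right _ _).trans (min_le_left _ _)).trans hy))
  have e1 := hhom φ φ.contDiff (fun y hy => hφ0 y ((min_le_left _ _).trans (by linarith)))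
  have e2 := hhom2 φ φ.contDiff (fun y hy => hφ0 y ((min_le_left _ _).trans hy))
  have e3 := hcard φ φ.continuous (fun y => φ.nonneg) (fun y hy => hφ0 y
    (((min_le_right _ _).trans (min_le_right _ _)).trans hy))
  rw [← e2, ← e1, e0] at e3
  have e4 := le_of_mul_le_mul_right e3 hφpos
  exact_mod_cast e4

end

end Pool.Agent.CT
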