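import Pool.Agent.CT.Deg4

/-!
# The continuation theorem
-/

open MeasureTheory Set Filter Topology
open scoped ContDiff

namespace Pool.Agent.CT

section

/-- the embedding of the real points -/
noncomputable def emb (N : ℕ) : (Fin N → ℝ) →L[ℝ] (Fin N → ℂ) :=
  ContinuousLinearMap.pi fun i => Complex.ofRealCLM.comp (ContinuousLinearMap.proj i)

theorem emb_apply {N : ℕ} (x : Fin N → ℝ) (i : Fin N) : emb N x i = (x i : ℂ) := rfl

theorem emb_injective (N : ℕ) : Function.Injective (emb N) := by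
  intro x y h
  funext i
  have := congrFun h i
  rw [emb_apply, emb_apply] at this
  exact_mod_cast this

theorem norm_emb {N : ℕ} (x : Fin N → ℝ) : ‖emb N x‖ = ‖x‖ := by
  simp only [Pi.norm_def, emb_apply]
  congr 1
  refine Finset.sup_congr rfl fun i _ => ?_
  ext
  simp

theorem det_real_of_complex {N : ℕ} (A : (Fin N → ℂ) →L[ℂ] (Fin N → ℂ)) :
    (A.restrictScalars ℝ).det = Complex.normSq A.det := by
  have h1 : (A.restrictScalars ℝ).det =
      LinearMap.det ((A : (Fin N → ℂ) →ₗ[ℂ] (Fin N → ℂ)).restrictScalars ℝ) := rfl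
  rw [h1, LinearMap.det_restrictScalars, Algebra.norm_complex_eq]
  rfl

theorem det_complexify {N : ℕ} (A : (Fin N → ℂ) →L[ℂ] (Fin N → ℂ))
    (B : (Fin N → ℝ) →L[ℝ] (Fin N → ℝ)) (h : ∀ v, A (emb N v) = emb N (B v)) :
    A.det = (B.det : ℂ) := by
  have h1 : A.det = LinearMap.det (A : (Fin N → ℂ) →ₗ[ℂ] (Fin N → ℂ)) := rfl
  have h2 : B.det = LinearMap.det (B : (Fin N → ℝ) →ₗ[ℝ] (Fin N → ℝ)) := rfl
  rw [h1, h2, ← LinearMap.det_toMatrix', ← LinearMap.det_toMatrix']
  have h3 := RingHom.map_det Complex.ofRealHom (LinearMap.toMatrix' (B : (Fin N → ℝ) →ₗ[ℝ] (Fin N → ℝ)))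
  simp only [Complex.ofRealHom_eq_coe] at h3
  rw [h3]
  congr 1
  ext i j
  rw [RingHom.mapMatrix_apply, Matrix.map_apply, LinearMap.toMatrix'_apply,
    LinearMap.toMatrix'_apply]
  have h4 : (Pi.single j (1 : ℂ) : Fin N → ℂ) = emb N (Pi.single j (1 : ℝ)) := by
    funext k
    rw [emb_apply]
    by_cases hk : k = j
    · subst hk
      simp
    · simp [Pi.single_eq_of_ne hk]
  have h5 := congrFun (h (Pi.single j 1)) i
  rw [emb_apply] at h5
  simp only [ContinuousLinearMap.coe_coe, Complex.ofRealHom_eq_coe]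
  rw [← h5, ← h4]

/-- derivative of the complex map at a real point -/
theorem fderiv_emb {N : ℕ} {G : (Fin N → ℂ) → (Fin N → ℂ)} {g : (Fin N → ℝ) → (Fin N → ℝ)}
    (hG : Differentiable ℂ G) (hg : Differentiable ℝ g)
    (h : ∀ x, G (emb N x) = emb N (g x)) (x : Fin N → ℝ) :
    (fderiv ℂ G (emb N x)).det = ((fderiv ℝ g x).det : ℂ) := by
  apply det_complexify
  intro v
  have h1 : HasFDerivAt (fun y => G (emb N y))
      (((fderiv ℂ G (emb N x)).restrictScalars ℝ).comp (emb N)) x :=
    ((hG (emb N x)).hasFDerivAt.restrictScalars ℝ).comp x (emb N).hasFDerivAt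
  have h2 : HasFDerivAt (fun y => G (emb N y)) ((emb N).comp (fderiv ℝ g x)) x := by
    have : (fun y => G (emb N y)) = fun y => emb N (g y) := funext h
    rw [this]
    exact (emb N).hasFDerivAt.comp x (hg x).hasFDerivAt
  have h3 := h1.unique h2
  exact DFunLike.congr_fun h3 v

theorem det_fderiv_real {N : ℕ} {G : (Fin N → ℂ) → (Fin N → ℂ)} (hG : Differentiable ℂ G)
    (x : Fin N → ℂ) : (fderiv ℝ G x).det = Complex.normSq (fderiv ℂ G x).det := by
  rw [← det_real_of_complex]
  congr 1
  exact ((hG x).hasFDerivAt.restrictScalars ℝ).fderiv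

theorem exists_add_smul_det_ne {N : ℕ} (A : (Fin N → ℂ) →L[ℂ] (Fin N → ℂ)) {δ : ℝ} (hδ : 0 < δ) :
    ∃ ε : ℝ, 0 < ε ∧ ε < δ ∧
      (A + (ε : ℂ) • ContinuousLinearMap.id ℂ (Fin N → ℂ)).det ≠ 0 := by
  have hfin := Module.End.finite_hasEigenvalue (A : (Fin N → ℂ) →ₗ[ℂ] (Fin N → ℂ))
  have hfin2 : Set.Finite ((fun ε : ℝ => -(ε : ℂ)) ⁻¹'
      {μ | Module.End.HasEigenvalue (A : (Fin N → ℂ) →ₗ[ℂ] (Fin N → ℂ)) μ}) := by
    apply hfin.preimage
    intro a _ b _ hab
    simpa using hab
  obtain ⟨ε, hε, hε2⟩ := (Ioo_infinite hδ).exists_notMem_finite hfin2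
  refine ⟨ε, hε.1, hε.2, fun h0 => hε2 ?_⟩
  have h1 : LinearMap.det ((A + (ε : ℂ) • ContinuousLinearMap.id ℂ (Fin N → ℂ) :
      (Fin N → ℂ) →L[ℂ] (Fin N → ℂ)) : (Fin N → ℂ) →ₗ[ℂ] (Fin N → ℂ)) = 0 := h0
  obtain ⟨v, hv, hv0⟩ := Submodule.exists_mem_ne_zero_of_ne_bot
    (LinearMap.bot_lt_ker_of_det_eq_zero h1).ne'
  rw [LinearMap.mem_ker] at hv
  have h2 : A v + (ε : ℂ) • v = 0 := by simpa using hv
  change Module.End.HasEigenvalue _ _
  apply Module.End.hasEigenvalue_of_hasEigenvector (x := v)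
  refine ⟨?_, hv0⟩
  rw [Module.End.mem_eigenspace_iff]
  change A v = -(ε : ℂ) • v
  rw [neg_smul]
  exact eq_neg_of_add_eq_zero_left h2

theorem det_smul_real {N : ℕ} (c : ℝ) (A : (Fin N → ℝ) →L[ℝ] (Fin N → ℝ)) :
    (c • A).det = c ^ N * A.det := by
  have h1 : (c • A).det = LinearMap.det (c • (A : (Fin N → ℝ) →ₗ[ℝ] (Fin N → ℝ))) := rfl
  rw [h1, LinearMap.det_smul]
  simp

/-- derivative of `c • g` at a zero of `g` -/
theorem fderiv_smul_zero {N : ℕ} {g : (Fin N → ℝ) → (Fin N → ℝ)} {c : (Fin N → ℝ) → ℝ}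
    (hg : Differentiable ℝ g) (hc : Differentiable ℝ c) (x : Fin N → ℝ) (hx : g x = 0) :
    fderiv ℝ (fun y => c y • g y) x = c x • fderiv ℝ g x := by
  have h := (hc x).hasFDerivAt.smul (hg x).hasFDerivAt
  have h2 : HasFDerivAt (fun y => c y • g y) (c x • fderiv ℝ g x) x := by
    refine h.congr_fderiv ?_
    rw [hx]
    ext v
    simp
  exact h2.fderiv

theorem finite_simple {N : ℕ} (g : (Fin N → ℝ) → (Fin N → ℝ)) (hg : ContDiff ℝ 1 g)
    (S : Set (Fin N → ℝ)) (hS : IsCompact S) (hS0 : ∀ x ∈ S, g x = 0)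
    (hSd : ∀ x ∈ S, (fderiv ℝ g x).det ≠ 0) : S.Finite := by
  have hp : ∀ x ∈ S, ∃ A ∈ 𝓝 x, (A ∩ S).Finite := by
    intro x hx
    obtain ⟨A, hAo, hxA, -, hAi, -, -⟩ := local_piece g hg x (hSd x hx) univ univ_mem
    refine ⟨A, hAo.mem_nhds hxA, (Set.finite_singleton x).subset ?_⟩
    rintro y ⟨hyA, hyS⟩
    exact hAi hyA hxA ((hS0 y hyS).trans (hS0 x hx).symm)
  choose! A hA hAf using hp
  obtain ⟨t, ht, htS⟩ := hS.elim_nhds_subcover A hA
  have h1 : S ⊆ ⋃ x ∈ t, A x ∩ S := by
    intro y hy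
    obtain ⟨x, hx, hxy⟩ := mem_iUnion₂.1 (htS hy)
    exact mem_iUnion₂.2 ⟨x, hx, hxy, hy⟩
  exact (t.finite_toSet.biUnion fun x hx => hAf x (ht x hx)).subset h1

/-- **The continuation theorem**: a family of real systems of complex analytic equations whose
relevant zeros (a compact set `K`, isolated from the other zeros) are, at time `0`, real and
simple, all with the same twisted sign. Then at time `1` they are real; and if they are simple,
their number and their twisted signs are the same as at time `0`. -/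
theorem continuation {N : ℕ} (F : ℝ × (Fin N → ℂ) → (Fin N → ℂ))
    (f : ℝ × (Fin N → ℝ) → (Fin N → ℝ))
    (hF : ContDiff ℝ 1 F) (hFC : ∀ t, Differentiable ℂ fun y => F (t, y)) (hf : ContDiff ℝ 1 f)
    (hcomp : ∀ t x, F (t, emb N x) = emb N (f (t, x)))
    {K U : Set (ℝ × (Fin N → ℂ))} (hK : IsCompact K) (hU : IsOpen U) (hKU : K ⊆ U)
    (hK01 : ∀ p ∈ K, p.1 ∈ Icc (0 : ℝ) 1) (hKF : ∀ p ∈ K, F p = 0)
    (hz : ∀ p ∈ U, p.1 ∈ Icc (0 : ℝ) 1 → F p = 0 → p ∈ K)
    (s : ℝ × (Fin N → ℝ) → ℝ)
    (hs : ∀ t x, (t, emb N x) ∈ K → s (t, x) = 1 ∨ s (t, x) = -1)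
    (hsc : ContinuousOn s {p | (p.1, emb N p.2) ∈ K})
    (Z : Finset (Fin N → ℝ)) (hZ : ∀ y, (0, y) ∈ K ↔ ∃ x ∈ Z, y = emb N x)
    (hZd : ∀ x ∈ Z, (fderiv ℝ (fun x => f (0, x)) x).det ≠ 0)
    (σ : ℝ) (hσ : σ = 1 ∨ σ = -1)
    (hσZ : ∀ x ∈ Z, s (0, x) *
      ((SignType.sign (fderiv ℝ (fun x => f (0, x)) x).det : SignType) : ℝ) = σ) :
    (∀ y, (1, y) ∈ K → ∃ x, y = emb N x) ∧
    ((∀ x, (1, emb N x) ∈ K → (fderiv ℝ (fun x => f (1, x)) x).det ≠ 0) →
      ∃ Z1 : Finset (Fin N → ℝ), (∀ x, x ∈ Z1 ↔ (1, emb N x) ∈ K) ∧ Z1.card = Z.card ∧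
        ∀ x ∈ Z1, s (1, x) *
          ((SignType.sign (fderiv ℝ (fun x => f (1, x)) x).det : SignType) : ℝ) = σ) := by
  classical
  -- the real part of `K`
  set j : ℝ × (Fin N → ℝ) → ℝ × (Fin N → ℂ) := fun p => (p.1, emb N p.2) with hj
  have hjc : Continuous j := by
    have := (emb N).continuous
    fun_prop
  have hje : Topology.IsClosedEmbedding j := by
    apply Isometry.isClosedEmbedding
    apply Isometry.of_dist_eq
    intro p q
    simp only [hj, Prod.dist_eq]
    congr 1
    rw [dist_eq_norm, dist_eq_norm, ← map_sub, norm_emb]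
  set KR : Set (ℝ × (Fin N → ℝ)) := j ⁻¹' K with hKR
  have hKRc : IsCompact KR := hje.isCompact_preimage hK
  have hsR : ∀ p ∈ KR, s p = 1 ∨ s p = -1 := fun p hp => hs p.1 p.2 hp
  have hZR : ∀ x, x ∈ Z ↔ (0, x) ∈ KR := by
    intro x
    constructor
    · intro hx
      exact (hZ (emb N x)).2 ⟨x, hx, rfl⟩
    · intro hx
      obtain ⟨x', hx', h⟩ := (hZ (emb N x)).1 hx
      rwa [emb_injective N h]
  have hfd : ∀ t, Differentiable ℝ fun x => f (t, x) := fun t =>
    (slice_contDiff hf t).differentiable (by norm_num)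
  -- complex upper bound
  have hdF : ∀ t x, 0 ≤ (fderiv ℝ (fun y => F (t, y)) x).det := by
    intro t x
    rw [det_fderiv_real (hFC t)]
    exact Complex.normSq_nonneg _
  have hZC : ∀ y, y ∈ Z.image (emb N) ↔ (0, y) ∈ K := by
    intro y
    rw [hZ y, Finset.mem_image]
    constructor
    · rintro ⟨x, hx, rfl⟩
      exact ⟨x, hx, rfl⟩
    · rintro ⟨x, hx, rfl⟩
      exact ⟨x, hx, rfl⟩
  have hZCd : ∀ y ∈ Z.image (emb N), (fderiv ℝ (fun y => F (0, y)) y).det ≠ 0 := by
    intro y hy
    obtain ⟨x, hx, rfl⟩ := Finset.mem_image.1 hy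
    rw [det_fderiv_real (hFC 0), fderiv_emb (hFC 0) (hfd 0) (hcomp 0)]
    rw [Complex.normSq_ofReal]
    exact mul_self_ne_zero.2 (hZd x hx)
  obtain ⟨V, L, hVo, hKV, hL, η, hη, hbound⟩ := nonneg_degree hF hK hU hKU hz hKF hdF
    (Z.image (emb N)) hZC hZCd
  have hcardZ : (Z.image (emb N)).card = Z.card :=
    Finset.card_image_of_injective _ (emb_injective N)
  rw [hcardZ] at hbound
  constructor
  · intro y hy
    by_contra hnr
    push Not at hnr
    -- a nonreal coordinate
    obtain ⟨i0, hi0⟩ : ∃ i, (y i).im ≠ 0 := by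
      by_contra hcon
      push Not at hcon
      apply hnr fun i => (y i).re
      funext i
      rw [emb_apply]
      apply Complex.ext
      · simp
      · simp [hcon i]
    -- the function q
    set qC : (Fin N → ℂ) → ℂ := fun z => ∑ i, (z i - y i) * (z i - (starRingEnd ℂ) (y i)) with hqC
    set qR : (Fin N → ℝ) → ℝ := fun x => ∑ i, ((x i - (y i).re) ^ 2 + (y i).im ^ 2) with hqR
    have hq : ∀ x, qC (emb N x) = (qR x : ℂ) := by
      intro x
      simp only [hqC, hqR, Complex.ofReal_sum]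
      refine Finset.sum_congr rfl fun i _ => ?_
      rw [emb_apply]
      have h1 : (x i : ℂ) - (starRingEnd ℂ) (y i) = (starRingEnd ℂ) ((x i : ℂ) - y i) := by
        rw [map_sub, Complex.conj_ofReal]
      rw [h1, Complex.mul_conj, Complex.normSq_apply]
      congr 1
      simp
      ring
    have hqpos : ∀ x, 0 < qR x := by
      intro x
      apply Finset.sum_pos'
      · intro i _
        positivity
      · exact ⟨i0, Finset.mem_univ _, by positivity⟩
    have hqy : qC y = 0 := by
      simp only [hqC, sub_self, zero_mul, Finset.sum_const_zero]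
    have hqRC : ContDiff ℝ 1 qR := by
      apply ContDiff.sum
      intro i _
      exact (((contDiff_apply ℝ ℝ i).sub contDiff_const).pow 2).add contDiff_const
    have hqRd : Differentiable ℝ qR := hqRC.differentiable (by norm_num)
    have hqCd : Differentiable ℂ qC := by
      intro z
      simp only [hqC]
      fun_prop
    have hqCC : ContDiff ℝ 1 qC := by
      apply ContDiff.sum
      intro i _
      exact ((contDiff_apply ℝ ℂ i).sub contDiff_const).mul
        ((contDiff_apply ℝ ℂ i).sub contDiff_const)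
    -- bounds on L
    obtain ⟨M, hM⟩ := hL.exists_bound_of_continuousOn hqCC.continuous.continuousOn
    set M' := max M 0 + 1 with hM'
    have hM'0 : 0 < M' := by positivity
    -- the real family
    set f' : ℝ × (Fin N → ℝ) → (Fin N → ℝ) := fun p => (qR p.2)⁻¹ • f p with hf'
    have hqi : Differentiable ℝ fun x => (qR x)⁻¹ := fun x => (hqRd x).inv (hqpos x).ne'
    have hf'C : ContDiff ℝ 1 f' := by
      have h1 : ContDiff ℝ 1 fun p : ℝ × (Fin N → ℝ) => (qR p.2)⁻¹ :=
        ContDiff.inv (hqRC.comp contDiff_snd) fun p => (hqpos p.2).ne'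
      exact h1.smul hf
    set UR : Set (ℝ × (Fin N → ℝ)) := j ⁻¹' (U ∩ ({p | p.1 < 1} ∪ {p | p.2 ∈ V})) with hUR
    have hURo : IsOpen UR := by
      apply IsOpen.preimage hjc
      apply hU.inter
      apply IsOpen.union
      · exact isOpen_lt continuous_fst continuous_const
      · exact hVo.preimage continuous_snd
    have hKUR : KR ⊆ UR := by
      intro p hp
      refine ⟨hKU hp, ?_⟩
      rcases lt_or_eq_of_le (hK01 _ hp).2 with h | h
      · exact Or.inl h
      · refine Or.inr (hKV _ ?_)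
        have : ((1 : ℝ), (j p).2) = j p := by
          rw [← h]
        rw [this]
        exact hp
    have hf0 : ∀ p : ℝ × (Fin N → ℝ), f' p = 0 ↔ F (j p) = 0 := by
      intro p
      have h1 : F (j p) = emb N (f p) := hcomp p.1 p.2
      rw [h1]
      have h2 : (qR p.2)⁻¹ ≠ 0 := inv_ne_zero (hqpos p.2).ne'
      simp only [hf']
      rw [smul_eq_zero_iff_right h2]
      constructor
      · intro h
        rw [h, map_zero]
      · intro h
        exact emb_injective N (by rw [h, map_zero])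
    have hsgn : ∀ (t : ℝ) (x : Fin N → ℝ), f (t, x) = 0 →
        (fderiv ℝ (fun x => f' (t, x)) x).det =
          ((qR x)⁻¹) ^ N * (fderiv ℝ (fun x => f (t, x)) x).det := by
      intro t x h0
      have h1 := fderiv_smul_zero (hfd t) hqi x h0
      have h2 : (fun x => f' (t, x)) = fun x => (qR x)⁻¹ • f (t, x) := rfl
      rw [h2, h1, det_smul_real]
    have hfK : ∀ p ∈ KR, f p = 0 := by
      intro p hp
      have h1 : F (j p) = emb N (f p) := hcomp p.1 p.2
      rw [hKF _ hp] at h1
      exact emb_injective N (by rw [← h1, map_zero])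
    have hreal := (real_degree hf'C hKRc hURo hKUR
      (fun p hp ht h0 => hz (j p) hp.1 ht ((hf0 p).1 h0))
      (fun p hp => (hf0 p).2 (hKF _ hp)) hsR hsc Z hZR
      (fun x hx => by
        rw [hsgn 0 x (hfK _ ((hZR x).1 hx))]
        exact mul_ne_zero (pow_ne_zero _ (inv_ne_zero (hqpos x).ne')) (hZd x hx))).1 σ hσ
      (fun x hx => by
        rw [hsgn 0 x (hfK _ ((hZR x).1 hx))]
        have hp : 0 < ((qR x)⁻¹) ^ N := pow_pos (inv_pos.2 (hqpos x)) N
        rw [sign_mul, sign_pos hp, one_mul]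
        exact hσZ x hx) (η / (2 * M')) (by positivity)
    obtain ⟨u, hu, T, hTcard, hT⟩ := hreal
    -- the perturbed complex map
    set G0 : (Fin N → ℂ) → (Fin N → ℂ) := fun z => F (1, z) - qC z • emb N u with hG0
    set g0 : (Fin N → ℝ) → (Fin N → ℝ) := fun x => f (1, x) - qR x • u with hg0
    have hG0d : Differentiable ℂ G0 := (hFC 1).sub (hqCd.smul_const _)
    have hg0d : Differentiable ℝ g0 := (hfd 1).sub (hqRd.smul_const _)
    have hGg : ∀ x, G0 (emb N x) = emb N (g0 x) := by
      intro x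
      simp only [hG0, hg0, map_sub, map_smul]
      rw [hcomp, hq]
      rfl
    have hg0T : ∀ x ∈ T, g0 x = 0 ∧ (fderiv ℝ g0 x).det ≠ 0 := by
      intro x hx
      obtain ⟨h1, h2, h3⟩ := hT x hx
      have hg00 : g0 x = 0 := by
        simp only [hg0]
        rw [← h2]
        simp only [hf']
        rw [smul_smul, mul_inv_cancel₀ (hqpos x).ne', one_smul, sub_self]
      refine ⟨hg00, ?_⟩
      have h4 : (fun x => f' (1, x)) = fun x => (qR x)⁻¹ • g0 x + u := by
        funext x'
        simp only [hf', hg0]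
        rw [smul_sub, smul_smul, inv_mul_cancel₀ (hqpos x').ne', one_smul, sub_add_cancel]
      rw [h4, fderiv_add_const, fderiv_smul_zero hg0d hqi x hg00, det_smul_real] at h3
      exact right_ne_zero_of_mul h3
    -- the Hermite perturbation
    set w0 : ℂ := y i0 with hw0
    set P : ℂ → ℂ := fun w => ∏ x ∈ T, ((w - x i0) / (w0 - x i0)) ^ 2 with hP
    have hw0x : ∀ x : Fin N → ℝ, w0 - (x i0 : ℂ) ≠ 0 := by
      intro x h
      apply hi0
      have := congrArg Complex.im h
      simpa using this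
    have hPd : Differentiable ℂ P := by
      intro w
      simp only [hP]
      apply DifferentiableAt.fun_finsetProd
      intro x _
      fun_prop
    have hPw0 : P w0 = 1 := by
      simp only [hP]
      apply Finset.prod_eq_one
      intro x _
      rw [div_self (hw0x x), one_pow]
    have hPx : ∀ x ∈ T, P (x i0) = 0 ∧ deriv P (x i0) = 0 := by
      intro x hx
      have h1 : ∀ w, P w = ((w - x i0) / (w0 - x i0)) ^ 2 *
          ∏ x' ∈ T.erase x, ((w - x' i0) / (w0 - x' i0)) ^ 2 := by
        intro w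
        simp only [hP]
        rw [← Finset.mul_prod_erase T _ hx]
      refine ⟨?_, ?_⟩
      · rw [h1]
        simp
      · have h2 : P = fun w => ((w - x i0) / (w0 - x i0)) ^ 2 *
            ∏ x' ∈ T.erase x, ((w - x' i0) / (w0 - x' i0)) ^ 2 := funext h1
        have h3 : HasDerivAt (fun w : ℂ => ((w - x i0) / (w0 - x i0)) ^ 2) 0 (x i0 : ℂ) := by
          have h4 : HasDerivAt (fun w : ℂ => (w - x i0) / (w0 - x i0)) (1 / (w0 - x i0))
              (x i0 : ℂ) := ((hasDerivAt_id _).sub_const _).div_const _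
          have h5 := h4.fun_pow 2
          refine h5.congr_deriv ?_
          simp
        have h6 : DifferentiableAt ℂ (fun w : ℂ =>
            ∏ x' ∈ T.erase x, ((w - x' i0) / (w0 - x' i0)) ^ 2) (x i0 : ℂ) := by
          apply DifferentiableAt.fun_finsetProd
          intro x' _
          fun_prop
        have h7 := h3.mul h6.hasDerivAt
        rw [h2]
        have h8 := h7.deriv
        simp only [sub_self, zero_div, ne_eq, OfNat.ofNat_ne_zero, not_false_eq_true, zero_pow,
          zero_mul, add_zero] at h8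
        exact h8
    set H : (Fin N → ℂ) → (Fin N → ℂ) := fun z => P (z i0) • (z - y) with hH
    have hproj : ∀ z : Fin N → ℂ, HasFDerivAt (fun z : Fin N → ℂ => z i0)
        (ContinuousLinearMap.proj i0 : (Fin N → ℂ) →L[ℂ] ℂ) z := fun z =>
      (ContinuousLinearMap.proj i0 : (Fin N → ℂ) →L[ℂ] ℂ).hasFDerivAt
    have hHd : ∀ z, HasFDerivAt H (P (z i0) • ContinuousLinearMap.id ℂ (Fin N → ℂ) +
        (deriv P (z i0) • (ContinuousLinearMap.proj i0 : (Fin N → ℂ) →L[ℂ] ℂ)).smulRight
          (z - y)) z := by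
      intro z
      have h1 : HasFDerivAt (fun z : Fin N → ℂ => P (z i0))
          (deriv P (z i0) • (ContinuousLinearMap.proj i0 : (Fin N → ℂ) →L[ℂ] ℂ)) z :=
        HasDerivAt.comp_hasFDerivAt (h₂ := P) z ((hPd (z i0)).hasDerivAt) (hproj z)
      exact h1.smul ((hasFDerivAt_id z).sub_const y)
    have hHC : ContDiff ℝ 1 H := by
      have h1 : ContDiff ℝ 1 fun z : Fin N → ℂ => P (z i0) := by
        simp only [hP]
        apply contDiff_prod
        intro x _
        exact (((contDiff_apply ℝ ℂ i0).sub contDiff_const).div_const _).pow 2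
      exact h1.smul (contDiff_id.sub contDiff_const)
    obtain ⟨MH, hMH⟩ := hL.exists_bound_of_continuousOn hHC.continuous.continuousOn
    set MH' := max MH 0 + 1 with hMH'
    have hMH'0 : 0 < MH' := by positivity
    obtain ⟨ε, hε0, hεδ, hεd⟩ := exists_add_smul_det_ne (fderiv ℂ G0 y)
      (δ := η / (2 * MH')) (by positivity)
    set G : (Fin N → ℂ) → (Fin N → ℂ) := fun z => G0 z + (ε : ℂ) • H z with hG
    have hGd' : ∀ z, HasFDerivAt G (fderiv ℂ G0 z + (ε : ℂ) •
        (P (z i0) • ContinuousLinearMap.id ℂ (Fin N → ℂ) +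
        (deriv P (z i0) • (ContinuousLinearMap.proj i0 : (Fin N → ℂ) →L[ℂ] ℂ)).smulRight
          (z - y))) z := fun z =>
      (hG0d z).hasFDerivAt.add ((hHd z).const_smul (ε : ℂ))
    have hGd : Differentiable ℂ G := fun z => (hGd' z).differentiableAt
    have hGC : ContDiff ℝ 1 G := by
      apply ContDiff.add
      · exact (slice_contDiff hF 1).sub (hqCC.smul contDiff_const)
      · exact hHC.const_smul (ε : ℂ)
    have hclose : ∀ z ∈ L, ‖G z - F (1, z)‖ < η := by
      intro z hz'
      have h1 : G z - F (1, z) = -(qC z • emb N u) + (ε : ℂ) • H z := by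
        simp only [hG, hG0]
        abel
      rw [h1]
      have h2 : ‖qC z • emb N u‖ ≤ M' * ‖u‖ := by
        rw [norm_smul, norm_emb]
        apply mul_le_mul_of_nonneg_right _ (norm_nonneg _)
        have := hM z hz'
        have h3 := le_max_left M 0
        linarith
      have h3 : ‖(ε : ℂ) • H z‖ ≤ ε * MH' := by
        rw [norm_smul, Complex.norm_real, Real.norm_eq_abs, abs_of_pos hε0]
        apply mul_le_mul_of_nonneg_left _ hε0.le
        have := hMH z hz'
        have h3 := le_max_left MH 0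
        linarith
      have h4 : M' * ‖u‖ < η / 2 := by
        have h5 := mul_lt_mul_of_pos_left hu hM'0
        have h6 : M' * (η / (2 * M')) = η / 2 := by
          field_simp
        linarith
      have h5 : ε * MH' < η / 2 := by
        have h6 := mul_lt_mul_of_pos_right hεδ hMH'0
        have h7 : η / (2 * MH') * MH' = η / 2 := by
          field_simp
        linarith
      calc ‖-(qC z • emb N u) + (ε : ℂ) • H z‖ ≤ ‖-(qC z • emb N u)‖ + ‖(ε : ℂ) • H z‖ :=
            norm_add_le _ _
        _ = ‖qC z • emb N u‖ + ‖(ε : ℂ) • H z‖ := by rw [norm_neg]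
        _ < η := by linarith
    -- the set of simple zeros
    have hyT : y ∉ T.image (emb N) := by
      intro h
      obtain ⟨x, -, hx⟩ := Finset.mem_image.1 h
      exact hnr x hx.symm
    have hcount := hbound G hGC (fun z => by
      rw [det_fderiv_real hGd]
      exact Complex.normSq_nonneg _) hclose (insert y (T.image (emb N))) ?_
    · rw [Finset.card_insert_of_notMem hyT,
        Finset.card_image_of_injective _ (emb_injective N), hTcard] at hcount
      omega
    · intro z hz'
      rw [Finset.mem_insert] at hz'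
      rw [det_fderiv_real hGd, (hGd' z).fderiv]
      rcases hz' with rfl | hz'
      · refine ⟨hKV _ hy, ?_, ?_⟩
        · simp only [hG, hG0, hH]
          rw [hKF _ hy, hqy]
          simp
        · have h1 : fderiv ℂ G0 z + (ε : ℂ) • (P (z i0) • ContinuousLinearMap.id ℂ (Fin N → ℂ) +
              (deriv P (z i0) • (ContinuousLinearMap.proj i0 : (Fin N → ℂ) →L[ℂ] ℂ)).smulRight
                (z - z)) =
              fderiv ℂ G0 z + (ε : ℂ) • ContinuousLinearMap.id ℂ (Fin N → ℂ) := by
            rw [← hw0, hPw0, sub_self]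
            congr 2
            ext v
            simp
          rw [h1]
          intro h0
          exact hεd (Complex.normSq_eq_zero.1 h0)
      · obtain ⟨x, hx, rfl⟩ := Finset.mem_image.1 hz'
        have hxi : emb N x i0 = (x i0 : ℂ) := rfl
        refine ⟨?_, ?_, ?_⟩
        · rcases (hT x hx).1.2 with h | h
          · exact absurd h (lt_irrefl (1 : ℝ))
          · exact h
        · simp only [hG, hH]
          rw [hGg, (hg0T x hx).1, hxi, (hPx x hx).1]
          simp
        · have h1 : fderiv ℂ G0 (emb N x) + (ε : ℂ) • (P (emb N x i0) •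
              ContinuousLinearMap.id ℂ (Fin N → ℂ) +
              (deriv P (emb N x i0) •
                (ContinuousLinearMap.proj i0 : (Fin N → ℂ) →L[ℂ] ℂ)).smulRight
                (emb N x - y)) = fderiv ℂ G0 (emb N x) := by
            rw [hxi, (hPx x hx).1, (hPx x hx).2]
            ext v
            simp
          rw [h1, fderiv_emb hG0d hg0d hGg, Complex.normSq_ofReal]
          exact mul_self_ne_zero.2 (hg0T x hx).2
  · intro hsimple
    have hfK : ∀ p ∈ KR, f p = 0 := by
      intro p hp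
      have h1 : F (j p) = emb N (f p) := hcomp p.1 p.2
      rw [hKF _ hp] at h1
      exact emb_injective N (by rw [← h1, map_zero])
    set S : Set (Fin N → ℝ) := {x | (1, x) ∈ KR} with hS
    have hSc : IsCompact S := by
      have h1 : IsCompact (Prod.snd '' (KR ∩ Prod.fst ⁻¹' {1})) :=
        (hKRc.inter_right (isClosed_singleton.preimage continuous_fst)).image continuous_snd
      have h2 : S = Prod.snd '' (KR ∩ Prod.fst ⁻¹' {1}) := by
        ext x
        constructor
        · intro hx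
          exact ⟨(1, x), ⟨hx, rfl⟩, rfl⟩
        · rintro ⟨p, ⟨hp, hp1⟩, rfl⟩
          have : ((1 : ℝ), p.2) = p := by
            have h3 : p.1 = 1 := hp1
            rw [← h3]
          change (1, p.2) ∈ KR
          rw [this]
          exact hp
      rw [h2]
      exact h1
    have hSf : S.Finite := finite_simple (fun x => f (1, x)) (slice_contDiff hf 1) S hSc
      (fun x hx => hfK _ hx) (fun x hx => hsimple x hx)
    set Z1 : Finset (Fin N → ℝ) := hSf.toFinset with hZ1
    have hZ1m : ∀ x, x ∈ Z1 ↔ (1, x) ∈ KR := fun x => hSf.mem_toFinset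
    have hZ1d : ∀ x ∈ Z1, (fderiv ℝ (fun x => f (1, x)) x).det ≠ 0 :=
      fun x hx => hsimple x ((hZ1m x).1 hx)
    have hURo : IsOpen (j ⁻¹' U) := hU.preimage hjc
    have hsum := (real_degree hf hKRc hURo (fun p hp => hKU hp)
      (fun p hp ht h0 => hz (j p) hp ht (by
        have h1 : F (j p) = emb N (f p) := hcomp p.1 p.2
        rw [h1, h0, map_zero])) hfK hsR hsc Z hZR hZd).2 Z1 hZ1m hZ1d
    rw [Finset.sum_congr rfl hσZ, Finset.sum_const, nsmul_eq_mul] at hsum
    have hle : Z1.card ≤ Z.card := by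
      have h1 := hbound (fun y => F (1, y)) (slice_contDiff hF 1) (hdF 1)
        (fun z _ => by rw [sub_self, norm_zero]; exact hη) (Z1.image (emb N)) ?_
      · rwa [Finset.card_image_of_injective _ (emb_injective N)] at h1
      · intro z hz'
        obtain ⟨x, hx, rfl⟩ := Finset.mem_image.1 hz'
        refine ⟨hKV _ ((hZ1m x).1 hx), hKF _ ((hZ1m x).1 hx), ?_⟩
        rw [det_fderiv_real (hFC 1), fderiv_emb (hFC 1) (hfd 1) (hcomp 1),
          Complex.normSq_ofReal]
        exact mul_self_ne_zero.2 (hZ1d x hx)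
    -- every term is at most one
    set e : (Fin N → ℝ) → ℝ := fun x => s (1, x) *
      ((SignType.sign (fderiv ℝ (fun x => f (1, x)) x).det : SignType) : ℝ) with he
    have he1 : ∀ x ∈ Z1, e x = 1 ∨ e x = -1 := by
      intro x hx
      have h1 := hsR (1, x) ((hZ1m x).1 hx)
      have h2 : ((SignType.sign (fderiv ℝ (fun x => f (1, x)) x).det : SignType) : ℝ) = 1 ∨
          ((SignType.sign (fderiv ℝ (fun x => f (1, x)) x).det : SignType) : ℝ) = -1 := by
        rcases lt_or_gt_of_ne (hZ1d x hx) with h | h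
        · right
          rw [sign_neg h]
          simp
        · left
          rw [sign_pos h]
          simp
      simp only [he]
      rcases h1 with h1 | h1 <;> rcases h2 with h2 | h2 <;> rw [h1, h2] <;> norm_num
    have hσσ : σ * σ = 1 := by
      rcases hσ with h | h <;> rw [h] <;> norm_num
    have hsum2 : ∑ x ∈ Z1, (1 - σ * e x) = (Z1.card : ℝ) - Z.card := by
      rw [Finset.sum_sub_distrib, ← Finset.mul_sum, hsum, Finset.sum_const, nsmul_eq_mul,
        mul_one]
      have : σ * ((Z.card : ℝ) * σ) = Z.card * (σ * σ) := by ring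
      rw [this, hσσ, mul_one]
    have hnn : ∀ x ∈ Z1, 0 ≤ 1 - σ * e x := by
      intro x hx
      rcases hσ with h | h <;> rcases he1 x hx with h' | h' <;> rw [h, h'] <;> norm_num
    have hge : 0 ≤ (Z1.card : ℝ) - Z.card := by
      rw [← hsum2]
      exact Finset.sum_nonneg hnn
    have hcardeq : Z1.card = Z.card := by
      apply le_antisymm hle
      have : (Z.card : ℝ) ≤ Z1.card := by linarith
      exact_mod_cast this
    refine ⟨Z1, hZ1m, hcardeq, fun x hx => ?_⟩
    have h0 : ∑ x ∈ Z1, (1 - σ * e x) = 0 := by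
      rw [hsum2, hcardeq, sub_self]
    have h1 := (Finset.sum_eq_zero_iff_of_nonneg hnn).1 h0 x hx
    have h2 : σ * e x = 1 := by linarith
    have h3 : σ * (σ * e x) = σ := by rw [h2, mul_one]
    rw [← mul_assoc, hσσ, one_mul] at h3
    exact h3

end

end Pool.Agent.CT
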