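import Pool.Agent.CT.NW

/-!
# CT: the inequality for the Nisan-Wigderson polynomial, final form
-/

set_option autoImplicit false

namespace Pool.CT

open Finset Real Pool.XD Pool.XP Pool.Agent.Helper87.D3 Pool.Agent.Helper41.CD

/-- the number of the blocks of the first type -/
theorem exists_r {q : ℝ} (hq0 : 1 / 2 ≤ q) (hq1 : q ≤ 1) {n : ℕ} (hn : 3 ≤ n) :
    ∃ r : ℕ, 1 ≤ r ∧ 2 * r ≤ n ∧ (r : ℝ) ≤ q * (n - r : ℕ) ∧ q * (n - r : ℕ) - 2 ≤ r := by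
  have hnr : (3 : ℝ) ≤ n := by exact_mod_cast hn
  have hq2 : 0 < 1 + q := by linarith
  obtain ⟨z, hz⟩ : ∃ z : ℝ, z = q * n / (1 + q) := ⟨_, rfl⟩
  have hzm : z * (1 + q) = q * n := by
    rw [hz]
    field_simp
  have hz1 : 1 ≤ z := by
    rw [hz, le_div_iff₀ hq2]
    nlinarith
  have hz2 : z ≤ n / 2 := by
    rw [hz, div_le_iff₀ hq2]
    nlinarith
  obtain ⟨r, hr⟩ : ∃ r : ℕ, r = ⌊z⌋₊ := ⟨_, rfl⟩
  have hr1 : 1 ≤ r := by
    rw [hr]
    apply Nat.le_floor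
    push_cast
    exact hz1
  have hrz : (r : ℝ) ≤ z := by rw [hr]; exact Nat.floor_le (by linarith)
  have hzr : z < r + 1 := by rw [hr]; exact Nat.lt_floor_add_one z
  have h2r : 2 * r ≤ n := by
    have : 2 * (r : ℝ) ≤ n := by linarith
    exact_mod_cast this
  have hcast : ((n - r : ℕ) : ℝ) = n - r := by
    rw [Nat.cast_sub (by omega)]
  refine ⟨r, hr1, h2r, ?_, ?_⟩
  · rw [hcast]
    have h1 : (r : ℝ) * (1 + q) ≤ z * (1 + q) := mul_le_mul_of_nonneg_right hrz hq2.le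
    rw [hzm] at h1
    linarith
  · rw [hcast]
    have h1 : z * (1 + q) ≤ (r + 1) * (1 + q) := mul_le_mul_of_nonneg_right hzr.le hq2.le
    rw [hzm] at h1
    linarith

/-- taking logarithms in the rank inequality -/
theorem log_core {n r : ℕ} {T θ q ρ Z : ℝ} (hn : 2 ≤ n) (hT : 1 ≤ T) (hθ : 0 < θ)
    (hθn : θ ≤ log n) (hrn : r ≤ n) (hbal : q * (n - r : ℕ) - 2 ≤ r)
    (h : exp θ ^ r ≤ T * (((n : ℝ) + 1) ^ 16 * (exp (θ * (1 / 2 - ρ)) ^ r *
      exp (θ * (q / 2 - ρ)) ^ (n - r))) * (n * exp Z)) :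
    θ * (ρ * n) ≤ log T + 34 * log n + Z := by
  have hTr : (0 : ℝ) < T := by linarith
  have hnr : (2 : ℝ) ≤ n := by exact_mod_cast hn
  have hn0 : (0 : ℝ) < n := by linarith
  obtain ⟨E, hE⟩ : ∃ E : ℕ, E = n - r := ⟨_, rfl⟩
  rw [← hE] at h hbal
  have hrE : (r : ℝ) + E = n := by
    rw [hE, Nat.cast_sub hrn]
    ring
  have h0 := log_le_log (by positivity) h
  rw [log_mul (by positivity) (by positivity), log_mul (by positivity) (by positivity),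
    log_mul (by positivity) (by positivity), log_mul (by positivity) (by positivity),
    log_mul (by positivity) (by positivity), log_pow, log_pow, log_pow, log_pow, log_exp,
    log_exp, log_exp, log_exp] at h0
  push_cast at h0
  have h1 : log ((n : ℝ) + 1) ≤ 2 * log n := by
    have h2 : 2 * log (n : ℝ) = log ((n : ℝ) ^ 2) := by
      rw [log_pow]
      push_cast
      ring
    rw [h2]
    apply log_le_log (by positivity)
    nlinarith
  have h3 : θ * (q * E - 2) ≤ θ * r := mul_le_mul_of_nonneg_left hbal hθ.le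
  have h4 : θ * (ρ * n) = θ * (ρ * r) + θ * (ρ * E) := by
    rw [← hrE]
    ring
  rw [h4]
  have h5 : (r : ℝ) * θ ≤ log T + (16 * log ((n : ℝ) + 1) + (r * (θ * (1 / 2 - ρ)) +
      E * (θ * (q / 2 - ρ)))) + (log n + Z) := h0
  have h6 : (r : ℝ) * (θ * (1 / 2 - ρ)) + E * (θ * (q / 2 - ρ)) =
      θ * r / 2 + θ * (q * E) / 2 - (θ * (ρ * r) + θ * (ρ * E)) := by ring
  rw [h6] at h5
  nlinarith

/-- **the numbers** -/
theorem nw_numbers (ε : ℝ) (hε : 0 < ε) (hε1 : ε ≤ 1 / 20) (p k S w w0 : ℕ) (hps : 2000 ≤ p)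
    (hS : 2 ≤ S) (hw : 1 ≤ w) (hw0 : 1 ≤ w0) :
    ∃ (θ q : ℝ) (r : ℕ) (X Y : ℕ → ℝ), 1 ≤ r ∧ 2 * r ≤ p ∧ 0 < θ ∧ 20 * θ ≤ log p ∧
      8 * exp θ ≤ p ∧ 0 < q ∧ q ≤ 1 ∧ θ * r ≤ θ * q * (p - r : ℕ) ∧ (∀ i, 0 < X i) ∧
      (∀ i, 0 < Y i) ∧ X 0 = 1 ∧ Y 0 = 1 ∧
      (∀ i ≤ 2 * k, NumD p (S * ((p : ℕ) + 1) ^ (8 * (w0 + w) + 16))
        (exp θ) (exp (θ * q)) (X i) (Y i) (X (i + 1)) (Y (i + 1))) ∧
      ∀ T : ℝ, 1 ≤ T →
        exp θ ^ r ≤ T * (((p : ℝ) + 1) ^ 16 * (X (2 * k + 1) ^ r * Y (2 * k + 1) ^ (p - r))) *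
          (p * exp (6 * exp θ)) →
        (p : ℝ) ≤ 2000 / ε * (log T / log p + (p : ℝ) ^ ε) *
          (2000 / ε * (log S / log p + (w + w0))) ^ (Nat.fib (2 * k + 4) - 2) := by
  obtain ⟨e, he⟩ : ∃ e : ℕ, e = Nat.fib (2 * k + 4) - 2 := ⟨_, rfl⟩
  have hpr' : (2000 : ℝ) ≤ p := by exact_mod_cast hps
  have hpr : (2 : ℝ) ≤ p := by linarith
  have hp0 : (0 : ℝ) < p := by linarith
  have hSr : (2 : ℝ) ≤ S := by exact_mod_cast hS
  have hwr : (1 : ℝ) ≤ w := by exact_mod_cast hw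
  have hw0r : (1 : ℝ) ≤ w0 := by exact_mod_cast hw0
  have hlS : 0 < log S := log_pos (by linarith)
  have hlp : 0 < log p := log_pos (by linarith)
  obtain ⟨Λ, hΛ⟩ : ∃ Λ : ℝ, Λ = log S / log p + (w + w0) := ⟨_, rfl⟩
  have hΛ2 : 2 ≤ Λ := by
    rw [hΛ]
    have : 0 ≤ log S / log p := by positivity
    linarith
  have hpε : 1 ≤ (p : ℝ) ^ ε := one_le_rpow (by linarith) hε.le
  have hεinv : 20 ≤ 1 / ε := by
    rw [le_div_iff₀ hε]
    linarith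
  rw [← hΛ, ← he]
  obtain ⟨θ, hθ⟩ : ∃ θ : ℝ, θ = ε * log p := ⟨_, rfl⟩
  have hθ0 : 0 < θ := by rw [hθ]; positivity
  have hθ20 : 20 * θ ≤ log p := by
    rw [hθ]
    nlinarith
  have hexp : exp θ = (p : ℝ) ^ ε := by
    rw [rpow_def_of_pos hp0, hθ, mul_comm]
  have hθp : 8 * exp θ ≤ p := by
    have h1 : exp θ * exp θ ≤ p := by
      rw [← exp_add, ← Real.le_log_iff_exp_le hp0]
      linarith
    have h2 : 0 < exp θ := exp_pos _
    by_contra h3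
    rw [not_le] at h3
    have h4 : (p : ℝ) * p < (8 * exp θ) * (8 * exp θ) :=
      mul_self_lt_mul_self hp0.le h3
    nlinarith
  -- the chain
  obtain ⟨K0, hK0⟩ : ∃ K0 : ℕ, K0 = 8 * (w0 + w) + 16 := ⟨_, rfl⟩
  obtain ⟨κ, hκ⟩ : ∃ κ : ℝ, κ = S * (p + 1 : ℝ) ^ K0 := ⟨_, rfl⟩
  have hκ1 : 1 ≤ κ := by
    rw [hκ]
    have : (1 : ℝ) ≤ (p + 1 : ℝ) ^ K0 := one_le_pow₀ (by linarith)
    nlinarith
  have hlp1 : log ((p : ℝ) + 1) ≤ 2 * log p := by
    have h2 : 2 * log (p : ℝ) = log ((p : ℝ) ^ 2) := by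
      rw [log_pow]
      push_cast
      ring
    rw [h2]
    apply log_le_log (by positivity)
    nlinarith
  have hlκ : log κ ≤ 32 * (Λ * log p) := by
    rw [hκ, log_mul (by positivity) (by positivity), log_pow]
    have h1 : (K0 : ℝ) ≤ 16 * (w + w0) := by
      rw [hK0]
      push_cast
      linarith
    have h2 : (K0 : ℝ) * log ((p : ℝ) + 1) ≤ 16 * (w + w0) * (2 * log p) :=
      mul_le_mul h1 hlp1 (log_nonneg (by linarith)) (by positivity)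
    have h3 : Λ * log p = log S + (w + w0) * log p := by
      rw [hΛ]
      field_simp
    rw [h3]
    linarith
  have hlκ0 : 0 ≤ log κ := log_nonneg hκ1
  obtain ⟨σ, hσ⟩ : ∃ σ : ℕ, σ = ⌈2 * log κ / θ⌉₊ + 1 := ⟨_, rfl⟩
  have hσ1 : 1 ≤ σ := by omega
  have hσ2 : 2 * log κ ≤ σ * θ := by
    have h1 : 2 * log κ / θ ≤ σ := by
      rw [hσ]
      push_cast
      have := Nat.le_ceil (2 * log κ / θ)
      linarith
    rwa [div_le_iff₀ hθ0] at h1
  have hσ3 : 18 * (σ : ℝ) ≤ 2000 / ε * Λ := by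
    have h1 : (σ : ℝ) ≤ 2 * log κ / θ + 2 := by
      rw [hσ]
      push_cast
      have := (Nat.ceil_lt_add_one (show 0 ≤ 2 * log κ / θ by positivity)).le
      linarith
    have h2 : 2 * log κ / θ ≤ 64 * (1 / ε * Λ) := by
      rw [div_le_iff₀ hθ0, hθ]
      have h3 : 64 * (1 / ε * Λ) * (ε * log p) = 64 * (Λ * log p) := by
        field_simp
      rw [h3]
      linarith
    have h4 : 2000 / ε * Λ = 2000 * (1 / ε * Λ) := by ring
    have h5 : 40 ≤ 1 / ε * Λ := by nlinarith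
    rw [h4]
    linarith
  obtain ⟨q, ρ, X, Y, hq0, hq1, hρ0, hρ, hX0, hY0, hX, hY, hch, hXL, hYL⟩ :=
    growth_theta (2 * k + 1) σ (by omega) hσ1 hκ1 hθ0 hσ2
  rw [show 2 * k + 1 + 3 = 2 * k + 4 by ring, ← he] at hρ
  obtain ⟨r, hr1, h2r, hb1, hb2⟩ := exists_r hq0 hq1 (n := p) (by omega)
  refine ⟨θ, q, r, X, Y, hr1, h2r, hθ0, hθ20, hθp, by linarith, hq1, ?_, hX, hY, hX0, hY0,
    fun i hi => ?_, ?_⟩
  · have := mul_le_mul_of_nonneg_left hb1 hθ0.le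
    linarith
  · rw [← hK0]
    exact numD_of le_rfl (hX i) (hY i) (by
      have h1 := hch i (by omega)
      rw [hκ] at h1
      exact h1)
  intro T hT hcore
  have hlT : 0 ≤ log T := log_nonneg hT
  rw [hXL, hYL] at hcore
  have hlog := log_core (Z := 6 * exp θ) (by omega) hT hθ0 (by linarith) (by omega) hb2 hcore
  rw [hexp] at hlog
  -- the conclusion
  obtain ⟨P, hP⟩ : ∃ P : ℝ, P = (2000 / ε * Λ) ^ e := ⟨_, rfl⟩
  have hPσ : (18 * (σ : ℝ)) ^ e ≤ P := by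
    rw [hP]
    exact pow_le_pow_left₀ (by positivity) hσ3 e
  have hρP : 1 ≤ ρ * (16 * P) := by
    refine hρ.trans (mul_le_mul_of_nonneg_left ?_ hρ0.le)
    linarith
  have hP0 : 0 < P := by
    rw [hP]
    positivity
  obtain ⟨G, hG⟩ : ∃ G : ℝ, G = log T / log p + (p : ℝ) ^ ε := ⟨_, rfl⟩
  have hGl : log T + 34 * log p + 6 * (p : ℝ) ^ ε ≤ 40 * (G * log p) := by
    have h1 : G * log p = log T + (p : ℝ) ^ ε * log p := by
      rw [hG]
      field_simp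
    rw [h1]
    have h2 : 1 ≤ log p := by
      rw [Real.le_log_iff_exp_le hp0]
      have := exp_one_lt_d9
      linarith
    nlinarith
  rw [← hG, ← hP]
  have h1 : ε * (ρ * p) ≤ 40 * G := by
    have h2 : ε * (ρ * p) * log p ≤ 40 * G * log p := by
      rw [hθ] at hlog
      linarith
    exact le_of_mul_le_mul_right h2 hlp
  have hG0 : 0 ≤ G := by
    rw [hG]
    positivity
  have h3 : ε * p ≤ 40 * G * (16 * P) := by
    calc ε * p = ε * (1 * p) := by ring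
      _ ≤ ε * (ρ * (16 * P) * p) :=
        mul_le_mul_of_nonneg_left (mul_le_mul_of_nonneg_right hρP hp0.le) hε.le
      _ = ε * (ρ * p) * (16 * P) := by ring
      _ ≤ 40 * G * (16 * P) := mul_le_mul_of_nonneg_right h1 (by positivity)
  have h4 : (p : ℝ) ≤ (40 * G * (16 * P)) / ε := by
    rw [le_div_iff₀ hε]
    linarith
  refine h4.trans ?_
  rw [div_le_iff₀ hε]
  have h5 : 2000 / ε * G * P * ε = 2000 * (G * P) := by
    field_simp
  rw [h5]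
  have h6 : 0 ≤ G * P := mul_nonneg hG0 hP0.le
  linarith

/-- small orders -/
theorem nw_small {ε T : ℝ} (hε : 0 < ε) (hε1 : ε ≤ 1 / 20) {p S w w0 e : ℕ} (hp : 2 ≤ p)
    (hps : p < 2000) (hT : 1 ≤ T) (hS : 2 ≤ S) (hw : 1 ≤ w) (hw0 : 1 ≤ w0) :
    (p : ℝ) ≤ 2000 / ε * (log T / log p + (p : ℝ) ^ ε) *
      (2000 / ε * (log S / log p + (w + w0))) ^ e := by
  have hpr : (2 : ℝ) ≤ p := by exact_mod_cast hp
  have hSr : (2 : ℝ) ≤ S := by exact_mod_cast hS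
  have hwr : (1 : ℝ) ≤ w := by exact_mod_cast hw
  have hw0r : (1 : ℝ) ≤ w0 := by exact_mod_cast hw0
  have hlT : 0 ≤ log T := log_nonneg hT
  have hlS : 0 < log S := log_pos (by linarith)
  have hlp : 0 < log p := log_pos (by linarith)
  obtain ⟨Λ, hΛ⟩ : ∃ Λ : ℝ, Λ = log S / log p + (w + w0) := ⟨_, rfl⟩
  have hΛ2 : 2 ≤ Λ := by
    rw [hΛ]
    have : 0 ≤ log S / log p := by positivity
    linarith
  have hpε : 1 ≤ (p : ℝ) ^ ε := one_le_rpow (by linarith) hε.le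
  have hεinv : 20 ≤ 1 / ε := by
    rw [le_div_iff₀ hε]
    linarith
  have hC1 : 1 ≤ 2000 / ε * Λ := by
    have h1 : 2000 / ε = 2000 * (1 / ε) := by ring
    rw [h1]
    nlinarith
  rw [← hΛ]
  have h1 : (p : ℝ) ≤ 2000 := by exact_mod_cast hps.le
  have h2 : 1 ≤ (2000 / ε * Λ) ^ e := one_le_pow₀ hC1
  have h3 : 2000 ≤ 2000 / ε * (log T / log p + (p : ℝ) ^ ε) := by
    have h4 : 2000 / ε = 2000 * (1 / ε) := by ring
    have h5 : 1 ≤ log T / log p + (p : ℝ) ^ ε := by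
      have : 0 ≤ log T / log p := by positivity
      linarith
    rw [h4]
    nlinarith
  calc (p : ℝ) ≤ 2000 * 1 := by linarith
    _ ≤ _ := mul_le_mul h3 h2 zero_le_one (by linarith)

/-- **the Nisan-Wigderson polynomial**: sums of `T` products of `S` members of the class -/
theorem nw_final {ε : ℝ} (hε : 0 < ε) (hε1 : ε ≤ 1 / 20) {p m : ℕ} [Fact p.Prime]
    (hm : 2 * m ≤ p) (hm8 : p ≤ 8 * m + 8) {k : ℕ}
    {K Γ : Type} [Field K] [LinearOrderedCommGroupWithZero Γ] (v : Valuation K Γ)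
    {T S w w0 : ℕ} (f : Fin T → Fin S → MvPolynomial (ZMod p × ZMod p) K)
    (hv : ∀ a : ℕ, a ≠ 0 → v a = 1) (hT : 1 ≤ T) (hS : 2 ≤ S) (hw : 1 ≤ w) (hw0 : 1 ≤ w0)
    (hf : ∀ i j, f i j ∈ Cls w0 w S k)
    (hcl : ∀ μ, v (MvPolynomial.coeff μ ((∑ i, ∏ j, f i j) - NWp p m K)) < 1) :
    (p : ℝ) ≤ 2000 / ε * (log T / log p + (p : ℝ) ^ ε) *
      (2000 / ε * (log S / log p + (w + w0))) ^ (Nat.fib (2 * k + 4) - 2) := by
  have hTr : (1 : ℝ) ≤ T := by exact_mod_cast hT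
  rcases Nat.lt_or_ge p 2000 with hps | hps
  · exact nw_small hε hε1 (Fact.out : p.Prime).two_le hps hTr hS hw hw0
  obtain ⟨θ, q, r, X, Y, hr1, h2r, hθ0, hθ20, hθp, hq0, hq1, hbal, hX, hY, hX0, hY0, hnum, hfin⟩ :=
    nw_numbers ε hε hε1 p k S w w0 hps hS hw hw0
  exact hfin T hTr (core_nw hps hm hm8 v hv f (by omega) hw hw0 hf hcl hr1 h2r hθ0 hθ20 hθp
    hq0 hq1 hbal hX hY hX0 hY0 hnum)

end Pool.CT
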