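import Pool.Agent.XGN.Avg
import Pool.Agent.XD.Aff

/-!
# CT: some variables are frozen on the torus

The `ℓ²` norm of the coefficients is the average of the norms of the frozen polynomials.
-/

set_option autoImplicit false

namespace Pool.CT

open Finset MvPolynomial Pool.XG Pool.XGN

section rename

variable {L L' : Type}

theorem l2_rename (e : L ≃ L') (h : MvPolynomial L ℂ) : l2 (rename e h) = l2 h := by
  classical
  unfold l2
  rw [support_rename_of_injective e.injective,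
    sum_image fun p _ q _ hpq => Finsupp.mapDomain_injective e.injective hpq]
  exact sum_congr rfl fun p _ => by rw [coeff_rename_mapDomain e e.injective]

end rename

section torus

variable {L Y : Type} [Fintype L] [Fintype Y]

/-- `φ` keeps the letters `ι p` and freezes the other letters on the torus -/
def Frz (ι : Y → L) (φ : L → MvPolynomial Y ℂ) : Prop :=
  (∀ p, φ (ι p) = X p) ∧ (∀ l, (∀ p, ι p ≠ l) → ∃ c : ℂ, ‖c‖ = 1 ∧ φ l = C c) ∧
    ∀ l, (φ l).totalDegree ≤ 1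

/-- the average over the frozen letters -/
theorem exists_frz (ι : Y → L) (hι : Function.Injective ι) (h : MvPolynomial L ℂ) :
    (∃ φ : L → MvPolynomial Y ℂ, Frz ι φ ∧ l2 (aeval φ h) ≤ l2 h) ∧
      ∃ φ : L → MvPolynomial Y ℂ, Frz ι φ ∧ l2 h ≤ l2 (aeval φ h) := by
  classical
  obtain ⟨e, he⟩ : ∃ e : L ≃ Y ⊕ {l // l ∉ Set.range ι}, e =
      ((Equiv.sumCongr (Equiv.ofInjective ι hι) (Equiv.refl {l // l ∉ Set.range ι})).trans
        (Equiv.Set.sumCompl (Set.range ι))).symm := ⟨_, rfl⟩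
  have he1 : ∀ p, e (ι p) = Sum.inl p := by
    intro p
    rw [he, Equiv.symm_apply_eq]
    rfl
  have he2 : ∀ (l : L) (hl : l ∉ Set.range ι), e l = Sum.inr ⟨l, hl⟩ := by
    intro l hl
    rw [he, Equiv.symm_apply_eq]
    rfl
  obtain ⟨K, hK⟩ := exists_bound (rename e h)
  obtain ⟨M, hM⟩ : ∃ M : ℕ, M = K + 1 := ⟨_, rfl⟩
  have hM0 : M ≠ 0 := by omega
  obtain ⟨ζ, hζ⟩ : ∃ ζ : ℂ, IsPrimitiveRoot ζ M := ⟨_, Complex.isPrimitiveRoot_exp M hM0⟩
  have hn : ‖ζ‖ = 1 := hζ.norm'_eq_one hM0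
  have h1 := avg_l2 hM0 hζ (rename e h) fun p hp l => (hK p hp l).trans_le (by omega)
  rw [l2_rename] at h1
  have hfrz : ∀ k : {l // l ∉ Set.range ι} → Fin M,
      Frz ι (fun l => sub (fixZ fun j => ζ ^ (k j : ℕ)) (e l)) ∧
      (aeval (sub (fixZ fun j => ζ ^ (k j : ℕ))) (rename e h) : MvPolynomial Y ℂ) =
        aeval (fun l => sub (fixZ fun j => ζ ^ (k j : ℕ)) (e l)) h := by
    intro k
    refine ⟨⟨fun p => ?_, fun l hl => ?_, fun l => ?_⟩, ?_⟩
    · show sub (fixZ fun j => ζ ^ (k j : ℕ)) (e (ι p)) = X p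
      rw [he1]
      rfl
    · have hl' : l ∉ Set.range ι := by
        rintro ⟨p, hp⟩
        exact hl p hp
      refine ⟨ζ ^ (k ⟨l, hl'⟩ : ℕ), by rw [norm_pow, hn, one_pow], ?_⟩
      show sub (fixZ fun j => ζ ^ (k j : ℕ)) (e l) = _
      rw [he2 l hl']
      rfl
    · show (sub (fixZ fun j => ζ ^ (k j : ℕ)) (e l)).totalDegree ≤ 1
      rcases e l with y | z
      · show (X y : MvPolynomial Y ℂ).totalDegree ≤ 1
        rw [totalDegree_X]
      · show (C (ζ ^ (k z : ℕ)) : MvPolynomial Y ℂ).totalDegree ≤ 1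
        rw [totalDegree_C]
        exact Nat.zero_le 1
    · rw [aeval_rename]
      rfl
  have hcard : ((univ : Finset ({l // l ∉ Set.range ι} → Fin M)).card : ℝ) =
      (M : ℝ) ^ Fintype.card {l // l ∉ Set.range ι} := by
    rw [card_univ, Fintype.card_fun, Fintype.card_fin]
    push_cast
    rfl
  have hne : (univ : Finset ({l // l ∉ Set.range ι} → Fin M)).Nonempty :=
    ⟨fun _ => ⟨0, by omega⟩, mem_univ _⟩
  have h2 : ∑ k : {l // l ∉ Set.range ι} → Fin M,
      l2 (aeval (sub (fixZ fun j => ζ ^ (k j : ℕ))) (rename e h) : MvPolynomial Y ℂ) =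
      ∑ _k : {l // l ∉ Set.range ι} → Fin M, l2 h := by
    rw [h1, sum_const, nsmul_eq_mul, hcard]
  constructor
  · obtain ⟨k, -, hk⟩ := exists_le_of_sum_le hne h2.le
    refine ⟨_, (hfrz k).1, ?_⟩
    rw [← (hfrz k).2]
    exact hk
  · obtain ⟨k, -, hk⟩ := exists_le_of_sum_le hne h2.ge
    refine ⟨_, (hfrz k).1, ?_⟩
    rw [← (hfrz k).2]
    exact hk

end torus

end Pool.CT
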