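import Pool.Agent.CT.Path
import Pool.Agent.CT.Final
import Pool.Agent.CT.CoreAvg

/-!
# CT: correlations with iterated matrix products, class form
-/

set_option autoImplicit false

namespace Pool.CT

open Finset Real Pool.XD Pool.XP Pool.XG Pool.Agent.Helper87.D3 Pool.Agent.Helper41.CD

/-- the initial products of the greedy word -/
theorem initial_prod (θ δ q : ℝ) (i : ℕ) :
    ∏ j ∈ range i, (if gw 1 q j then exp (θ + δ) else exp (-(θ * q))) =
      exp (θ * gps 1 q i + δ * (((range i).filter fun j => gw 1 q j = true).card : ℝ)) := by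
  have h1 : ∀ j, (if gw 1 q j then exp (θ + δ) else exp (-(θ * q))) =
      exp (if gw 1 q j = true then θ + δ else -(θ * q)) := by
    intro j
    split_ifs <;> rfl
  rw [prod_congr rfl fun j _ => h1 j, ← exp_sum]
  congr 1
  rw [sum_ite, sum_const, sum_const, gps_eq]
  have h2 : (range i).filter (fun j => ¬ gw 1 q j = true) =
      (range i).filter fun j => gw 1 q j = false := by
    refine filter_congr fun j _ => ?_
    simp
  rw [h2]
  simp only [nsmul_eq_mul]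
  ring

/-- the number of the blocks of a type -/
noncomputable def nbl (m : ℕ) (q : ℝ) (t : Bool) : ℕ := ((range m).filter fun j => gw 1 q j = t).card

theorem card_types (m : ℕ) (q : ℝ) (t : Bool) :
    (univ.filter fun i : Fin m => gw 1 q i = t).card = nbl m q t :=
  card_fin_range m (fun i => gw 1 q i = t)

/-- **the core inequality** -/
theorem core_imm_avg {m n : ℕ} (hm : 2 ≤ m) (hn : 16 ≤ n) {T S w w0 k : ℕ} {θ q N : ℝ} {X Y : ℕ → ℝ}
    (f : Fin T → Fin S → MvPolynomial (Fin m × (Fin n × Fin n)) ℂ) (hS : 1 ≤ S) (hw : 1 ≤ w)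
    (hw0 : 1 ≤ w0) (hf : ∀ i j, f i j ∈ Cls w0 w S k)
    (hl : 0 < l2 (∑ i, ∏ j, f i j))
    (hcl : (POm m n).card * l2 (∑ i, ∏ j, f i j) ≤ N * ‖corr (POm m n) (∑ i, ∏ j, f i j)‖ ^ 2)
    (hθ0 : 0 < θ) (hq0 : 0 < q) (hq1 : q ≤ 1) (hmn : m * exp (θ + 1) ≤ n)
    (hX : ∀ i, 0 < X i) (hY : ∀ i, 0 < Y i) (hX0 : X 0 = 1) (hY0 : Y 0 = 1)
    (hnum : ∀ i ≤ 2 * k, NumD m (S * ((m : ℕ) + 1) ^ (8 * (w0 + w) + 16))
        (exp θ) (exp (θ * q)) (X i) (Y i) (X (i + 1)) (Y (i + 1))) :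
    exp θ ^ nbl m q true ≤ (T * N ^ 2) * (((m : ℝ) + 1) ^ 16 *
      (X (2 * k + 1) ^ nbl m q true * Y (2 * k + 1) ^ nbl m q false)) * (6 * exp (θ + 1)) := by
  classical
  obtain ⟨r, hr⟩ : ∃ r, r = nbl m q true := ⟨_, rfl⟩
  obtain ⟨E, hE⟩ : ∃ E, E = nbl m q false := ⟨_, rfl⟩
  have hrE : r + E = m := by
    rw [hr, hE]
    exact card_add m q
  have hr1 : 1 ≤ r := by
    rw [hr]
    exact card_true_pos hm q
  have hE1 : 1 ≤ E := by
    rw [hE]
    exact card_false_pos hm q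
  obtain ⟨ty, hty⟩ : ∃ ty : Fin m → Bool, ty = fun i : Fin m => gw 1 q (i : ℕ) := ⟨_, rfl⟩
  have hrt : r = (univ.filter fun i : Fin m => ty i = true).card := by
    rw [hty, hr]
    exact (card_types m q true).symm
  have hEt : E = (univ.filter fun i : Fin m => ty i = false).card := by
    rw [hty, hE]
    exact (card_types m q false).symm
  have hcA : Fintype.card (Fin n × Fin n) = n ^ 2 := by
    rw [Fintype.card_prod, Fintype.card_fin, sq]
  have hnU : nU (rty ty : Fin m × (Fin n × Fin n) → Bool) = r * n ^ 2 := by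
    unfold nU
    rw [card_filter_rty, ← hrt, hcA]
  have hnV : nV (rty ty : Fin m × (Fin n × Fin n) → Bool) = E * n ^ 2 := by
    unfold nV
    rw [card_filter_rty, ← hEt, hcA]
  have hn2 : n ≤ n ^ 2 := Nat.le_self_pow (by norm_num) n
  have h1U : 1 ≤ nU (rty ty : Fin m × (Fin n × Fin n) → Bool) := by
    rw [hnU]
    exact Nat.mul_pos (by omega) (by omega)
  have h1V : 1 ≤ nV (rty ty : Fin m × (Fin n × Fin n) → Bool) := by
    rw [hnV]
    exact Nat.mul_pos (by omega) (by omega)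
  have hmr : (2 : ℝ) ≤ m := by exact_mod_cast hm
  have hnr : (16 : ℝ) ≤ n := by exact_mod_cast hn
  have heθ : 1 < exp θ := one_lt_exp_iff.2 hθ0
  have hexp1 : exp (θ + 1) = exp θ * exp 1 := exp_add _ _
  have he1 : 2.7 ≤ exp 1 := by
    have := exp_one_gt_d9
    linarith
  -- `m exp θ ≤ n / 2.7`
  have hmθ : m * exp θ * 2.7 ≤ n := by
    have h1 : m * exp θ * 2.7 ≤ m * exp θ * exp 1 :=
      mul_le_mul_of_nonneg_left he1 (by positivity)
    rw [hexp1] at hmn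
    linarith
  have hθn : 8 * exp θ ≤ ((n ^ 2 : ℕ) : ℝ) := by
    push_cast
    have h1 : 2 * exp θ ≤ m * exp θ := mul_le_mul_of_nonneg_right hmr (exp_pos _).le
    nlinarith
  obtain ⟨LU, h2r, hL2, hL4⟩ := exists_LU (r := r) (n := n ^ 2) (H := exp θ) hr1 (by omega)
    heθ hθn
  obtain ⟨LV, hL3, hL5⟩ := exists_LV (mul_pos hθ0 hq0) h1V
  obtain ⟨δ, hδ⟩ : ∃ δ : ℝ, δ = 4 * exp θ / ((n ^ 2 : ℕ) : ℝ) := ⟨_, rfl⟩
  have hδ0 : 0 ≤ δ := by
    rw [hδ]
    positivity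
  have hδm : δ * m ≤ 1 := by
    rw [hδ, div_mul_eq_mul_div, div_le_one (by positivity)]
    push_cast
    nlinarith
  -- the initial products
  have hpre : ∀ i ≤ m, ∏ j ∈ range i, (if gw 1 q j then exp (θ + δ) else exp (-(θ * q))) ≤
      exp (θ + 1) := by
    intro i hi
    rw [initial_prod]
    apply exp_le_exp.2
    have h1 := gps_le (x := 1) one_pos hq0 i
    have h2 : (((range i).filter fun j => gw 1 q j = true).card : ℝ) ≤ m := by
      have h3 := card_filter_le (range i) fun j => gw 1 q j = true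
      rw [card_range] at h3
      exact_mod_cast h3.trans hi
    have h3 : δ * (((range i).filter fun j => gw 1 q j = true).card : ℝ) ≤ δ * m :=
      mul_le_mul_of_nonneg_left h2 hδ0
    have h4 : θ * gps 1 q i ≤ θ * 1 := mul_le_mul_of_nonneg_left h1 hθ0.le
    linarith
  have hpre2 : ∀ i ≤ m, 1 ≤ exp (θ + 1) *
      ∏ j ∈ range i, (if gw 1 q j then exp (θ + δ) else exp (-(θ * q))) := by
    intro i _
    rw [initial_prod, ← exp_add]
    apply one_le_exp
    have h1 := le_gps (x := 1) one_pos hq0 i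
    have h2 : 0 ≤ δ * (((range i).filter fun j => gw 1 q j = true).card : ℝ) := by positivity
    have h3 : θ * (-q) ≤ θ * gps 1 q i := mul_le_mul_of_nonneg_left h1 hθ0.le
    have h4 : θ * q ≤ θ * 1 := mul_le_mul_of_nonneg_left hq1 hθ0.le
    linarith
  have hZ := ZB_path (m := m) (n := n) (by omega) (by omega) (gw 1 q) (oU := exp (θ + δ))
    (oV := exp (-(θ * q))) (exp_pos _) (exp_pos _) (one_le_exp (by linarith)) hmn hpre hpre2
  have h1 := core_avg (r := r) (E := E) (HU := exp θ) (HV := exp (θ * q))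
    (Z := 6 * exp (θ + 1)) ty (POm m n) (POm_nonempty (by omega) (by omega)) f hS hw hw0 hf hl hcl
    (exp_pos _) (exp_pos _) hX hY hX0 hY0 (by rw [hrE]; exact hnum) hrt hEt h2r h1U h1V
    (by rw [hnU]; exact hL2) hL3
    (oU := exp (θ + δ)) (oV := exp (-(θ * q)))
    (exp_pos _).le (exp_pos _).le
    (by rw [hnU, hδ, exp_add]; exact hL4) hL5
    (by rw [hty]; exact hZ)
  rw [hrE] at h1
  rw [← hr, ← hE]
  exact h1

/-- taking logarithms -/
theorem log_core_imm {n m : ℕ} {T θ q ρ : ℝ} (hn : 3 ≤ n) (hmn : m + 1 ≤ n) (hT : 1 ≤ T)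
    (hθ : 0 < θ) (hθn : θ ≤ log n) (hq0 : 0 < q) (hq1 : q ≤ 1)
    (h : exp θ ^ nbl m q true ≤ T * (((m : ℝ) + 1) ^ 16 *
      (exp (θ * (1 / 2 - ρ)) ^ nbl m q true * exp (θ * (q / 2 - ρ)) ^ nbl m q false)) *
      (6 * exp (θ + 1))) :
    θ * (ρ * m) ≤ log T + 21 * log n := by
  have hTr : (0 : ℝ) < T := by linarith
  have hnr : (3 : ℝ) ≤ n := by exact_mod_cast hn
  obtain ⟨r, hr⟩ : ∃ r, r = nbl m q true := ⟨_, rfl⟩
  obtain ⟨E, hE⟩ : ∃ E, E = nbl m q false := ⟨_, rfl⟩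
  have hrE : (r : ℝ) + E = m := by
    rw [hr, hE]
    exact_mod_cast card_add m q
  have hbal : q * E - r ≤ 1 := by
    have h1 := gps_eq 1 q m
    have h2 := le_gps (x := 1) one_pos hq0 m
    rw [one_mul] at h1
    have h3 : (r : ℝ) = ((range m).filter fun j => gw 1 q j = true).card := by rw [hr]; rfl
    have h4 : (E : ℝ) = ((range m).filter fun j => gw 1 q j = false).card := by rw [hE]; rfl
    rw [h3, h4]
    linarith
  rw [← hr, ← hE] at h
  have h0 := log_le_log (by positivity) h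
  rw [log_mul (by positivity) (by positivity), log_mul (by positivity) (by positivity),
    log_mul (by positivity) (by positivity), log_mul (by positivity) (by positivity),
    log_mul (by positivity) (by positivity), log_pow, log_pow, log_pow, log_pow, log_exp,
    log_exp, log_exp, log_exp] at h0
  push_cast at h0
  have h1 : log ((m : ℝ) + 1) ≤ log n := by
    apply log_le_log (by positivity)
    exact_mod_cast hmn
  have hlog3 : 1 ≤ log n := by
    rw [Real.le_log_iff_exp_le (by linarith)]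
    have := exp_one_lt_d9
    linarith
  have hlog6 : log 6 ≤ 2 := by
    have h2 : log 6 ≤ log (exp 2) := by
      apply log_le_log (by norm_num)
      have h3 := exp_one_gt_d9
      have h4 : exp 2 = exp 1 * exp 1 := by
        rw [← exp_add]
        norm_num
      rw [h4]
      nlinarith
    rwa [log_exp] at h2
  have h3 : θ * (q * E - r) ≤ θ * 1 := mul_le_mul_of_nonneg_left hbal hθ.le
  have h4 : θ * (ρ * m) = θ * (ρ * r) + θ * (ρ * E) := by
    rw [← hrE]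
    ring
  rw [h4]
  have h6 : (r : ℝ) * (θ * (1 / 2 - ρ)) + E * (θ * (q / 2 - ρ)) =
      θ * r / 2 + θ * (q * E) / 2 - (θ * (ρ * r) + θ * (ρ * E)) := by ring
  rw [h6] at h0
  nlinarith

/-- **the numbers** -/
theorem imm_numbers (n m k S w w0 : ℕ) (hn : 3000 ≤ n) (hm : 2 ≤ m)
    (hmn : (m : ℝ) ≤ (n : ℝ) ^ (3 / 4 : ℝ)) (hS : 2 ≤ S) (hw : 1 ≤ w) (hw0 : 1 ≤ w0) :
    ∃ (θ q : ℝ) (X Y : ℕ → ℝ), 0 < θ ∧ 0 < q ∧ q ≤ 1 ∧ m * exp (θ + 1) ≤ n ∧ (∀ i, 0 < X i) ∧
      (∀ i, 0 < Y i) ∧ X 0 = 1 ∧ Y 0 = 1 ∧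
      (∀ i ≤ 2 * k, NumD m (S * ((m : ℕ) + 1) ^ (8 * (w0 + w) + 16))
        (exp θ) (exp (θ * q)) (X i) (Y i) (X (i + 1)) (Y (i + 1))) ∧
      ∀ T : ℝ, 1 ≤ T →
        exp θ ^ nbl m q true ≤ T * (((m : ℝ) + 1) ^ 16 *
          (X (2 * k + 1) ^ nbl m q true * Y (2 * k + 1) ^ nbl m q false)) * (6 * exp (θ + 1)) →
        (m : ℝ) ≤ 5000 * (log T / log n + 1) *
          (5000 * (log S / log n + (w + w0))) ^ (Nat.fib (2 * k + 4) - 2) := by
  obtain ⟨e, he⟩ : ∃ e : ℕ, e = Nat.fib (2 * k + 4) - 2 := ⟨_, rfl⟩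
  have hnr : (3000 : ℝ) ≤ n := by exact_mod_cast hn
  have hn0 : (0 : ℝ) < n := by linarith
  have hmr : (2 : ℝ) ≤ m := by exact_mod_cast hm
  have hSr : (2 : ℝ) ≤ S := by exact_mod_cast hS
  have hwr : (1 : ℝ) ≤ w := by exact_mod_cast hw
  have hw0r : (1 : ℝ) ≤ w0 := by exact_mod_cast hw0
  have hlS : 0 < log S := log_pos (by linarith)
  have hlog8 : 8 ≤ log n := by
    rw [Real.le_log_iff_exp_le hn0]
    have h2 : exp 8 = exp 1 ^ 8 := by
      rw [← exp_nat_mul]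
      norm_num
    rw [h2]
    have h3 := exp_one_lt_d9
    have h4 : exp 1 ^ 8 ≤ (2.7182818286 : ℝ) ^ 8 :=
      pow_le_pow_left₀ (exp_pos 1).le h3.le 8
    refine h4.trans (le_trans ?_ hnr)
    norm_num
  have hln : 0 < log n := by linarith
  obtain ⟨Λ, hΛ⟩ : ∃ Λ : ℝ, Λ = log S / log n + (w + w0) := ⟨_, rfl⟩
  have hΛ2 : 2 ≤ Λ := by
    rw [hΛ]
    have : 0 ≤ log S / log n := by positivity
    linarith
  rw [← hΛ, ← he]
  obtain ⟨θ, hθ⟩ : ∃ θ : ℝ, θ = log n / 8 := ⟨_, rfl⟩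
  have hθ0 : 0 < θ := by rw [hθ]; positivity
  have hn34 : (n : ℝ) ^ (3 / 4 : ℝ) = exp (6 * θ) := by
    rw [rpow_def_of_pos hn0, hθ]
    congr 1
    ring
  have hnθ : (n : ℝ) = exp (8 * θ) := by
    rw [hθ, mul_div_cancel₀ _ (by norm_num : (8 : ℝ) ≠ 0), exp_log hn0]
  have hmθ : m * exp (θ + 1) ≤ n := by
    calc m * exp (θ + 1) ≤ exp (6 * θ) * exp (θ + 1) := by
          rw [← hn34]
          exact mul_le_mul_of_nonneg_right hmn (exp_pos _).le
      _ = exp (7 * θ + 1) := by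
          rw [← exp_add]
          congr 1
          ring
      _ ≤ exp (8 * θ) := by
          apply exp_le_exp.2
          rw [hθ]
          linarith
      _ = n := hnθ.symm
  have hm1n : m + 1 ≤ n := by
    have h1 : (m : ℝ) * 2 ≤ m * exp (θ + 1) := by
      apply mul_le_mul_of_nonneg_left _ (by linarith)
      have := add_one_le_exp (θ + 1)
      linarith
    have h2 : (m : ℝ) * 2 ≤ n := h1.trans hmθ
    have h3 : m * 2 ≤ n := by exact_mod_cast h2
    omega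
  -- the chain
  obtain ⟨K0, hK0⟩ : ∃ K0 : ℕ, K0 = 8 * (w0 + w) + 16 := ⟨_, rfl⟩
  obtain ⟨κ, hκ⟩ : ∃ κ : ℝ, κ = S * (m + 1 : ℝ) ^ K0 := ⟨_, rfl⟩
  have hκ1 : 1 ≤ κ := by
    rw [hκ]
    have : (1 : ℝ) ≤ (m + 1 : ℝ) ^ K0 := one_le_pow₀ (by linarith)
    nlinarith
  have hlm1 : log ((m : ℝ) + 1) ≤ log n := by
    apply log_le_log (by positivity)
    exact_mod_cast hm1n
  have hlκ : log κ ≤ 16 * (Λ * log n) := by
    rw [hκ, log_mul (by positivity) (by positivity), log_pow]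
    have h1 : (K0 : ℝ) ≤ 16 * (w + w0) := by
      rw [hK0]
      push_cast
      linarith
    have h2 : (K0 : ℝ) * log ((m : ℝ) + 1) ≤ 16 * (w + w0) * log n :=
      mul_le_mul h1 hlm1 (log_nonneg (by linarith)) (by positivity)
    have h3 : Λ * log n = log S + (w + w0) * log n := by
      rw [hΛ]
      field_simp
    rw [h3]
    linarith
  have hlκ0 : 0 ≤ log κ := log_nonneg hκ1
  obtain ⟨σ, hσ⟩ : ∃ σ : ℕ, σ = ⌈2 * log κ / θ⌉₊ + 1 := ⟨_, rfl⟩
  have hσ1 : 1 ≤ σ := by omega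
  have hσ2 : 2 * log κ ≤ σ * θ := by
    have h1 : 2 * log κ / θ ≤ σ := by
      rw [hσ]
      push_cast
      have := Nat.le_ceil (2 * log κ / θ)
      linarith
    rwa [div_le_iff₀ hθ0] at h1
  have hσ3 : 18 * (σ : ℝ) ≤ 5000 * Λ := by
    have h1 : (σ : ℝ) ≤ 2 * log κ / θ + 2 := by
      rw [hσ]
      push_cast
      have := (Nat.ceil_lt_add_one (show 0 ≤ 2 * log κ / θ by positivity)).le
      linarith
    have h2 : 2 * log κ / θ ≤ 256 * Λ := by
      rw [div_le_iff₀ hθ0, hθ]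
      have h3 : 256 * Λ * (log n / 8) = 32 * (Λ * log n) := by ring
      rw [h3]
      linarith
    linarith
  obtain ⟨q, ρ, X, Y, hq0, hq1, hρ0, hρ, hX0, hY0, hX, hY, hch, hXL, hYL⟩ :=
    growth_theta (2 * k + 1) σ (by omega) hσ1 hκ1 hθ0 hσ2
  rw [show 2 * k + 1 + 3 = 2 * k + 4 by ring, ← he] at hρ
  refine ⟨θ, q, X, Y, hθ0, by linarith, hq1, hmθ, hX, hY, hX0, hY0, fun i hi => ?_, ?_⟩
  · rw [← hK0]
    exact numD_of le_rfl (hX i) (hY i) (by
      have h1 := hch i (by omega)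
      rw [hκ] at h1
      exact h1)
  intro T hT hcore
  have hlT : 0 ≤ log T := log_nonneg hT
  rw [hXL, hYL] at hcore
  have hlog := log_core_imm (n := n) (by omega) hm1n hT hθ0 (by rw [hθ]; linarith) (by linarith)
    hq1 hcore
  -- the conclusion
  obtain ⟨P, hP⟩ : ∃ P : ℝ, P = (5000 * Λ) ^ e := ⟨_, rfl⟩
  have hPσ : (18 * (σ : ℝ)) ^ e ≤ P := by
    rw [hP]
    exact pow_le_pow_left₀ (by positivity) hσ3 e
  have hρP : 1 ≤ ρ * (16 * P) := by
    refine hρ.trans (mul_le_mul_of_nonneg_left ?_ hρ0.le)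
    linarith
  have hP0 : 0 < P := by
    rw [hP]
    positivity
  obtain ⟨G, hG⟩ : ∃ G : ℝ, G = log T / log n + 1 := ⟨_, rfl⟩
  have hGl : log T + 21 * log n ≤ 21 * (G * log n) := by
    have h1 : G * log n = log T + log n := by
      rw [hG]
      field_simp
    rw [h1]
    linarith
  rw [← hG, ← hP]
  have h1 : ρ * m ≤ 168 * G := by
    have h2 : ρ * m * log n ≤ 168 * G * log n := by
      rw [hθ] at hlog
      linarith
    exact le_of_mul_le_mul_right h2 hln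
  have hG0 : 0 ≤ G := by
    rw [hG]
    positivity
  calc (m : ℝ) = 1 * m := by ring
    _ ≤ ρ * (16 * P) * m := mul_le_mul_of_nonneg_right hρP (by linarith)
    _ = ρ * m * (16 * P) := by ring
    _ ≤ 168 * G * (16 * P) := mul_le_mul_of_nonneg_right h1 (by positivity)
    _ ≤ 5000 * G * P := by
        have : 0 ≤ G * P := mul_nonneg hG0 hP0.le
        linarith

/-- small orders -/
theorem imm_small {T : ℝ} {n m S w w0 e : ℕ} (hn : 2 ≤ n)
    (hsm : n < 3000 ∨ m < 2) (hmn : (m : ℝ) ≤ (n : ℝ) ^ (3 / 4 : ℝ)) (hT : 1 ≤ T) (hS : 2 ≤ S)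
    (hw : 1 ≤ w) (hw0 : 1 ≤ w0) :
    (m : ℝ) ≤ 5000 * (log T / log n + 1) * (5000 * (log S / log n + (w + w0))) ^ e := by
  have hnr : (2 : ℝ) ≤ n := by exact_mod_cast hn
  have hSr : (2 : ℝ) ≤ S := by exact_mod_cast hS
  have hwr : (1 : ℝ) ≤ w := by exact_mod_cast hw
  have hw0r : (1 : ℝ) ≤ w0 := by exact_mod_cast hw0
  have hlT : 0 ≤ log T := log_nonneg hT
  have hlS : 0 < log S := log_pos (by linarith)
  have hln : 0 < log n := log_pos (by linarith)
  have hm3 : (m : ℝ) ≤ 3000 := by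
    rcases hsm with h | h
    · refine hmn.trans ?_
      have h1 : (n : ℝ) ^ (3 / 4 : ℝ) ≤ (n : ℝ) ^ (1 : ℝ) :=
        rpow_le_rpow_of_exponent_le (by linarith) (by norm_num)
      rw [rpow_one] at h1
      have h2 : (n : ℝ) ≤ 3000 := by exact_mod_cast h.le
      linarith
    · have : (m : ℝ) ≤ 2 := by exact_mod_cast h.le
      linarith
  have h1 : 1 ≤ 5000 * (log S / log n + ((w : ℝ) + w0)) := by
    have : 0 ≤ log S / log n := by positivity
    linarith
  have h2 : 1 ≤ (5000 * (log S / log n + ((w : ℝ) + w0))) ^ e := one_le_pow₀ h1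
  have h3 : 5000 ≤ 5000 * (log T / log n + 1) := by
    have : 0 ≤ log T / log n := by positivity
    linarith
  calc (m : ℝ) ≤ 5000 * 1 := by linarith
    _ ≤ _ := mul_le_mul h3 h2 zero_le_one (by linarith)

/-- **iterated matrix products are far from all sums of products of the class** -/
theorem imm_far {n m : ℕ} (hn : 2 ≤ n) (hm : 1 ≤ m) (hmn : (m : ℝ) ≤ (n : ℝ) ^ (3 / 4 : ℝ)) {k : ℕ}
    {T S w w0 : ℕ} (f : Fin T → Fin S → MvPolynomial (Fin m × (Fin n × Fin n)) ℂ)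
    (hT : 1 ≤ T) (hS : 2 ≤ S) (hw : 1 ≤ w) (hw0 : 1 ≤ w0)
    (hf : ∀ i j, f i j ∈ Cls w0 w S k) {N : ℝ} (hN : 1 ≤ N)
    (hlt : 5000 * (log (T * N ^ 2) / log n + 1) *
      (5000 * (log S / log n + (w + w0))) ^ (Nat.fib (2 * k + 4) - 2) < m)
    (γ : ℂ) :
    ‖γ‖ ^ 2 * ((1 - 1 / N) * (n : ℝ) ^ (m - 1)) ≤
      l2 ((∑ i, ∏ j, f i j) - MvPolynomial.C γ * codeQ (POm m n) ℂ) := by
  have hTr : (1 : ℝ) ≤ T := by exact_mod_cast hT
  have hTN : (1 : ℝ) ≤ T * N ^ 2 := one_le_mul_of_one_le_of_one_le hTr (one_le_pow₀ hN)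
  by_contra hcon
  rw [not_le] at hcon
  by_cases hsm : n < 3000 ∨ m < 2
  · exact absurd (imm_small (T := T * N ^ 2) hn hsm hmn hTN hS hw hw0) (not_le.2 hlt)
  push Not at hsm
  obtain ⟨hn3, hm2⟩ := hsm
  obtain ⟨θ, q, X, Y, hθ0, hq0, hq1, hmθ, hX, hY, hX0, hY0, hnum, hfin⟩ :=
    imm_numbers n m k S w w0 hn3 hm2 hmn hS hw hw0
  have hN0 : 0 < N := by linarith
  have hcard : ((POm m n).card : ℝ) = (n : ℝ) ^ (m - 1) := by
    rw [card_POm hm, card_Pth' hm (by omega)]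
    push_cast
    rfl
  have h2 := corr_of_close' (∑ i, ∏ j, f i j) (codeQ (POm m n) ℂ) γ (τ := 1 / N)
    (by positivity) (by
      rw [l2_codeQ, hcard]
      calc _ < ‖γ‖ ^ 2 * ((1 - 1 / N) * (n : ℝ) ^ (m - 1)) := hcon
        _ = _ := by ring)
  rw [corr_eq, l2_codeQ] at h2
  have h3 : ((POm m n).card : ℝ) * l2 (∑ i, ∏ j, f i j) ≤
      N * ‖corr (POm m n) (∑ i, ∏ j, f i j)‖ ^ 2 := by
    have h4 := mul_le_mul_of_nonneg_left h2.2 hN0.le
    calc ((POm m n).card : ℝ) * l2 (∑ i, ∏ j, f i j) =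
        N * (1 / N * (POm m n).card * l2 (∑ i, ∏ j, f i j)) := by
          field_simp
      _ ≤ _ := h4
  exact absurd (hfin (T * N ^ 2) hTN (core_imm_avg hm2 (by omega) f (by omega) hw hw0 hf h2.1 h3
    hθ0 hq0 hq1 hmθ hX hY hX0 hY0 hnum)) (not_le.2 hlt)

end Pool.CT
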