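import Pool.Agent.CT.PathU
import Pool.Agent.CT.Freeze

/-!
# CT: the partition functions of the models with `q` states
-/

set_option autoImplicit false

namespace Pool.CT

open Finset MvPolynomial Pool.XG Pool.XGN Pool.XP

section lat

/-- the variables: a pair of vertices and a pair of states -/
abbrev LL (m q : ℕ) : Type := (Fin m × Fin m) × (Fin q × Fin q)

/-- the partition function as a polynomial -/
noncomputable def ZP (m q : ℕ) (E : Finset (Fin m × Fin m)) : MvPolynomial (LL m q) ℂ :=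
  ∑ f : Fin m → Fin q, ∏ e ∈ E, X (e, (f e.1, f e.2))

/-- the exponent of a state -/
noncomputable def zex {m q : ℕ} (E : Finset (Fin m × Fin m)) (f : Fin m → Fin q) : LL m q →₀ ℕ :=
  ∑ e ∈ E, Finsupp.single (e, (f e.1, f e.2)) 1

theorem ZP_eq (m q : ℕ) (E : Finset (Fin m × Fin m)) :
    ZP m q E = ∑ f : Fin m → Fin q, monomial (zex E f) 1 := by
  unfold ZP
  refine sum_congr rfl fun f _ => ?_
  unfold zex
  rw [MvPolynomial.monomial_sum_one]
  rfl

theorem ZP_homogeneous (m q : ℕ) (E : Finset (Fin m × Fin m)) :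
    (ZP m q E).IsHomogeneous E.card := by
  unfold ZP
  refine MvPolynomial.IsHomogeneous.sum _ _ _ fun f _ => ?_
  have h1 := MvPolynomial.IsHomogeneous.prod E
    (fun e => (MvPolynomial.X (e, (f e.1, f e.2)) : MvPolynomial (LL m q) ℂ)) (fun _ => 1)
    fun i _ => MvPolynomial.isHomogeneous_X _ _
  simpa using h1

theorem zex_le_one {m q : ℕ} (E : Finset (Fin m × Fin m)) (f : Fin m → Fin q) (l : LL m q) :
    zex E f l ≤ 1 := by
  classical
  unfold zex
  rw [Finsupp.finsetSum_apply]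
  calc ∑ e ∈ E, (Finsupp.single (e, (f e.1, f e.2)) 1 : LL m q →₀ ℕ) l
      ≤ ∑ e ∈ E, if e = l.1 then 1 else 0 := by
        refine sum_le_sum fun e _ => ?_
        rw [Finsupp.single_apply]
        split_ifs with h1 h2
        · exact le_rfl
        · exact absurd (congrArg Prod.fst h1) h2
        · exact Nat.zero_le 1
        · exact le_rfl
    _ ≤ 1 := by
        rw [sum_ite_eq']
        split_ifs <;> omega

theorem ZP_exp_le {m q : ℕ} (E : Finset (Fin m × Fin m)) :
    ∀ p ∈ (ZP m q E).support, ∀ l, p l ≤ 1 := by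
  classical
  intro p hp l
  rw [ZP_eq] at hp
  have h3 := support_sum hp
  simp only [mem_biUnion, mem_univ, true_and] at h3
  obtain ⟨f, hf⟩ := h3
  have h4 := support_monomial_subset hf
  rw [mem_singleton] at h4
  rw [h4]
  exact zex_le_one E f l

variable {m q : ℕ}

/-- the letters of the path -/
def pth (p : Fin m × (Fin q × Fin q)) : LL (m + 1) q := ((p.1.castSucc, p.1.succ), p.2)

theorem pth_injective : Function.Injective (pth : Fin m × (Fin q × Fin q) → _) := by
  rintro ⟨i, a⟩ ⟨j, b⟩ h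
  have h1 := congrArg Prod.fst (congrArg Prod.fst h)
  have h2 := congrArg Prod.snd h
  have h3 : i = j := Fin.castSucc_injective m h1
  have h4 : a = b := h2
  rw [h3, h4]

/-- the edges of the path -/
def pedge (i : Fin m) : Fin (m + 1) × Fin (m + 1) := (i.castSucc, i.succ)

theorem pedge_injective : Function.Injective (pedge : Fin m → _) := by
  intro i j h
  exact Fin.castSucc_injective m (congrArg Prod.fst h)

/-- the frozen partition function is a weighted code of the paths -/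
theorem aeval_ZP (hm : 1 ≤ m) {E : Finset (Fin (m + 1) × Fin (m + 1))}
    (hE : ∀ i : Fin m, pedge i ∈ E) {φ : LL (m + 1) q → MvPolynomial (Fin m × (Fin q × Fin q)) ℂ}
    (hφ : Frz pth φ) :
    ∃ u : (Fin m → Fin q × Fin q) → ℂ, (∀ s ∈ FOm m q, ‖u s‖ = 1) ∧
      aeval φ (ZP (m + 1) q E) = codeU (FOm m q) u := by
  classical
  obtain ⟨h1, h2, -⟩ := hφ
  -- the constants
  have h3 : ∀ l : LL (m + 1) q, ∃ c : ℂ, ‖c‖ = 1 ∧ ((∀ p, pth p ≠ l) → φ l = C c) := by
    intro l
    by_cases hl : ∀ p, pth p ≠ l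
    · obtain ⟨c, hc, hc2⟩ := h2 l hl
      exact ⟨c, hc, fun _ => hc2⟩
    · exact ⟨1, norm_one, fun h => absurd h hl⟩
  choose c hc1 hc2 using h3
  obtain ⟨PE, hPE⟩ : ∃ PE : Finset (Fin (m + 1) × Fin (m + 1)), PE = univ.image pedge := ⟨_, rfl⟩
  have hPEE : PE ⊆ E := by
    rw [hPE]
    intro e he
    obtain ⟨i, -, rfl⟩ := mem_image.1 he
    exact hE i
  obtain ⟨U, hU⟩ : ∃ U : (Fin (m + 1) → Fin q) → ℂ, U = fun f =>
      ∏ e ∈ E \ PE, c (e, (f e.1, f e.2)) := ⟨_, rfl⟩
  have hU1 : ∀ f, ‖U f‖ = 1 := by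
    intro f
    rw [hU]
    show ‖∏ e ∈ E \ PE, c (e, (f e.1, f e.2))‖ = 1
    rw [norm_prod]
    exact prod_eq_one fun e _ => hc1 _
  have hmon : ∀ f : Fin (m + 1) → Fin q, ∏ e ∈ E, φ (e, (f e.1, f e.2)) =
      monomial (Pool.XP.ex (wrd f)) (U f) := by
    intro f
    rw [← prod_sdiff hPEE, mul_comm]
    have e1 : ∏ e ∈ PE, φ (e, (f e.1, f e.2)) = monomial (Pool.XP.ex (wrd f)) 1 := by
      rw [hPE, prod_image fun i _ j _ hij => pedge_injective hij]
      unfold Pool.XP.ex
      rw [MvPolynomial.monomial_sum_one]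
      refine prod_congr rfl fun i _ => ?_
      have := h1 (i, wrd f i)
      exact this
    have e2 : ∏ e ∈ E \ PE, φ (e, (f e.1, f e.2)) = C (U f) := by
      rw [hU, map_prod]
      refine prod_congr rfl fun e he => hc2 _ ?_
      rintro p hp
      rw [mem_sdiff, hPE] at he
      exact he.2 (mem_image.2 ⟨p.1, mem_univ _, congrArg Prod.fst hp⟩)
    rw [e1, e2, mul_comm, C_mul_monomial, mul_one]
  have hinj := wrd_injective (m := m) (n := q) hm
  by_cases hq : Nonempty (Fin (m + 1) → Fin q)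
  swap
  · refine ⟨fun _ => 1, fun _ _ => norm_one, ?_⟩
    have hemp : (univ : Finset (Fin (m + 1) → Fin q)) = ∅ := by
      rw [univ_eq_empty_iff]
      exact not_nonempty_iff.1 hq
    unfold ZP codeU FOm
    rw [hemp, sum_empty, image_empty, sum_empty, map_zero]
  refine ⟨fun s => U (Function.invFun wrd s), fun s _ => hU1 _, ?_⟩
  unfold ZP codeU FOm
  rw [map_sum, sum_image fun f _ g _ hfg => hinj hfg]
  refine sum_congr rfl fun f _ => ?_
  rw [map_prod]
  show _ = monomial (Pool.XP.ex (wrd f)) (U (Function.invFun wrd (wrd f)))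
  rw [Function.leftInverse_invFun hinj f, ← hmon f]
  refine prod_congr rfl fun e _ => ?_
  rw [aeval_X]

/-- the norm of the partition function -/
theorem l2_ZP_le (hm : 1 ≤ m) {E : Finset (Fin (m + 1) × Fin (m + 1))}
    (hE : ∀ i : Fin m, pedge i ∈ E) : l2 (ZP (m + 1) q E) ≤ (q : ℝ) ^ (m + 1) := by
  obtain ⟨-, φ, hφ, h⟩ := exists_frz pth (pth_injective (m := m) (q := q)) (ZP (m + 1) q E)
  obtain ⟨u, hu, hu2⟩ := aeval_ZP hm hE hφ
  rw [hu2, l2_codeU _ u hu, card_FOm hm] at h
  exact_mod_cast h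

end lat

end Pool.CT
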