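import Mathlib

/-!
# CT: the numbers for the partition functions
-/

set_option autoImplicit false

namespace Pool.CT

open Real

theorem lat_num {M q e s s1 w : ℕ} {N : ℝ} (hM : 2 ≤ M) (hMq : M ^ 4 ≤ q ^ 3) (hw : 1 ≤ w)
    (hNq : (q : ℝ) ≤ N) (hs : (s : ℝ) ≤ N)
    (h : 50000 * (log N / log q) * (50000 * (log ((s1 : ℝ) + (q : ℝ) ^ w) / log q)) ^ e < M) :
    5000 * (log (((s + 1 : ℕ) : ℝ) * N ^ 2) / log q + 1) *
      (5000 * (log ((s1 + M ^ 2 * q ^ 2 + 1 : ℕ) : ℝ) / log q + ((w : ℝ) + w))) ^ e <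
        ((M - 1 : ℕ) : ℝ) := by
  have hq2 : 2 ≤ q := by
    by_contra hq
    have h1 : q ≤ 1 := by omega
    have h2 : q ^ 3 ≤ 1 ^ 3 := Nat.pow_le_pow_left h1 3
    have h3 : 2 ^ 4 ≤ M ^ 4 := Nat.pow_le_pow_left hM 4
    omega
  have hqr : (2 : ℝ) ≤ q := by exact_mod_cast hq2
  have hMr : (2 : ℝ) ≤ M := by exact_mod_cast hM
  have hN2 : 2 ≤ N := hqr.trans hNq
  have hlq : 0 < log q := log_pos (by linarith)
  have hlN : log q ≤ log N := log_le_log (by linarith) hNq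
  obtain ⟨a, ha⟩ : ∃ a : ℝ, a = log N / log q := ⟨_, rfl⟩
  have ha1 : 1 ≤ a := by
    rw [ha, one_le_div hlq]
    exact hlN
  obtain ⟨V, hV⟩ : ∃ V : ℝ, V = log ((s1 : ℝ) + (q : ℝ) ^ w) / log q := ⟨_, rfl⟩
  have hs10 : (0 : ℝ) ≤ s1 := Nat.cast_nonneg _
  have hqw : (1 : ℝ) ≤ (q : ℝ) ^ w := one_le_pow₀ (by linarith)
  have hVw : (w : ℝ) ≤ V := by
    rw [hV, le_div_iff₀ hlq, ← log_pow]
    exact log_le_log (by positivity) (by linarith)
  have hwr : (1 : ℝ) ≤ w := by exact_mod_cast hw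
  rw [← ha, ← hV] at h
  -- the first factor
  have h1 : log (((s + 1 : ℕ) : ℝ) * N ^ 2) / log q + 1 ≤ 5 * a := by
    have h2 : log (((s + 1 : ℕ) : ℝ) * N ^ 2) ≤ 4 * log N := by
      have h3 : ((s + 1 : ℕ) : ℝ) * N ^ 2 ≤ N ^ 4 := by
        push_cast
        have h4 : (s : ℝ) + 1 ≤ N ^ 2 := by nlinarith
        calc ((s : ℝ) + 1) * N ^ 2 ≤ N ^ 2 * N ^ 2 := mul_le_mul_of_nonneg_right h4 (by positivity)
          _ = N ^ 4 := by ring
      have h5 := log_le_log (by positivity) h3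
      rw [log_pow] at h5
      exact_mod_cast h5
    have h6 : log (((s + 1 : ℕ) : ℝ) * N ^ 2) / log q ≤ 4 * a := by
      rw [ha, ← mul_div_assoc]
      exact div_le_div_of_nonneg_right h2 hlq.le
    linarith
  -- the second factor
  have h7 : log ((s1 + M ^ 2 * q ^ 2 + 1 : ℕ) : ℝ) / log q + ((w : ℝ) + w) ≤ 7 * V := by
    have h8 : M ^ 2 * q ^ 2 + 1 ≤ q ^ 4 := by
      have h9 : M ^ 2 < q ^ 2 := by
        by_contra hcon
        rw [not_lt] at hcon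
        have h10 : (q ^ 2) ^ 2 ≤ (M ^ 2) ^ 2 := Nat.pow_le_pow_left hcon 2
        have h11 : (q ^ 2) ^ 2 = q ^ 3 * q := by ring
        have h12 : (M ^ 2) ^ 2 = M ^ 4 := by ring
        have h13 : 0 < q ^ 3 := pow_pos (by omega) 3
        nlinarith
      have h14 : 1 ≤ q ^ 2 := Nat.one_le_pow _ _ (by omega)
      have h15 : q ^ 4 = q ^ 2 * q ^ 2 := by ring
      nlinarith
    have h16 : ((s1 + M ^ 2 * q ^ 2 + 1 : ℕ) : ℝ) ≤ ((s1 : ℝ) + (q : ℝ) ^ w) * (q : ℝ) ^ 4 := by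
      have h17 : ((M ^ 2 * q ^ 2 + 1 : ℕ) : ℝ) ≤ ((q ^ 4 : ℕ) : ℝ) := by exact_mod_cast h8
      push_cast at h17 ⊢
      have h18 : (1 : ℝ) ≤ (q : ℝ) ^ 4 := one_le_pow₀ (by linarith)
      nlinarith
    have h19 := log_le_log (by positivity) h16
    rw [log_mul (by positivity) (by positivity), log_pow] at h19
    have h20 : log ((s1 + M ^ 2 * q ^ 2 + 1 : ℕ) : ℝ) / log q ≤ V + 4 := by
      rw [div_le_iff₀ hlq, add_mul, hV, div_mul_cancel₀ _ hlq.ne']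
      exact_mod_cast h19
    linarith
  have h21 : 0 ≤ log ((s1 + M ^ 2 * q ^ 2 + 1 : ℕ) : ℝ) / log q + ((w : ℝ) + w) := by
    have : 0 ≤ log ((s1 + M ^ 2 * q ^ 2 + 1 : ℕ) : ℝ) := log_natCast_nonneg _
    positivity
  have hV0 : 0 ≤ V := by linarith
  have h22 : (5000 * (log ((s1 + M ^ 2 * q ^ 2 + 1 : ℕ) : ℝ) / log q + ((w : ℝ) + w))) ^ e ≤
      (50000 * V) ^ e := by
    apply pow_le_pow_left₀ (by positivity)
    linarith
  have h23 : 5000 * (log (((s + 1 : ℕ) : ℝ) * N ^ 2) / log q + 1) ≤ 25000 * a := by linarith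
  have h24 : (((M - 1 : ℕ) : ℝ)) = M - 1 := by
    rw [Nat.cast_sub (by omega)]
    norm_num
  rw [h24]
  calc _ ≤ 25000 * a * (50000 * V) ^ e :=
        mul_le_mul h23 h22 (by positivity) (by positivity)
    _ = 1 / 2 * (50000 * a * (50000 * V) ^ e) := by ring
    _ < 1 / 2 * M := by linarith
    _ ≤ M - 1 := by linarith

end Pool.CT
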