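import Pool.Agent.XG.Rot

/-!
# CT: from polynomial gates to entire gates, with the levels of the gates
-/

set_option autoImplicit false

namespace Pool.CT

open Finset MvPolynomial Filter Topology Pool.XG

section circuit

variable {σ : Type} [Fintype σ]

variable {d w s : ℕ}

/-- circuits with entire gates, with the levels of the gates -/
def IsCircuitL (d w : ℕ) {s : ℕ} (lev : Fin s → ℕ) (P : Fin s → (σ → ℂ) → ℂ) : Prop :=
  ∀ g, lev g ≤ d ∧
    ((∃ (a₀ : ℂ) (a : σ → ℂ) (c : Fin s → ℂ), (∀ h, c h ≠ 0 → h < g ∧ lev h ≤ lev g) ∧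
        P g = fun x => a₀ + ∑ v, a v * x v + ∑ h, c h * P h x) ∨
     (∃ (a₀ : ℂ) (a : σ → ℕ) (e : Fin s → ℕ), 0 < lev g ∧
        (∀ h, e h ≠ 0 → h < g ∧ lev h < lev g) ∧
        P g = fun x => a₀ * (∏ v, x v ^ a v) * ∏ h, P h x ^ e h) ∨
     (∃ (t : Fin w → Fin s) (φ : (Fin w → ℂ) → ℂ), 0 < lev g ∧
        (∀ i, t i < g ∧ lev (t i) < lev g) ∧ Entire φ ∧ P g = fun x => φ fun i => P (t i) x))

/-- **Entire gates can be replaced by polynomial gates.** -/
theorem exists_poly_lev {P : Fin s → (σ → ℂ) → ℂ} {lev : Fin s → ℕ} (H : IsCircuitL d w lev P)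
    (R : ℝ) {ε : ℝ}
    (hε : 0 < ε) : ∃ Q : Fin s → MvPolynomial σ ℂ, (∀ g, Rel w lev Q g) ∧
      ∀ g x, (∀ v, ‖x v‖ ≤ R) → ‖P g x - eval x (Q g)‖ < ε := by
  classical
  have hc : ∀ g, Continuous (P g) := fun g => continuous_gate H s g g.2
  set R' : ℝ := max R 0 with hR'
  -- the bound
  obtain ⟨B, hB1, hB⟩ : ∃ B : ℝ, 0 ≤ B ∧ ∀ x : σ → ℂ, ‖x‖ ≤ R' → ‖fun h => P h x‖ ≤ B := by
    obtain ⟨M, hM⟩ := (isCompact_closedBall (0 : σ → ℂ) R').exists_bound_of_continuousOn
      (f := fun x => fun h => P h x) (continuous_pi hc).continuousOn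
    exact ⟨max M 0, le_max_right _ _, fun x hx => (hM x (by simpa using hx)).trans
      (le_max_left _ _)⟩
  -- the main step
  have key : ∀ (m : ℕ), ∀ {ε : ℝ}, 0 < ε → ∃ Q : Fin s → MvPolynomial σ ℂ, ∀ g : Fin s,
      (g : ℕ) < m → Rel w lev Q g ∧ ∀ x : σ → ℂ, ‖x‖ ≤ R' → ‖P g x - eval x (Q g)‖ < ε := by
    intro m
    induction m with
    | zero => exact fun _ => ⟨fun _ => 0, fun g hg => by omega⟩
    | succ m ih =>
      intro ε hε
      by_cases hm : m < s
      swap
      · obtain ⟨Q, hQ⟩ := ih hε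
        exact ⟨Q, fun g _ => hQ g (by omega)⟩
      set g₀ : Fin s := ⟨m, hm⟩ with hg₀
      have hlt : ∀ h : Fin s, h < g₀ → (h : ℕ) < m := fun h hh => hh
      -- one gate
      suffices hstep : ∃ δ : ℝ, 0 < δ ∧ ∀ Q : Fin s → MvPolynomial σ ℂ,
          (∀ h : Fin s, (h : ℕ) < m → ∀ x : σ → ℂ, ‖x‖ ≤ R' → ‖P h x - eval x (Q h)‖ < δ) →
          ∃ q : MvPolynomial σ ℂ, Rel w lev (Function.update Q g₀ q) g₀ ∧
            ∀ x : σ → ℂ, ‖x‖ ≤ R' → ‖P g₀ x - eval x q‖ < ε by
        obtain ⟨δ, hδ, hq⟩ := hstep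
        obtain ⟨Q, hQ⟩ := ih (lt_min hδ hε)
        obtain ⟨q, hq1, hq2⟩ := hq Q fun h hh x hx =>
          ((hQ h hh).2 x hx).trans_le (min_le_left _ _)
        refine ⟨Function.update Q g₀ q, fun g hg => ?_⟩
        by_cases hgm : g = g₀
        · subst hgm
          refine ⟨hq1, fun x hx => ?_⟩
          rw [Function.update_self]
          exact hq2 x hx
        · have hgm' : (g : ℕ) < m := by
            have : (g : ℕ) ≠ m := fun h => hgm (Fin.ext h)
            omega
          refine ⟨(hQ g hgm').1.congr fun i hi => ?_, fun x hx => ?_⟩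
          · have : i ≠ g₀ := by
              rintro rfl
              have : (g₀ : ℕ) ≤ g := hi
              rw [hg₀] at this
              simp only at this
              omega
            rw [Function.update_of_ne this]
          · rw [Function.update_of_ne hgm]
            exact ((hQ g hgm').2 x hx).trans_le (min_le_right _ _)
      -- a continuous function of the gates
      have general : ∀ (Φ : (σ → ℂ) × (Fin s → ℂ) → ℂ), Continuous Φ →
          (∀ x, P g₀ x = Φ (x, fun h => P h x)) → ∀ ε' : ℝ, 0 < ε' →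
          (∀ (x : σ → ℂ) (y y' : Fin s → ℂ), (∀ h, h < g₀ → y h = y' h) → Φ (x, y) = Φ (x, y')) →
          ∃ δ : ℝ, 0 < δ ∧ δ ≤ 1 ∧ ∀ Q : Fin s → MvPolynomial σ ℂ,
          (∀ h : Fin s, (h : ℕ) < m → ∀ x : σ → ℂ, ‖x‖ ≤ R' → ‖P h x - eval x (Q h)‖ < δ) →
          ∀ x : σ → ℂ, ‖x‖ ≤ R' → ‖P g₀ x - Φ (x, fun h => eval x (Q h))‖ < ε' := by
        intro Φ hΦ hPΦ ε' hε' hdep
        obtain ⟨δ, hδ, hδ2⟩ := uc hΦ R' (B + 1) hε'
        refine ⟨min δ 1, lt_min hδ one_pos, min_le_right _ _, fun Q hQ x hx => ?_⟩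
        set y' : Fin s → ℂ := fun h => if h < g₀ then eval x (Q h) else P h x with hy'
        have h1 : Φ (x, fun h => eval x (Q h)) = Φ (x, y') := hdep x _ _ fun h hh => by
          rw [hy']
          simp only
          rw [if_pos hh]
        have h2 : ‖(fun h => P h x) - y'‖ < min δ 1 := by
          rw [pi_norm_lt_iff (lt_min hδ one_pos)]
          intro h
          rw [Pi.sub_apply, hy']
          simp only
          split_ifs with hh
          · exact hQ h (hlt h hh) x hx
          · rw [sub_self, norm_zero]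
            exact lt_min hδ one_pos
        rw [h1, hPΦ]
        refine hδ2 x _ _ hx ((hB x hx).trans (by linarith)) ?_ (h2.trans_le (min_le_left _ _))
        have h3 : ‖y'‖ ≤ ‖fun h => P h x‖ + ‖(fun h => P h x) - y'‖ := by
          have := norm_sub_le (fun h => P h x) ((fun h => P h x) - y')
          rwa [sub_sub_cancel] at this
        have h4 := h2.trans_le (min_le_right _ _)
        have h5 := hB x hx
        linarith
      rcases (H g₀).2 with ⟨a₀, a, c, h1, h2⟩ | ⟨a₀, a, e, h0, h1, h2⟩ | ⟨t, φ, h0, h1, hφ, h2⟩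
      · obtain ⟨δ, hδ, -, hδ2⟩ := general
          (fun z => a₀ + ∑ v, a v * z.1 v + ∑ h, c h * z.2 h) (by fun_prop)
          (fun x => by rw [h2]) ε hε (fun x y y' hy => by
            simp only
            congr 1
            refine Finset.sum_congr rfl fun h _ => ?_
            by_cases hc : c h = 0
            · rw [hc, zero_mul, zero_mul]
            · rw [hy h (h1 h hc).1])
        refine ⟨δ, hδ, fun Q hQ =>
          ⟨C a₀ + ∑ v, C (a v) * X v + ∑ h, C (c h) * Q h, ?_, fun x hx => ?_⟩⟩
        · refine Or.inl ⟨a₀, a, c, h1, ?_⟩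
          rw [Function.update_self]
          congr 1
          refine Finset.sum_congr rfl fun h _ => ?_
          by_cases hc : c h = 0
          · rw [hc, map_zero, zero_mul, zero_mul]
          · rw [Function.update_of_ne (h1 h hc).1.ne]
        · have := hδ2 Q hQ x hx
          simpa only [map_add, map_sum, map_mul, eval_C, eval_X] using this
      · obtain ⟨δ, hδ, -, hδ2⟩ := general
          (fun z => a₀ * (∏ v, z.1 v ^ a v) * ∏ h, z.2 h ^ e h) (by fun_prop)
          (fun x => by rw [h2]) ε hε (fun x y y' hy => by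
            simp only
            congr 1
            refine Finset.prod_congr rfl fun h _ => ?_
            by_cases hc : e h = 0
            · rw [hc, pow_zero, pow_zero]
            · rw [hy h (h1 h hc).1])
        refine ⟨δ, hδ, fun Q hQ =>
          ⟨C a₀ * (∏ v, X v ^ a v) * ∏ h, Q h ^ e h, ?_, fun x hx => ?_⟩⟩
        · refine Or.inr (Or.inl ⟨a₀, a, e, h0, h1, ?_⟩)
          rw [Function.update_self]
          congr 1
          refine Finset.prod_congr rfl fun h _ => ?_
          by_cases hc : e h = 0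
          · rw [hc, pow_zero, pow_zero]
          · rw [Function.update_of_ne (h1 h hc).1.ne]
        · have := hδ2 Q hQ x hx
          simpa only [map_mul, map_prod, map_pow, eval_C, eval_X] using this
      · have hφc : Continuous φ := hφ.continuous
        obtain ⟨δ, hδ, hδ1, hδ2⟩ := general (fun z => φ fun i => z.2 (t i)) (by fun_prop)
          (fun x => by rw [h2]) (ε / 2) (half_pos hε) (fun x y y' hy => by
            simp only
            congr 1
            funext i
            rw [hy (t i) (h1 i).1])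
        obtain ⟨p, hp⟩ := hφ (B + 1) (ε / 4) (by linarith)
        refine ⟨δ, hδ, fun Q hQ => ⟨aeval (fun i => Q (t i)) p, ?_, fun x hx => ?_⟩⟩
        · refine Or.inr (Or.inr ⟨t, p, h0, h1, ?_⟩)
          rw [Function.update_self]
          congr 2
          funext i
          rw [Function.update_of_ne (h1 i).1.ne]
        · have h3 := hδ2 Q hQ x hx
          have h4 : eval x (aeval (fun i => Q (t i)) p) = eval (fun i => eval x (Q (t i))) p := by
            have h := DFunLike.congr_fun (MvPolynomial.comp_aeval (R := ℂ) (fun i => Q (t i))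
              (aeval x : MvPolynomial σ ℂ →ₐ[ℂ] ℂ)) p
            rw [AlgHom.comp_apply] at h
            simpa only [coe_aeval_eq_eval, aeval_eq_eval] using h
          have h5 : ‖fun i => eval x (Q (t i))‖ ≤ B + 1 := by
            rw [pi_norm_le_iff_of_nonneg (by linarith)]
            intro i
            have h6 := hQ (t i) (hlt _ (h1 i).1) x hx
            have h7 : ‖P (t i) x‖ ≤ B := (norm_le_pi_norm (fun h => P h x) (t i)).trans (hB x hx)
            have h8 : ‖eval x (Q (t i))‖ ≤ ‖P (t i) x‖ + ‖P (t i) x - eval x (Q (t i))‖ := by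
              have := norm_sub_le (P (t i) x) (P (t i) x - eval x (Q (t i)))
              rwa [sub_sub_cancel] at this
            linarith
          have h9 : ‖(φ fun i => eval x (Q (t i))) - eval (fun i => eval x (Q (t i))) p‖ < ε / 2 :=
            (hp _ fun i => (norm_le_pi_norm (fun i => eval x (Q (t i))) i).trans h5).trans_lt
              (by linarith)
          rw [h4]
          calc ‖P g₀ x - eval (fun i => eval x (Q (t i))) p‖
              = ‖(P g₀ x - φ fun i => eval x (Q (t i))) +
                ((φ fun i => eval x (Q (t i))) - eval (fun i => eval x (Q (t i))) p)‖ := by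
                  congr 1; ring
            _ ≤ _ := norm_add_le _ _
            _ < ε / 2 + ε / 2 := add_lt_add h3 h9
            _ = ε := add_halves ε
  obtain ⟨Q, hQ⟩ := key s hε
  refine ⟨Q, fun g => (hQ g g.2).1, fun g x hx => (hQ g g.2).2 x ?_⟩
  rw [pi_norm_le_iff_of_nonneg (le_max_right _ _)]
  exact fun v => (hx v).trans (le_max_left _ _)

end circuit

open MeasureTheory

/-- scaled circuits are circuits -/
theorem rel_sc {L : Type} [Fintype L] (ρ : ℂ) {w s : ℕ} {lev : Fin s → ℕ}
    {P : Fin s → MvPolynomial L ℂ} {g : Fin s}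
    (H : Rel w lev P g) : Rel w lev (fun g => sc ρ (P g)) g := by
  rcases H with ⟨a₀, a, c, h1, h2⟩ | ⟨a₀, a, e, h0, h1, h2⟩ | ⟨t, Q, h0, h1, h2⟩
  · refine Or.inl ⟨a₀, fun v => a v * ρ, c, h1, ?_⟩
    simp only [h2, map_add, map_sum, map_mul]
    have hC : ∀ z : ℂ, sc ρ (C z : MvPolynomial L ℂ) = C z := fun z => by
      unfold sc
      rw [← algebraMap_eq, AlgHom.commutes]
    have hX : ∀ v : L, sc ρ (X v : MvPolynomial L ℂ) = C ρ * X v := fun v => by
      unfold sc
      rw [aeval_X]
    simp only [hC, hX, mul_assoc]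
  · refine Or.inr (Or.inl ⟨a₀ * ρ ^ (∑ v, a v), a, e, h0, h1, ?_⟩)
    simp only [h2, map_mul, map_prod, map_pow]
    have hC : ∀ z : ℂ, sc ρ (C z : MvPolynomial L ℂ) = C z := fun z => by
      unfold sc
      rw [← algebraMap_eq, AlgHom.commutes]
    have hX : ∀ v : L, sc ρ (X v : MvPolynomial L ℂ) = C ρ * X v := fun v => by
      unfold sc
      rw [aeval_X]
    simp only [hC, hX, mul_pow, prod_mul_distrib, prod_pow_eq_pow_sum]
    ring
  · refine Or.inr (Or.inr ⟨t, Q, h0, h1, ?_⟩)
    simp only [h2]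
    exact comp_aeval_apply _ _ _

/-- **From polynomial gates to entire gates, for all rotation invariant laws**: if no polynomial
circuit is close to a multiple of the homogeneous polynomial `G` in the norm of the coefficients,
then no circuit with entire gates is close to `G` in the mean square for independent entries with
rotation invariant laws of second moment one. -/
theorem rot_lower_lev {L : Type} [Fintype L] {d w s N : ℕ} {G : MvPolynomial L ℂ} (hG : G.IsHomogeneous N) {B : ℝ}
    {P : Fin s → (L → ℂ) → ℂ} {lev : Fin s → ℕ} (hP : IsCircuitL d w lev P) (g : Fin s)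
    (hpoly : ∀ p : Fin s → MvPolynomial L ℂ, (∀ g, Rel w lev p g) → ∀ γ : ℂ,
      ‖γ‖ ^ 2 * B ≤ l2 (p g - C γ * G))
    (ν : L → Measure ℂ) [∀ l, IsProbabilityMeasure (ν l)]
    (hrot : ∀ l, ∀ u : ℂ, ‖u‖ = 1 → (ν l).map (fun z => u * z) = ν l)
    (h2 : ∀ l, ∫ z, ‖z‖ ^ 2 ∂ν l = 1) :
    ENNReal.ofReal B ≤ ∫⁻ x, ENNReal.ofReal (‖P g x - eval x G‖ ^ 2) ∂(Measure.pi ν) := by
  have hcP : Continuous (P g) := continuous_gate hP s g g.2
  have hcG : Continuous fun x : L → ℂ => eval x G := MvPolynomial.continuous_eval G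
  have key : ∀ t : ℝ, 0 < t → t < 1 → ENNReal.ofReal (t ^ Fintype.card L * (t ^ N * B)) ≤
      ∫⁻ x, ENNReal.ofReal (‖P g x - eval x G‖ ^ 2) ∂(Measure.pi ν) := by
    intro t ht0 ht1
    obtain ⟨R, hR⟩ := exists_radius ν h2 ht1
    obtain ⟨κ, hκ⟩ : ∃ κ : L → Measure ℂ, κ = fun l => (ν l).restrict (Metric.closedBall 0 (R : ℝ)) :=
      ⟨_, rfl⟩
    have hfin : ∀ l, IsFiniteMeasure (κ l) := fun l => by rw [hκ]; infer_instance
    obtain ⟨K, hK⟩ : ∃ K : Set (L → ℂ), K = Set.univ.pi fun _ => Metric.closedBall (0 : ℂ) (R : ℝ) :=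
      ⟨_, rfl⟩
    have hKc : IsCompact K := by
      rw [hK]
      exact isCompact_univ_pi fun _ => isCompact_closedBall _ _
    have hKm : MeasurableSet K := hKc.isClosed.measurableSet
    have hpi : Measure.pi κ = (Measure.pi ν).restrict K := by
      rw [hK, Measure.restrict_pi_pi, hκ]
    have hKx : ∀ x ∈ K, ∀ l, ‖x l‖ ≤ R := by
      intro x hx l
      rw [hK] at hx
      have := hx l (Set.mem_univ l)
      simpa using this
    have hRl : ∀ l, ∀ᵐ z ∂κ l, ‖z‖ ≤ R := by
      intro l
      rw [hκ]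
      refine ae_restrict_of_forall_mem Metric.isClosed_closedBall.measurableSet fun z hz => ?_
      simpa using hz
    obtain ⟨M₀, hM₀⟩ := hKc.exists_bound_of_continuousOn (hcP.sub hcG).continuousOn
    obtain ⟨M, hM0, hM⟩ : ∃ M : ℝ, 0 ≤ M ∧ ∀ x ∈ K, ‖P g x - eval x G‖ ≤ M :=
      ⟨|M₀|, abs_nonneg _, fun x hx => (hM₀ x hx).trans (le_abs_self _)⟩
    have hintK : ∀ f : (L → ℂ) → ℝ, Continuous f → Integrable f (Measure.pi κ) := by
      intro f hf
      obtain ⟨A, hA⟩ := hKc.exists_bound_of_continuousOn hf.continuousOn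
      rw [hpi]
      exact Integrable.of_bound hf.aestronglyMeasurable A
        (ae_restrict_of_forall_mem hKm fun x hx => hA x hx)
    have hcI : Continuous fun x => ‖P g x - eval x G‖ ^ 2 := (hcP.sub hcG).norm.pow 2
    have hmass : (Measure.pi κ).real Set.univ ≤ 1 := by
      rw [hpi, measureReal_restrict_apply_univ]
      exact measureReal_le_one
    -- reduction to a Bochner integral
    have h5 : ENNReal.ofReal (∫ x, ‖P g x - eval x G‖ ^ 2 ∂(Measure.pi κ)) ≤
        ∫⁻ x, ENNReal.ofReal (‖P g x - eval x G‖ ^ 2) ∂(Measure.pi ν) := by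
      rw [ofReal_integral_eq_lintegral_ofReal (hintK _ hcI)
        (Filter.Eventually.of_forall fun x => by
          show (0 : ℝ) ≤ ‖P g x - eval x G‖ ^ 2
          positivity), hpi]
      exact setLIntegral_le_lintegral _ _
    refine le_trans (ENNReal.ofReal_le_ofReal ?_) h5
    refine le_of_forall_pos_le_add fun δ hδ => ?_
    obtain ⟨ε, hε, hε1, hε2⟩ : ∃ ε : ℝ, 0 < ε ∧ ε ≤ 1 ∧ ε * (2 * M + 1) ≤ δ := by
      refine ⟨min 1 (δ / (2 * M + 1)), lt_min one_pos (by positivity), min_le_left _ _, ?_⟩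
      calc min 1 (δ / (2 * M + 1)) * (2 * M + 1) ≤ δ / (2 * M + 1) * (2 * M + 1) :=
            mul_le_mul_of_nonneg_right (min_le_right _ _) (by positivity)
        _ = δ := by field_simp
    obtain ⟨p, hp, hpP⟩ := exists_poly_lev hP (R : ℝ) hε
    have h6 : ∫ x, ‖eval x (p g - G)‖ ^ 2 ∂(Measure.pi κ) ≤
        ∫ x, ‖P g x - eval x G‖ ^ 2 ∂(Measure.pi κ) + δ := by
      have h7 : ∫ x, ‖eval x (p g - G)‖ ^ 2 ∂(Measure.pi κ) ≤
          ∫ x, (‖P g x - eval x G‖ ^ 2 + δ) ∂(Measure.pi κ) := by
        refine integral_mono_ae (hintK _ ((MvPolynomial.continuous_eval _).norm.pow 2))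
          (hintK _ (hcI.add continuous_const)) ?_
        rw [hpi]
        refine ae_restrict_of_forall_mem hKm fun x hx => ?_
        have h8 := hpP g x (hKx x hx)
        have h9 := hM x hx
        have h10 : ‖eval x (p g - G)‖ ≤ ‖P g x - eval x G‖ + ε := by
          have h11 : eval x (p g - G) = (P g x - eval x G) - (P g x - eval x (p g)) := by
            rw [map_sub]
            ring
          rw [h11]
          exact (norm_sub_le _ _).trans (by linarith)
        have h12 : 0 ≤ ‖eval x (p g - G)‖ := norm_nonneg _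
        have h13 : 0 ≤ ‖P g x - eval x G‖ := norm_nonneg _
        show ‖eval x (p g - G)‖ ^ 2 ≤ ‖P g x - eval x G‖ ^ 2 + δ
        nlinarith
      refine h7.trans ?_
      rw [integral_add (hintK _ hcI) (hintK _ continuous_const), integral_const, smul_eq_mul]
      have : (Measure.pi κ).real Set.univ * δ ≤ 1 * δ := mul_le_mul_of_nonneg_right hmass hδ.le
      linarith
    refine le_trans ?_ h6
    rw [parseval_rot κ (fun l u hu => by rw [hκ]; exact rot_restrict (hrot l) _ u hu) hRl]
    have h7 : t ^ N * B ≤ l2 (sc (Real.sqrt t : ℂ) (p g - G)) := by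
      have h8 := hpoly (fun g => sc (Real.sqrt t : ℂ) (p g)) (fun g => rel_sc _ (hp g))
        ((Real.sqrt t : ℂ) ^ N)
      rw [map_sub, sc_homogeneous _ hG]
      rw [norm_pow, Complex.norm_real, Real.norm_of_nonneg (Real.sqrt_nonneg t), ← pow_mul,
        mul_comm N 2, pow_mul, Real.sq_sqrt ht0.le] at h8
      exact h8
    rw [l2_sc ht0.le] at h7
    calc t ^ Fintype.card L * (t ^ N * B) ≤
        t ^ Fintype.card L * ∑ q ∈ (p g - G).support, t ^ (∑ l, q l) * ‖coeff q (p g - G)‖ ^ 2 :=
          mul_le_mul_of_nonneg_left h7 (by positivity)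
      _ = ∑ q ∈ (p g - G).support, ‖coeff q (p g - G)‖ ^ 2 * ∏ l, (t * t ^ q l) := by
          rw [mul_sum]
          refine sum_congr rfl fun q _ => ?_
          rw [prod_mul_distrib, prod_const, prod_pow_eq_pow_sum, card_univ]
          ring
      _ ≤ _ := by
          refine sum_le_sum fun q _ => ?_
          apply mul_le_mul_of_nonneg_left _ (by positivity)
          refine prod_le_prod (fun l _ => by positivity) fun l _ => ?_
          have h9 := hR l
          have h10 := hfin l
          refine moment_ge (hRl l) ht0 ?_ ?_ ?_ (q l)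
          · rw [hκ]
            exact h9.1
          · rw [hκ, measureReal_restrict_apply_univ]
            exact measureReal_le_one
          · rw [hκ]
            exact h9.2
  have hlim : Filter.Tendsto (fun t : ℝ => ENNReal.ofReal (t ^ Fintype.card L * (t ^ N * B)))
      (nhdsWithin 1 (Set.Iio 1)) (nhds (ENNReal.ofReal B)) := by
    have h3 : Filter.Tendsto (fun t : ℝ => ENNReal.ofReal (t ^ Fintype.card L * (t ^ N * B)))
        (nhds 1) (nhds (ENNReal.ofReal ((1 : ℝ) ^ Fintype.card L * ((1 : ℝ) ^ N * B)))) := by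
      apply Continuous.tendsto
      exact ENNReal.continuous_ofReal.comp (by fun_prop)
    rw [one_pow, one_pow, one_mul, one_mul] at h3
    exact h3.mono_left nhdsWithin_le_nhds
  refine le_of_tendsto hlim ?_
  have h3 : ∀ᶠ t : ℝ in nhdsWithin 1 (Set.Iio 1), t ∈ Set.Ioo (0 : ℝ) 1 :=
    Ioo_mem_nhdsLT one_pos
  filter_upwards [h3] with t ht
  exact key t ht.1 ht.2

end Pool.CT
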