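import Pool.Agent.CT.Lat
import Pool.Agent.CT.LatNum
import Pool.Agent.CT.Circ
import Pool.Agent.CT.PolyLev
import Pool.Agent.XG.Second

/-!
# CT: circuits do not approximate partition functions
-/

set_option autoImplicit false

namespace Pool.CT

open Finset MvPolynomial MeasureTheory Pool.XG Pool.XP Pool.XD Pool.Agent.Helper41.CD

/-- **the form for polynomials**: the distance of a gate to all multiples of the partition
function -/
theorem lat_poly {M q k w s : ℕ} {N : ℝ} (hM : 2 ≤ M) (hMq : M ^ 4 ≤ q ^ 3) (hw : 1 ≤ w)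
    (hNq : (q : ℝ) ≤ N) (hs : (s : ℝ) ≤ N) {E : Finset (Fin M × Fin M)}
    (hE : ∀ i j : Fin M, (j : ℕ) = i + 1 → (i, j) ∈ E) {lev : Fin s → ℕ}
    {p : Fin s → MvPolynomial (LL M q) ℂ} (hlev : ∀ g, lev g ≤ k + 1) (hp : ∀ g, Rel w lev p g)
    (h : 50000 * (Real.log N / Real.log q) *
      (50000 * (Real.log ((nlow lev k : ℝ) + (q : ℝ) ^ w) / Real.log q)) ^
        (Nat.fib (2 * k + 4) - 2) < M) (g : Fin s) (γ : ℂ) :
    ‖γ‖ ^ 2 * ((1 - 1 / N) * (q : ℝ) ^ M) ≤ l2 (p g - C γ * ZP M q E) := by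
  classical
  have hnum := lat_num hM hMq hw hNq hs h
  obtain ⟨m, rfl⟩ : ∃ m, M = m + 1 := ⟨M - 1, by omega⟩
  have hm : 1 ≤ m := by omega
  have hq2 : 2 ≤ q := by
    by_contra hq
    have h1 : q ≤ 1 := by omega
    have h2 : q ^ 3 ≤ 1 ^ 3 := Nat.pow_le_pow_left h1 3
    have h3 : 2 ^ 4 ≤ (m + 1) ^ 4 := Nat.pow_le_pow_left hM 4
    omega
  have hqr : (2 : ℝ) ≤ q := by exact_mod_cast hq2
  have hmq : (m : ℝ) ≤ (q : ℝ) ^ (3 / 4 : ℝ) := by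
    have h1 : ((m + 1 : ℕ) : ℝ) ^ 4 ≤ (q : ℝ) ^ 3 := by exact_mod_cast hMq
    have h2 : ((m + 1 : ℕ) : ℝ) ≤ (q : ℝ) ^ (3 / 4 : ℝ) := by
      have h3 : (((m + 1 : ℕ) : ℝ) ^ 4) ^ (1 / 4 : ℝ) ≤ ((q : ℝ) ^ 3) ^ (1 / 4 : ℝ) :=
        Real.rpow_le_rpow (by positivity) h1 (by norm_num)
      have h4 : (((m + 1 : ℕ) : ℝ) ^ 4) ^ (1 / 4 : ℝ) = ((m + 1 : ℕ) : ℝ) := by
        rw [← Real.rpow_natCast, ← Real.rpow_mul (Nat.cast_nonneg _)]
        norm_num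
      have h5 : ((q : ℝ) ^ 3) ^ (1 / 4 : ℝ) = (q : ℝ) ^ (3 / 4 : ℝ) := by
        rw [← Real.rpow_natCast, ← Real.rpow_mul (Nat.cast_nonneg _)]
        norm_num
      rwa [h4, h5] at h3
    refine le_trans ?_ h2
    push_cast
    linarith
  have hE' : ∀ i : Fin m, pedge i ∈ E := fun i => hE _ _ (by simp)
  -- the freezing
  obtain ⟨⟨φ, hφ, hle⟩, -⟩ := exists_frz pth (pth_injective (m := m) (q := q))
    (p g - C γ * ZP (m + 1) q E)
  refine le_trans ?_ hle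
  obtain ⟨u, hu, hu2⟩ := aeval_ZP hm hE' hφ
  rw [map_sub, map_mul, hu2, aeval_C, algebraMap_eq]
  -- the circuit
  have hcard : Fintype.card (LL (m + 1) q) = (m + 1) ^ 2 * q ^ 2 := by
    simp only [Fintype.card_prod, Fintype.card_fin]
    ring
  obtain ⟨f, hf, hfg⟩ := circuit_sum2 (P := p) (lev := lev)
    (S := nlow lev k + (m + 1) ^ 2 * q ^ 2 + 1) (k := k) hw
    (by rw [hcard]) (fun g => ⟨hlev g, hp g⟩) g
  have h6 : ∑ i, ∏ j, aeval φ (f i j) = aeval φ (p g) := by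
    rw [← hfg, map_sum]
    exact sum_congr rfl fun i _ => (map_prod _ _ _).symm
  rw [← h6]
  refine path_far hq2 hm hmq u hu (fun i j => aeval φ (f i j)) (by omega) ?_ hw hw
    (fun i j => cls_aeval φ hφ.2.2 (hf i j)) (N := N) (by linarith) ?_ γ
  · have h7 : 1 ≤ (m + 1) ^ 2 * q ^ 2 := Nat.mul_pos (by positivity) (by positivity)
    omega
  · have h8 : ((m + 1 - 1 : ℕ) : ℝ) = m := by simp
    rw [h8] at hnum
    exact hnum

/-- **the form for circuits with entire gates** -/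
theorem lat_main {M q k w s : ℕ} {N : ℝ} (hM : 2 ≤ M) (hMq : M ^ 4 ≤ q ^ 3) (hw : 1 ≤ w)
    (hNq : (q : ℝ) ≤ N) (hs : (s : ℝ) ≤ N) {E : Finset (Fin M × Fin M)}
    (hE : ∀ i j : Fin M, (j : ℕ) = i + 1 → (i, j) ∈ E) {lev : Fin s → ℕ}
    {P : Fin s → (LL M q → ℂ) → ℂ} (hP : IsCircuitL (k + 1) w lev P)
    (h : 50000 * (Real.log N / Real.log q) *
      (50000 * (Real.log ((nlow lev k : ℝ) + (q : ℝ) ^ w) / Real.log q)) ^
        (Nat.fib (2 * k + 4) - 2) < M) (g : Fin s)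
    (ν : LL M q → Measure ℂ) [∀ l, IsProbabilityMeasure (ν l)]
    (hrot : ∀ l, ∀ u : ℂ, ‖u‖ = 1 → (ν l).map (fun z => u * z) = ν l)
    (h2 : ∀ l, ∫ z, ‖z‖ ^ 2 ∂ν l = 1) :
    ENNReal.ofReal (1 - 1 / N) *
      ∫⁻ x, ENNReal.ofReal (‖eval x (ZP M q E)‖ ^ 2) ∂(Measure.pi ν) ≤
      ∫⁻ x, ENNReal.ofReal (‖P g x - eval x (ZP M q E)‖ ^ 2) ∂(Measure.pi ν) := by
  have hq2 : 2 ≤ q := by
    by_contra hq
    have h1 : q ≤ 1 := by omega
    have h2 : q ^ 3 ≤ 1 ^ 3 := Nat.pow_le_pow_left h1 3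
    have h3 : 2 ^ 4 ≤ M ^ 4 := Nat.pow_le_pow_left hM 4
    omega
  have hqr : (2 : ℝ) ≤ q := by exact_mod_cast hq2
  have hN : (1 : ℝ) ≤ N := by linarith
  have h01 : 0 ≤ 1 - 1 / N := by
    rw [sub_nonneg, div_le_one (by linarith)]
    exact hN
  have h1 := rot_lower_lev (ZP_homogeneous M q E) (B := (1 - 1 / N) * (q : ℝ) ^ M) hP g
    (fun p hp γ => lat_poly hM hMq hw hNq hs hE (fun g => (hP g).1) hp h g γ) ν hrot h2
  refine le_trans ?_ h1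
  rw [second_moment ν hrot h2 _ (ZP_exp_le E), ← ENNReal.ofReal_mul h01]
  refine ENNReal.ofReal_le_ofReal (mul_le_mul_of_nonneg_left ?_ h01)
  obtain ⟨m, rfl⟩ : ∃ m, M = m + 1 := ⟨M - 1, by omega⟩
  exact l2_ZP_le (by omega) fun i => hE _ _ (by simp)

end Pool.CT
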