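import Pool.Agent.XD.Par
import Pool.Agent.XP.Num

/-!
# CT: the chain of growth rates for the scale `HU = exp θ`
-/

set_option autoImplicit false

namespace Pool.CT

open Finset Real Pool.XD

theorem rpow_pow_mul {x y θ : ℝ} (hx : 0 < x) (hy : 0 < y) (b e : ℕ) :
    (x ^ b * y ^ e) ^ θ = (x ^ θ) ^ b * (y ^ θ) ^ e := by
  rw [mul_rpow (by positivity) (by positivity), ← rpow_natCast, ← rpow_natCast, ← rpow_mul hx.le,
    ← rpow_mul hy.le, mul_comm (b : ℝ), mul_comm (e : ℝ), rpow_mul hx.le, rpow_mul hy.le,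
    rpow_natCast, rpow_natCast]

theorem rpow_pow' {x θ : ℝ} (hx : 0 < x) (b : ℕ) : (x ^ b) ^ θ = (x ^ θ) ^ b := by
  rw [← rpow_natCast, ← rpow_mul hx.le, mul_comm (b : ℝ), rpow_mul hx.le, rpow_natCast]

theorem numAll_rpow {HU HV κ x y x' y' θ : ℝ} (hθ : 0 ≤ θ) (hHU : 0 < HU) (hHV : 0 < HV)
    (hκ : 0 ≤ κ) (hx : 0 < x) (hy : 0 < y) (hx' : 0 < x') (hy' : 0 < y')
    (h : NumAll HU HV κ x y x' y') :
    NumAll (HU ^ θ) (HV ^ θ) (κ ^ θ) (x ^ θ) (y ^ θ) (x' ^ θ) (y' ^ θ) := by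
  intro b e hbe
  rcases h b e hbe with h1 | h1 | h1
  · left
    have := rpow_le_rpow (by positivity) h1 hθ
    rwa [rpow_pow_mul hx' hy', rpow_pow' hHV] at this
  · right; left
    have := rpow_le_rpow (by positivity) h1 hθ
    rwa [rpow_pow_mul hx' hy', rpow_pow' hHU] at this
  · right; right
    have := rpow_le_rpow (by positivity) h1 hθ
    rwa [rpow_pow_mul hx' hy', mul_rpow hκ (by positivity), rpow_pow_mul hx hy] at this

/-- **the chain of growth rates**, scale `θ` -/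
theorem growth_theta (L σ : ℕ) (hL : 1 ≤ L) (hσ : 1 ≤ σ) {κ θ : ℝ} (hκ : 1 ≤ κ) (hθ : 0 < θ)
    (hκσ : 2 * log κ ≤ σ * θ) :
    ∃ (q ρ : ℝ) (X Y : ℕ → ℝ), 1 / 2 ≤ q ∧ q ≤ 1 ∧ 0 < ρ ∧
      1 ≤ ρ * (16 * (18 * σ) ^ (Nat.fib (L + 3) - 2)) ∧ X 0 = 1 ∧ Y 0 = 1 ∧
      (∀ i, 0 < X i) ∧ (∀ i, 0 < Y i) ∧
      (∀ i, i + 1 ≤ L → NumAll (exp θ) (exp (θ * q)) κ (X i) (Y i) (X (i + 1)) (Y (i + 1))) ∧
      X L = exp (θ * (1 / 2 - ρ)) ∧ Y L = exp (θ * (q / 2 - ρ)) := by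
  have hκ0 : 0 < κ := by linarith
  have h1 : 1 ≤ κ ^ (1 / θ) := one_le_rpow hκ (by positivity)
  have h2 : log (κ ^ (1 / θ)) ≤ σ / 2 := by
    rw [log_rpow hκ0, one_div, inv_mul_le_iff₀ hθ]
    linarith
  obtain ⟨A, B, s, X, Y, hs, hB, hBA, hA2, hsA, hX0, hY0, hX, hY, hch, hXL, hYL⟩ :=
    growth_chain L σ hL hσ (κ ^ (1 / θ)) h1 h2
  have hA : 1 ≤ A := hB.trans hBA
  have hAr : (0 : ℝ) < A := by exact_mod_cast hA
  have hBr : (0 : ℝ) < B := by exact_mod_cast hB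
  have hsr : (0 : ℝ) < s := by exact_mod_cast hs
  have hBAr : (B : ℝ) ≤ A := by exact_mod_cast hBA
  have hA2r : (A : ℝ) ≤ 2 * B := by exact_mod_cast hA2
  have hsAr : (s : ℝ) * A ≤ 4 * (18 * σ) ^ (Nat.fib (L + 3) - 2) := by exact_mod_cast hsA
  refine ⟨B / A, 1 / (4 * (s * A)), fun i => X i ^ θ, fun i => Y i ^ θ, ?_, ?_, by positivity, ?_,
    ?_, ?_, fun i => rpow_pos_of_pos (hX i) θ, fun i => rpow_pos_of_pos (hY i) θ, ?_, ?_, ?_⟩
  · rw [le_div_iff₀ hAr]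
    linarith
  · rw [div_le_one hAr]
    exact hBAr
  · rw [div_mul_eq_mul_div, le_div_iff₀ (by positivity)]
    linarith
  · beta_reduce
    rw [hX0, one_rpow]
  · beta_reduce
    rw [hY0, one_rpow]
  · intro i hi
    have h3 := numAll_rpow hθ.le (exp_pos _) (exp_pos _) (by linarith) (hX i) (hY i) (hX (i + 1))
      (hY (i + 1)) (hch i hi)
    rwa [← exp_mul, ← exp_mul, one_mul, mul_comm ((B : ℝ) / A) θ, ← rpow_mul hκ0.le,
      one_div_mul_cancel hθ.ne', rpow_one] at h3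
  · beta_reduce
    rw [hXL, ← exp_mul]
    congr 1
    ring
  · beta_reduce
    rw [hYL, ← exp_mul]
    congr 1
    ring

/-- the condition of the machine -/
theorem numD_of {d n : ℕ} (hd : d ≤ n) {S K : ℕ} {HU HV x y x' y' : ℝ} (hx : 0 < x) (hy : 0 < y)
    (h : NumAll HU HV (S * (n + 1 : ℝ) ^ K) x y x' y') :
    NumD d (S * (d + 1) ^ K) HU HV x y x' y' := by
  intro b e hbe _
  rcases h b e hbe with h1 | h1 | h1
  · exact Or.inr (Or.inl h1)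
  · exact Or.inl h1
  · refine Or.inr (Or.inr (le_trans ?_ h1))
    apply mul_le_mul_of_nonneg_right
    · apply mul_le_mul_of_nonneg_left _ (Nat.cast_nonneg _)
      have h2 : ((d : ℝ) + 1) ≤ n + 1 := by
        have : (d : ℝ) ≤ n := by exact_mod_cast hd
        linarith
      have h3 : (0 : ℝ) ≤ (d : ℝ) + 1 := by positivity
      exact pow_le_pow_left₀ h3 h2 _
    · positivity

end Pool.CT
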