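import Pool.Agent.CT.Par
import Pool.Agent.CT.Core
import Pool.Agent.CT.Num
import Pool.Agent.XP.Assembly

/-!
# CT: the core inequality for the Nisan-Wigderson polynomial
-/

set_option autoImplicit false

namespace Pool.CT

open Finset Pool.XD Pool.XP Pool.Agent.Helper87.D3 Pool.Agent.Helper41.CD

section nw

variable (p m : ℕ) [Fact p.Prime]

/-- the Nisan-Wigderson polynomial -/
noncomputable def NWp (R : Type) [CommRing R] : MvPolynomial (ZMod p × ZMod p) R :=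
  ∑ a : Fin m → ZMod p, ∏ i, MvPolynomial.X (i, ev p m a i)

variable {p m}

theorem NWp_eq (hm : m ≤ p) (R : Type) [CommRing R] : NWp p m R = codeQ (RS p m) R := by
  unfold NWp codeQ RS
  rw [sum_image fun a _ b _ h => ev_injective hm h]

/-- **the core inequality** -/
theorem core_nw (hp : 2000 ≤ p) (hm : 2 * m ≤ p) (hm8 : p ≤ 8 * m + 8)
    {K Γ : Type} [Field K] [LinearOrderedCommGroupWithZero Γ] (v : Valuation K Γ)
    (hv : ∀ n : ℕ, n ≠ 0 → v n = 1) {T S w w0 k r : ℕ} {θ q : ℝ} {X Y : ℕ → ℝ}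
    (f : Fin T → Fin S → MvPolynomial (ZMod p × ZMod p) K) (hS : 1 ≤ S) (hw : 1 ≤ w)
    (hw0 : 1 ≤ w0) (hf : ∀ i j, f i j ∈ Cls w0 w S k)
    (hcl : ∀ μ, v (MvPolynomial.coeff μ ((∑ i, ∏ j, f i j) - NWp p m K)) < 1)
    (hr : 1 ≤ r) (hr2 : 2 * r ≤ p) (hθ0 : 0 < θ) (hθ : 20 * θ ≤ Real.log p)
    (hθp : 8 * Real.exp θ ≤ p) (hq0 : 0 < q) (hq1 : q ≤ 1) (hbal : θ * r ≤ θ * q * (p - r : ℕ))
    (hX : ∀ i, 0 < X i) (hY : ∀ i, 0 < Y i) (hX0 : X 0 = 1) (hY0 : Y 0 = 1)
    (hnum : ∀ i ≤ 2 * k, NumD p (S * ((p : ℕ) + 1) ^ (8 * (w0 + w) + 16))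
        (Real.exp θ) (Real.exp (θ * q)) (X i) (Y i) (X (i + 1)) (Y (i + 1))) :
    Real.exp θ ^ r ≤ T * (((p : ℝ) + 1) ^ 16 * (X (2 * k + 1) ^ r * Y (2 * k + 1) ^ (p - r))) *
      (p * Real.exp (6 * Real.exp θ)) := by
  classical
  obtain ⟨s, _, hs⟩ := exists_subset_card_eq (s := (univ : Finset (ZMod p))) (n := r) (by
    rw [card_univ, ZMod.card]
    omega)
  obtain ⟨E, hE⟩ : ∃ E, E = p - r := ⟨_, rfl⟩
  have hrE : r + E = p := by omega
  have hmp : m ≤ p := by omega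
  rw [NWp_eq hmp] at hcl
  obtain ⟨ty, hty⟩ : ∃ ty : ZMod p × ZMod p → Bool, ty = rty (tyS s) := ⟨_, rfl⟩
  have hnU : nU ty = r * p := by rw [hty, nU_tyS, hs]
  have hnV : nV ty = E * p := by rw [hty, nV_tyS, hs, hE]
  have h1U : 1 ≤ nU ty := by
    rw [hnU]
    exact Nat.mul_pos (by omega) (by omega)
  have h1V : 1 ≤ nV ty := by
    rw [hnV]
    exact Nat.mul_pos (by omega) (by omega)
  obtain ⟨LU, h2r, hL2, hL4⟩ := exists_LU (r := r) (n := p) (H := Real.exp θ) hr (by omega)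
    (Real.one_lt_exp_iff.2 hθ0) hθp
  obtain ⟨LV, hL3, hL5⟩ := exists_LV (mul_pos hθ0 hq0) h1V
  have hrt : r = (univ.filter fun i : ZMod p => tyS s i = true).card := by rw [tyS_true, hs]
  have hEt : E = (univ.filter fun i : ZMod p => tyS s i = false).card := by
    rw [tyS_false, card_compl, ZMod.card, hs, hE]
  have hmapK : MvPolynomial.map (Int.castRingHom K) (codeQ (RS p m) ℤ) = codeQ (RS p m) K :=
    map_codeQ _ _
  have hmapR : MvPolynomial.map (Int.castRingHom ℝ) (codeQ (RS p m) ℤ) = codeQ (RS p m) ℝ :=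
    map_codeQ _ _
  -- the count
  have hcount := code_count (A := ZMod p) (tyS s) (RS p m) (LU := LU) (LV := LV) (r := r) (E := E)
    hrt hEt h2r (oU := Real.exp (θ + 4 * Real.exp θ / p)) (oV := Real.exp (-(θ * q)))
    (Real.exp_pos _).le (Real.exp_pos _).le (by rw [← hty]; exact h1U)
    (by rw [← hty]; exact h1V) (by rw [← hty, hnU, Real.exp_add]; exact hL4)
    (by rw [← hty]; exact hL5)
  rw [← hty] at hcount
  have hZB := ZB_RS (p := p) (k := m) (tyS s) (by omega) hmp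
    (oU := Real.exp (θ + 4 * Real.exp θ / p)) (oV := Real.exp (-(θ * q)))
    (Real.exp_pos _).le (Real.exp_pos _).le
  have e1 : ∀ i : ZMod p, (1 + (if tyS s i then Real.exp (θ + 4 * Real.exp θ / p) else
      Real.exp (-(θ * q))) * (1 / (p : ℝ))) = if tyS s i then
        (1 + Real.exp (θ + 4 * Real.exp θ / p) * (1 / (p : ℝ))) else
        (1 + Real.exp (-(θ * q)) * (1 / (p : ℝ))) := by
    intro i
    split_ifs <;> rfl
  have e2 : ∀ i : ZMod p, ((if tyS s i then Real.exp (θ + 4 * Real.exp θ / p) else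
      Real.exp (-(θ * q))) + 1 / (p : ℝ)) = if tyS s i then
        (Real.exp (θ + 4 * Real.exp θ / p) + 1 / (p : ℝ)) else
        (Real.exp (-(θ * q)) + 1 / (p : ℝ)) := by
    intro i
    split_ifs <;> rfl
  have e3 : ∀ i : ZMod p, (1 + if tyS s i then Real.exp (θ + 4 * Real.exp θ / p) else
      Real.exp (-(θ * q))) = if tyS s i then
        (1 + Real.exp (θ + 4 * Real.exp θ / p)) else (1 + Real.exp (-(θ * q))) := by
    intro i
    split_ifs <;> rfl
  rw [prod_congr rfl fun i _ => e1 i, prod_congr rfl fun i _ => e2 i,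
    prod_congr rfl fun i _ => e3 i, prod_tyS, prod_tyS, prod_tyS, hs, ← hE] at hZB
  have hnum' := ZZ_num (n := p) (r := r) (E := E) (k := m) (θ := θ) (q := q) (H := Real.exp θ) hp
    hrE hr2 rfl hθ0 hq0 hq1 hθ hθp (by rw [hE]; exact hbal) hm8
  have hM0 : (0 : ℝ) < ((RS p m).card : ℝ) ^ 2 := by
    have h1 : 0 < (RS p m).card := RS_nonempty.card_pos
    exact pow_pos (Nat.cast_pos.2 h1) 2
  have hZ : ZB (tyS s) (RS p m) (Real.exp (θ + 4 * Real.exp θ / p)) (Real.exp (-(θ * q))) ≤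
      ((RS p m).card : ℝ) ^ 2 * (p * Real.exp (6 * Real.exp θ)) :=
    hZB.trans (mul_le_mul_of_nonneg_left hnum' hM0.le)
  have hcount' : (((nU ty).multichoose LU * (nV ty).multichoose LV : ℕ) : ℝ) ≤
      ((opM ty (MvPolynomial.map (Int.castRingHom ℝ) (codeQ (RS p m) ℤ)) LU LV (LU - r)
        (LV + E)).rank : ℝ) * (p * Real.exp (6 * Real.exp θ)) := by
    rw [hmapR]
    have h1 := hcount.trans (mul_le_mul_of_nonneg_left hZ (Nat.cast_nonneg _))
    have h2 : ∀ a b c d : ℝ, 0 < b → a * b ≤ c * (b * d) → a ≤ c * d := by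
      intro a b c d hb hab
      refine le_of_mul_le_mul_right ?_ hb
      linarith
    exact h2 _ _ _ _ hM0 h1
  have h1 := core_gen (r := r) (E := E) (HU := Real.exp θ) (HV := Real.exp (θ * q))
    (Z := p * Real.exp (6 * Real.exp θ)) ty (codeQ (RS p m) ℤ) v hv f hS hw hw0 hf
    (by rw [hmapK]; exact hcl)
    (fun c => by
      rw [hmapK]
      have h2 := cf_PhiX_codeQ (K := K) (tyS s) (RS p m) hrt hEt c
      rwa [← hty] at h2)
    (Real.exp_pos _) (Real.exp_pos _) hX hY hX0 hY0 (by rw [hrE]; exact hnum)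
    (by omega) h1U h1V (by rw [hnU]; exact hL2) hL3 (by positivity) hcount'
  rw [hrE] at h1
  rw [← hE]
  exact h1

end nw

end Pool.CT
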