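import Pool.Agent.CT.Final
import Pool.Agent.CT.CoreAvg

/-!
# CT: correlations with the Nisan-Wigderson polynomial, class form
-/

set_option autoImplicit false

namespace Pool.CT

open Finset Pool.XD Pool.XP Pool.XG Pool.Agent.Helper87.D3 Pool.Agent.Helper41.CD

section

variable {p m : ℕ} [Fact p.Prime]

/-- **the core inequality** for correlations -/
theorem core_nw_avg (hp : 2000 ≤ p) (hm : 2 * m ≤ p) (hm8 : p ≤ 8 * m + 8)
    {T S w w0 k r : ℕ} {θ q N : ℝ} {X Y : ℕ → ℝ}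
    (f : Fin T → Fin S → MvPolynomial (ZMod p × ZMod p) ℂ) (hS : 1 ≤ S) (hw : 1 ≤ w)
    (hw0 : 1 ≤ w0) (hf : ∀ i j, f i j ∈ Cls w0 w S k)
    (hl : 0 < l2 (∑ i, ∏ j, f i j))
    (hcl : (RS p m).card * l2 (∑ i, ∏ j, f i j) ≤ N * ‖corr (RS p m) (∑ i, ∏ j, f i j)‖ ^ 2)
    (hr : 1 ≤ r) (hr2 : 2 * r ≤ p) (hθ0 : 0 < θ) (hθ : 20 * θ ≤ Real.log p)
    (hθp : 8 * Real.exp θ ≤ p) (hq0 : 0 < q) (hq1 : q ≤ 1) (hbal : θ * r ≤ θ * q * (p - r : ℕ))
    (hX : ∀ i, 0 < X i) (hY : ∀ i, 0 < Y i) (hX0 : X 0 = 1) (hY0 : Y 0 = 1)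
    (hnum : ∀ i ≤ 2 * k, NumD p (S * ((p : ℕ) + 1) ^ (8 * (w0 + w) + 16))
        (Real.exp θ) (Real.exp (θ * q)) (X i) (Y i) (X (i + 1)) (Y (i + 1))) :
    Real.exp θ ^ r ≤ (T * N ^ 2) * (((p : ℝ) + 1) ^ 16 *
      (X (2 * k + 1) ^ r * Y (2 * k + 1) ^ (p - r))) * (p * Real.exp (6 * Real.exp θ)) := by
  classical
  obtain ⟨s, _, hs⟩ := exists_subset_card_eq (s := (univ : Finset (ZMod p))) (n := r) (by
    rw [card_univ, ZMod.card]
    omega)
  obtain ⟨E, hE⟩ : ∃ E, E = p - r := ⟨_, rfl⟩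
  have hrE : r + E = p := by omega
  have hmp : m ≤ p := by omega
  have hnU : nU (rty (tyS s) : ZMod p × ZMod p → Bool) = r * p := by rw [nU_tyS, hs]
  have hnV : nV (rty (tyS s) : ZMod p × ZMod p → Bool) = E * p := by rw [nV_tyS, hs, hE]
  have h1U : 1 ≤ nU (rty (tyS s) : ZMod p × ZMod p → Bool) := by
    rw [hnU]
    exact Nat.mul_pos (by omega) (by omega)
  have h1V : 1 ≤ nV (rty (tyS s) : ZMod p × ZMod p → Bool) := by
    rw [hnV]
    exact Nat.mul_pos (by omega) (by omega)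
  obtain ⟨LU, h2r, hL2, hL4⟩ := exists_LU (r := r) (n := p) (H := Real.exp θ) hr (by omega)
    (Real.one_lt_exp_iff.2 hθ0) hθp
  obtain ⟨LV, hL3, hL5⟩ := exists_LV (mul_pos hθ0 hq0) h1V
  have hrt : r = (univ.filter fun i : ZMod p => tyS s i = true).card := by rw [tyS_true, hs]
  have hEt : E = (univ.filter fun i : ZMod p => tyS s i = false).card := by
    rw [tyS_false, card_compl, ZMod.card, hs, hE]
  have hZB := ZB_RS (p := p) (k := m) (tyS s) (by omega) hmp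
    (oU := Real.exp (θ + 4 * Real.exp θ / p)) (oV := Real.exp (-(θ * q)))
    (Real.exp_pos _).le (Real.exp_pos _).le
  have e1 : ∀ i : ZMod p, (1 + (if tyS s i then Real.exp (θ + 4 * Real.exp θ / p) else
      Real.exp (-(θ * q))) * (1 / (p : ℝ))) = if tyS s i then
        (1 + Real.exp (θ + 4 * Real.exp θ / p) * (1 / (p : ℝ))) else
        (1 + Real.exp (-(θ * q)) * (1 / (p : ℝ))) := by
    intro i
    split_ifs <;> rfl
  have e2 : ∀ i : ZMod p, ((if tyS s i then Real.exp (θ + 4 * Real.exp θ / p) else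
      Real.exp (-(θ * q))) + 1 / (p : ℝ)) = if tyS s i then
        (Real.exp (θ + 4 * Real.exp θ / p) + 1 / (p : ℝ)) else
        (Real.exp (-(θ * q)) + 1 / (p : ℝ)) := by
    intro i
    split_ifs <;> rfl
  have e3 : ∀ i : ZMod p, (1 + if tyS s i then Real.exp (θ + 4 * Real.exp θ / p) else
      Real.exp (-(θ * q))) = if tyS s i then
        (1 + Real.exp (θ + 4 * Real.exp θ / p)) else (1 + Real.exp (-(θ * q))) := by
    intro i
    split_ifs <;> rfl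
  rw [prod_congr rfl fun i _ => e1 i, prod_congr rfl fun i _ => e2 i,
    prod_congr rfl fun i _ => e3 i, prod_tyS, prod_tyS, prod_tyS, hs, ← hE] at hZB
  have hnum' := ZZ_num (n := p) (r := r) (E := E) (k := m) (θ := θ) (q := q) (H := Real.exp θ) hp
    hrE hr2 rfl hθ0 hq0 hq1 hθ hθp (by rw [hE]; exact hbal) hm8
  have hM0 : (0 : ℝ) ≤ ((RS p m).card : ℝ) ^ 2 := by positivity
  have h1 := core_avg (r := r) (E := E) (HU := Real.exp θ) (HV := Real.exp (θ * q))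
    (Z := p * Real.exp (6 * Real.exp θ)) (tyS s) (RS p m) RS_nonempty f hS hw hw0 hf hl hcl
    (Real.exp_pos _) (Real.exp_pos _) hX hY hX0 hY0 (by rw [hrE]; exact hnum) hrt hEt h2r h1U h1V
    (by rw [hnU]; exact hL2) hL3
    (oU := Real.exp (θ + 4 * Real.exp θ / p)) (oV := Real.exp (-(θ * q)))
    (Real.exp_pos _).le (Real.exp_pos _).le
    (by rw [hnU, Real.exp_add]; exact hL4) hL5
    (hZB.trans (mul_le_mul_of_nonneg_left hnum' hM0))
  rw [hrE] at h1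
  rw [← hE]
  exact h1

/-- **the Nisan-Wigderson polynomial is far from all sums of products of the class** -/
theorem nw_far {ε : ℝ} (hε : 0 < ε) (hε1 : ε ≤ 1 / 20)
    (hm : 2 * m ≤ p) (hm8 : p ≤ 8 * m + 8) {k : ℕ}
    {T S w w0 : ℕ} (f : Fin T → Fin S → MvPolynomial (ZMod p × ZMod p) ℂ)
    (hT : 1 ≤ T) (hS : 2 ≤ S) (hw : 1 ≤ w) (hw0 : 1 ≤ w0)
    (hf : ∀ i j, f i j ∈ Cls w0 w S k) {N : ℝ} (hN : 1 ≤ N)
    (hlt : 2000 / ε * (Real.log (T * N ^ 2) / Real.log p + (p : ℝ) ^ ε) *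
      (2000 / ε * (Real.log S / Real.log p + (w + w0))) ^ (Nat.fib (2 * k + 4) - 2) < p)
    (γ : ℂ) :
    ‖γ‖ ^ 2 * ((1 - 1 / N) * (p : ℝ) ^ m) ≤
      l2 ((∑ i, ∏ j, f i j) - MvPolynomial.C γ * NWp p m ℂ) := by
  have hmp : m ≤ p := by omega
  have hTr : (1 : ℝ) ≤ T := by exact_mod_cast hT
  have hTN : (1 : ℝ) ≤ T * N ^ 2 := one_le_mul_of_one_le_of_one_le hTr (one_le_pow₀ hN)
  by_contra hcon
  rw [not_le, NWp_eq hmp] at hcon
  rcases Nat.lt_or_ge p 2000 with hps | hps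
  · exact absurd (nw_small (T := T * N ^ 2) hε hε1 (Fact.out : p.Prime).two_le hps hTN hS hw hw0)
      (not_le.2 hlt)
  obtain ⟨θ, q, r, X, Y, hr1, h2r, hθ0, hθ20, hθp, hq0, hq1, hbal, hX, hY, hX0, hY0, hnum, hfin⟩ :=
    nw_numbers ε hε hε1 p k S w w0 hps hS hw hw0
  have hN0 : 0 < N := by linarith
  have h2 := corr_of_close' (∑ i, ∏ j, f i j) (codeQ (RS p m) ℂ) γ (τ := 1 / N)
    (by positivity) (by
      rw [l2_codeQ, card_RS hmp]
      push_cast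
      calc _ < ‖γ‖ ^ 2 * ((1 - 1 / N) * (p : ℝ) ^ m) := hcon
        _ = _ := by ring)
  rw [corr_eq, l2_codeQ] at h2
  have h3 : ((RS p m).card : ℝ) * l2 (∑ i, ∏ j, f i j) ≤
      N * ‖corr (RS p m) (∑ i, ∏ j, f i j)‖ ^ 2 := by
    have h4 := mul_le_mul_of_nonneg_left h2.2 hN0.le
    calc ((RS p m).card : ℝ) * l2 (∑ i, ∏ j, f i j) =
        N * (1 / N * (RS p m).card * l2 (∑ i, ∏ j, f i j)) := by
          field_simp
      _ ≤ _ := h4
  exact absurd (hfin (T * N ^ 2) hTN (core_nw_avg hps hm hm8 f (by omega) hw hw0 hf h2.1 h3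
    hr1 h2r hθ0 hθ20 hθp hq0 hq1 hbal hX hY hX0 hY0 hnum)) (not_le.2 hlt)

end

end Pool.CT
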