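import Pool.Agent.CT.RS
import Pool.Agent.XD.Par

/-!
# CT: types, degrees and the numerical bound for the exchanges
-/

set_option autoImplicit false

namespace Pool.CT

open Finset Pool.XD Pool.XP

section types

variable {p : ℕ} [Fact p.Prime]

/-- the first type for the blocks in `s` -/
def tyS (s : Finset (ZMod p)) (i : ZMod p) : Bool := decide (i ∈ s)

theorem tyS_true (s : Finset (ZMod p)) :
    (univ.filter fun i : ZMod p => tyS s i = true) = s := by
  ext i
  simp [tyS]

theorem tyS_false (s : Finset (ZMod p)) :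
    (univ.filter fun i : ZMod p => tyS s i = false) = sᶜ := by
  ext i
  simp [tyS]

theorem card_filter_rty {I A : Type} [Fintype I] [Fintype A] (ty : I → Bool) (t : Bool) :
    (univ.filter fun l : I × A => rty ty l = t).card =
      (univ.filter fun i : I => ty i = t).card * Fintype.card A := by
  classical
  have h : (univ.filter fun l : I × A => rty ty l = t) =
      (univ.filter fun i : I => ty i = t) ×ˢ (univ : Finset A) := by
    ext ⟨i, c⟩
    simp only [mem_filter, mem_univ, true_and, mem_product, and_true]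
    rfl
  rw [h, card_product, card_univ]

theorem nU_tyS (s : Finset (ZMod p)) :
    nU (rty (tyS s) : ZMod p × ZMod p → Bool) = s.card * p := by
  unfold nU
  rw [card_filter_rty, tyS_true, ZMod.card]

theorem nV_tyS (s : Finset (ZMod p)) :
    nV (rty (tyS s) : ZMod p × ZMod p → Bool) = (p - s.card) * p := by
  unfold nV
  rw [card_filter_rty, tyS_false, card_compl, ZMod.card]

theorem prod_tyS (s : Finset (ZMod p)) (a b : ℝ) :
    ∏ i, (if tyS s i then a else b) = a ^ s.card * b ^ (p - s.card) := by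
  rw [← prod_filter_mul_prod_filter_not univ (fun i => tyS s i = true)]
  congr 1
  · rw [prod_congr rfl (g := fun _ => a) fun i hi => by rw [if_pos (mem_filter.1 hi).2], prod_const,
      tyS_true]
  · rw [prod_congr rfl (g := fun _ => b) fun i hi => by rw [if_neg (mem_filter.1 hi).2], prod_const]
    have h : (univ.filter fun i : ZMod p => ¬ tyS s i = true) = sᶜ := by
      rw [← tyS_false]
      ext i
      simp
    rw [h, card_compl, ZMod.card]

end types

/-- **the degree of the letters of the first type** -/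
theorem exists_LU {r n : ℕ} {H : ℝ} (hr : 1 ≤ r) (hn : 16 ≤ n) (hH : 1 < H) (hHn : 8 * H ≤ n) :
    ∃ LU : ℕ, 2 * r ≤ LU ∧ H * LU ≤ (r * n : ℕ) + LU - 1 ∧
      ((r * n : ℕ) : ℝ) + LU - r ≤ H * Real.exp (4 * H / n) * (LU - r + 1) := by
  have hrr : (1 : ℝ) ≤ r := by exact_mod_cast hr
  have hnr : (16 : ℝ) ≤ n := by exact_mod_cast hn
  have hH1 : 0 < H - 1 := by linarith
  obtain ⟨N, hN⟩ : ∃ N : ℝ, N = ((r * n : ℕ) : ℝ) := ⟨_, rfl⟩
  have hNr : N = r * n := by
    rw [hN]
    push_cast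
    ring
  have hN16 : 16 * (r : ℝ) ≤ N := by
    rw [hNr]
    nlinarith
  rw [← hN]
  obtain ⟨z, hz⟩ : ∃ z : ℝ, z = (N - 1) / (H - 1) := ⟨_, rfl⟩
  have hz0 : 0 ≤ z := by
    rw [hz]
    apply div_nonneg _ hH1.le
    linarith
  have hzN : z * (H - 1) = N - 1 := by
    rw [hz]
    field_simp
  obtain ⟨LU, hLU⟩ : ∃ LU : ℕ, LU = ⌊z⌋₊ := ⟨_, rfl⟩
  have h1 : (LU : ℝ) ≤ z := by rw [hLU]; exact Nat.floor_le hz0
  have h2 : z < LU + 1 := by rw [hLU]; exact Nat.lt_floor_add_one z
  have h3 : (LU : ℝ) * (H - 1) ≤ N - 1 := by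
    rw [← hzN]
    exact mul_le_mul_of_nonneg_right h1 hH1.le
  have h4 : N - 1 ≤ (LU + 1) * (H - 1) := by
    rw [← hzN]
    exact mul_le_mul_of_nonneg_right h2.le hH1.le
  have h2r : 2 * r ≤ LU := by
    rw [hLU]
    apply Nat.le_floor
    rw [hz, le_div_iff₀ hH1]
    push_cast
    have h5 : 2 * (r : ℝ) * (H - 1) ≤ 2 * r * (n / 8) :=
      mul_le_mul_of_nonneg_left (by linarith) (by linarith)
    have h6 : 2 * (r : ℝ) * (n / 8) = N / 4 := by rw [hNr]; ring
    linarith
  refine ⟨LU, h2r, by linarith, ?_⟩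
  have h2rr : 2 * (r : ℝ) ≤ LU := by exact_mod_cast h2r
  have h5 : 1 + 4 * H / n ≤ Real.exp (4 * H / n) := by
    have := Real.add_one_le_exp (4 * H / n)
    linarith
  have hLr : (0 : ℝ) ≤ LU - r + 1 := by linarith
  have h6 : H * (1 + 4 * H / n) * (LU - r + 1) ≤ H * Real.exp (4 * H / n) * (LU - r + 1) :=
    mul_le_mul_of_nonneg_right (mul_le_mul_of_nonneg_left h5 (by linarith)) hLr
  refine le_trans ?_ h6
  -- `(4 H / n) (LU + 1 - r) ≥ r`
  have hn0 : (0 : ℝ) < n := by linarith
  have h7 : (r : ℝ) ≤ 4 * H / n * (LU - r + 1) := by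
    rw [div_mul_eq_mul_div, le_div_iff₀ hn0]
    have h8 : (LU : ℝ) + 1 ≤ 2 * (LU - r + 1) := by linarith
    have h9 : N - 1 ≤ (LU + 1) * H := by
      refine h4.trans (mul_le_mul_of_nonneg_left (by linarith) (by positivity))
    have h10 : (r : ℝ) * n ≤ 2 * (N - 1) := by
      rw [← hNr]
      linarith
    have h11 : (LU + 1) * H ≤ 2 * (LU - r + 1) * H := mul_le_mul_of_nonneg_right h8 (by linarith)
    linarith
  have h12 : H * (r : ℝ) ≤ H * (4 * H / n * (LU - r + 1)) :=
    mul_le_mul_of_nonneg_left h7 (by linarith)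
  have h13 : H * (1 + 4 * H / n) * (LU - r + 1) = H * (LU - r + 1) +
      H * (4 * H / n * (LU - r + 1)) := by ring
  rw [h13]
  linarith

/-- products of factors close to one -/
theorem one_add_pow_le {a : ℝ} (ha : 0 ≤ a) (m : ℕ) : (1 + a) ^ m ≤ Real.exp (m * a) := by
  rw [Real.exp_nat_mul]
  refine pow_le_pow_left₀ (by linarith) ?_ m
  have := Real.add_one_le_exp a
  linarith

/-- **the numerical bound for the exchanges** -/
theorem ZZ_num {n r E k : ℕ} {θ q H : ℝ} (hn : 2000 ≤ n) (hrE : r + E = n) (hrE2 : 2 * r ≤ n)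
    (hH : H = Real.exp θ) (hθ0 : 0 < θ) (hq0 : 0 < q) (hq1 : q ≤ 1)
    (hθ : 20 * θ ≤ Real.log n) (hHn : 8 * H ≤ n) (hbal : θ * r ≤ θ * q * E)
    (hk : n ≤ 8 * k + 8) :
    (1 + Real.exp (θ + 4 * H / n) * (1 / (n : ℝ))) ^ r *
        (1 + Real.exp (-(θ * q)) * (1 / (n : ℝ))) ^ E +
      (Real.exp (θ + 4 * H / n) + 1 / (n : ℝ)) ^ r * (Real.exp (-(θ * q)) + 1 / (n : ℝ)) ^ E +
      2 * ((1 / (n : ℝ)) ^ k * ((1 + Real.exp (θ + 4 * H / n)) ^ r *
        (1 + Real.exp (-(θ * q))) ^ E)) ≤ n * Real.exp (6 * H) := by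
  have hnr : (2000 : ℝ) ≤ n := by exact_mod_cast hn
  have hn0 : (0 : ℝ) < n := by linarith
  have hH1 : 1 ≤ H := by
    rw [hH]
    exact Real.one_le_exp hθ0.le
  have hrr : 2 * (r : ℝ) ≤ n := by exact_mod_cast hrE2
  have hEn : (E : ℝ) ≤ n := by
    have : E ≤ n := by omega
    exact_mod_cast this
  have hδ0 : 0 ≤ 4 * H / n := by positivity
  have hδ : 4 * H / n ≤ 1 / 2 := by
    rw [div_le_iff₀ hn0]
    linarith
  obtain ⟨a, ha⟩ : ∃ a : ℝ, a = Real.exp (θ + 4 * H / n) := ⟨_, rfl⟩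
  obtain ⟨b, hb⟩ : ∃ b : ℝ, b = Real.exp (-(θ * q)) := ⟨_, rfl⟩
  rw [← ha, ← hb]
  have ha1 : 1 ≤ a := by
    rw [ha]
    exact Real.one_le_exp (by linarith)
  have ha2 : a ≤ 2 * H := by
    rw [ha, Real.exp_add, ← hH, mul_comm]
    have h1 : Real.exp (4 * H / n) ≤ Real.exp (1 / 2) := Real.exp_le_exp.2 hδ
    have h2 : Real.exp (1 / 2) ≤ 2 := by
      have h3 : Real.exp (1 / 2) * Real.exp (1 / 2) = Real.exp 1 := by
        rw [← Real.exp_add]
        norm_num
      have h4 := Real.exp_one_lt_d9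
      have h5 := Real.exp_pos (1 / 2)
      nlinarith
    exact mul_le_mul_of_nonneg_right (h1.trans h2) (by linarith)
  have hb0 : 0 < b := by rw [hb]; exact Real.exp_pos _
  have hb1 : b ≤ 1 := by
    rw [hb]
    apply Real.exp_le_one_iff.2
    have : 0 < θ * q := mul_pos hθ0 hq0
    linarith
  have hbinv : 1 / b ≤ H := by
    rw [hb, Real.exp_neg, one_div, inv_inv, hH]
    exact Real.exp_le_exp.2 (mul_le_of_le_one_right hθ0.le hq1)
  have ha0 : 0 < a := by linarith
  -- the first term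
  have hA1 : (1 + a * (1 / (n : ℝ))) ^ r * (1 + b * (1 / (n : ℝ))) ^ E ≤ Real.exp (H + 1) := by
    have h1 := one_add_pow_le (show 0 ≤ a * (1 / (n : ℝ)) by positivity) r
    have h2 := one_add_pow_le (show 0 ≤ b * (1 / (n : ℝ)) by positivity) E
    rw [Real.exp_add]
    refine mul_le_mul (h1.trans (Real.exp_le_exp.2 ?_)) (h2.trans (Real.exp_le_exp.2 ?_))
      (by positivity) (Real.exp_pos _).le
    · rw [mul_one_div, mul_div_assoc', div_le_iff₀ hn0]
      have h3 : (r : ℝ) * a ≤ r * (2 * H) := mul_le_mul_of_nonneg_left ha2 (Nat.cast_nonneg _)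
      have h4 : 2 * (r : ℝ) * H ≤ n * H := mul_le_mul_of_nonneg_right hrr (by linarith)
      linarith
    · rw [mul_one_div, mul_div_assoc', div_le_iff₀ hn0]
      have h3 : (E : ℝ) * b ≤ E * 1 := mul_le_mul_of_nonneg_left hb1 (Nat.cast_nonneg _)
      linarith
  -- the product of the weights
  have hab : a ^ r * b ^ E ≤ Real.exp (2 * H) := by
    rw [ha, hb, ← Real.exp_nat_mul, ← Real.exp_nat_mul, ← Real.exp_add]
    apply Real.exp_le_exp.2
    have h1 : (r : ℝ) * (4 * H / n) ≤ 2 * H := by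
      rw [mul_div_assoc', div_le_iff₀ hn0]
      have : 2 * (r : ℝ) * H ≤ n * H := mul_le_mul_of_nonneg_right hrr (by linarith)
      linarith
    linarith
  -- the second term
  have hA2 : (a + 1 / (n : ℝ)) ^ r * (b + 1 / (n : ℝ)) ^ E ≤ Real.exp (3 * H + 1) := by
    have h1 : a + 1 / (n : ℝ) ≤ a * (1 + 1 / (n : ℝ)) := by
      have : 1 * (1 / (n : ℝ)) ≤ a * (1 / (n : ℝ)) := mul_le_mul_of_nonneg_right ha1 (by positivity)
      linarith
    have h2 : b + 1 / (n : ℝ) ≤ b * (1 + H * (1 / (n : ℝ))) := by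
      have h3 : 1 ≤ b * H := by
        rw [div_le_iff₀ hb0] at hbinv
        linarith
      have : 1 * (1 / (n : ℝ)) ≤ b * H * (1 / (n : ℝ)) :=
        mul_le_mul_of_nonneg_right h3 (by positivity)
      linarith
    have h3 := one_add_pow_le (show 0 ≤ 1 / (n : ℝ) by positivity) r
    have h4 := one_add_pow_le (show 0 ≤ H * (1 / (n : ℝ)) by positivity) E
    have h5 : Real.exp (r * (1 / (n : ℝ))) ≤ Real.exp 1 := by
      apply Real.exp_le_exp.2
      rw [mul_one_div, div_le_iff₀ hn0]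
      linarith [(Nat.cast_nonneg r : (0 : ℝ) ≤ r)]
    have h6 : Real.exp (E * (H * (1 / (n : ℝ)))) ≤ Real.exp H := by
      apply Real.exp_le_exp.2
      rw [mul_one_div, mul_div_assoc', div_le_iff₀ hn0, mul_comm]
      exact mul_le_mul_of_nonneg_left hEn (by linarith)
    calc (a + 1 / (n : ℝ)) ^ r * (b + 1 / (n : ℝ)) ^ E
        ≤ (a * (1 + 1 / (n : ℝ))) ^ r * (b * (1 + H * (1 / (n : ℝ)))) ^ E :=
          mul_le_mul (pow_le_pow_left₀ (by positivity) h1 r)
            (pow_le_pow_left₀ (by positivity) h2 E) (by positivity) (by positivity)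
      _ = (a ^ r * b ^ E) * ((1 + 1 / (n : ℝ)) ^ r * (1 + H * (1 / (n : ℝ))) ^ E) := by
          rw [mul_pow, mul_pow]
          ring
      _ ≤ Real.exp (2 * H) * (Real.exp 1 * Real.exp H) :=
          mul_le_mul hab (mul_le_mul (h3.trans h5) (h4.trans h6) (by positivity)
            (Real.exp_pos _).le) (by positivity) (Real.exp_pos _).le
      _ = Real.exp (3 * H + 1) := by
          rw [← Real.exp_add, ← Real.exp_add]
          congr 1
          ring
  -- the third term
  have hlogn : 7 ≤ Real.log n := by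
    have h1 : Real.exp 7 ≤ n := by
      have h2 : Real.exp 7 = Real.exp 1 ^ 7 := by
        rw [← Real.exp_nat_mul]
        norm_num
      rw [h2]
      have h3 := Real.exp_one_lt_d9
      have h4 : Real.exp 1 ^ 7 ≤ (2.7182818286 : ℝ) ^ 7 :=
        pow_le_pow_left₀ (Real.exp_pos 1).le h3.le 7
      refine h4.trans (le_trans ?_ hnr)
      norm_num
    rw [Real.le_log_iff_exp_le hn0]
    exact h1
  have hA3 : (1 / (n : ℝ)) ^ k * ((1 + a) ^ r * (1 + b) ^ E) ≤ n * Real.exp (2 * H) := by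
    have h1 : (1 + a) ^ r ≤ (2 : ℝ) ^ r * a ^ r := by
      rw [← mul_pow]
      exact pow_le_pow_left₀ (by positivity) (by linarith) r
    have h2 : (1 + b) ^ E ≤ (2 : ℝ) ^ E := pow_le_pow_left₀ (by positivity) (by linarith) E
    have h3 : a ^ r ≤ Real.exp (θ * r + 2 * H) := by
      rw [ha, ← Real.exp_nat_mul]
      apply Real.exp_le_exp.2
      have h4 : (r : ℝ) * (4 * H / n) ≤ 2 * H := by
        rw [mul_div_assoc', div_le_iff₀ hn0]
        have : 2 * (r : ℝ) * H ≤ n * H := mul_le_mul_of_nonneg_right hrr (by linarith)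
        linarith
      linarith
    have h5 : (1 / (n : ℝ)) ^ k = Real.exp (-(k * Real.log n)) := by
      rw [one_div, inv_pow, Real.exp_neg, Real.exp_nat_mul, Real.exp_log hn0]
    have h6 : (2 : ℝ) ^ n = Real.exp (n * Real.log 2) := by
      rw [Real.exp_nat_mul, Real.exp_log (by norm_num)]
    have h7 : (n : ℝ) ≤ 8 * k + 8 := by exact_mod_cast hk
    calc (1 / (n : ℝ)) ^ k * ((1 + a) ^ r * (1 + b) ^ E)
        ≤ (1 / (n : ℝ)) ^ k * (((2 : ℝ) ^ r * Real.exp (θ * r + 2 * H)) * (2 : ℝ) ^ E) :=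
          mul_le_mul_of_nonneg_left (mul_le_mul (h1.trans (mul_le_mul_of_nonneg_left h3
            (by positivity))) h2 (by positivity) (by positivity)) (by positivity)
      _ = (1 / (n : ℝ)) ^ k * ((2 : ℝ) ^ n * Real.exp (θ * r + 2 * H)) := by
          rw [← hrE, pow_add]
          ring
      _ = Real.exp (-(k * Real.log n) + (n * Real.log 2 + (θ * r + 2 * H))) := by
          rw [h5, h6, ← Real.exp_add, ← Real.exp_add]
      _ ≤ Real.exp (Real.log n + 2 * H) := by
          apply Real.exp_le_exp.2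
          have h8 : θ * r ≤ Real.log n / 40 * n := by
            have h9 : θ * r ≤ Real.log n / 20 * r :=
              mul_le_mul_of_nonneg_right (by linarith) (Nat.cast_nonneg _)
            have h10 : Real.log n / 40 * (2 * (r : ℝ)) ≤ Real.log n / 40 * n :=
              mul_le_mul_of_nonneg_left hrr (by linarith)
            linarith
          have h11 : ((n : ℝ) / 8 - 1) * Real.log n ≤ k * Real.log n :=
            mul_le_mul_of_nonneg_right (by linarith) (by linarith)
          have h12 : (n : ℝ) * Real.log 2 ≤ n * (Real.log n / 10) := by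
            apply mul_le_mul_of_nonneg_left _ hn0.le
            have := Real.log_two_lt_d9
            linarith
          nlinarith
      _ = n * Real.exp (2 * H) := by rw [Real.exp_add, Real.exp_log hn0]
  -- the sum
  have e1 : Real.exp (H + 1) ≤ Real.exp (3 * H + 1) := Real.exp_le_exp.2 (by linarith)
  have e2 : Real.exp (3 * H + 1) ≤ 3 * Real.exp (3 * H) := by
    rw [Real.exp_add, mul_comm]
    have := Real.exp_one_lt_d9
    exact mul_le_mul_of_nonneg_right (by linarith) (Real.exp_pos _).le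
  have e3 : Real.exp (2 * H) ≤ Real.exp (3 * H) := Real.exp_le_exp.2 (by linarith)
  have e4 : 3 * Real.exp (3 * H) ≤ Real.exp (6 * H) := by
    have h1 : Real.exp (6 * H) = Real.exp (3 * H) * Real.exp (3 * H) := by
      rw [← Real.exp_add]
      congr 1
      ring
    have h2 : 3 ≤ Real.exp (3 * H) := by
      have := Real.add_one_le_exp (3 * H)
      linarith
    rw [h1]
    exact mul_le_mul_of_nonneg_right h2 (Real.exp_pos _).le
  have e5 : (0 : ℝ) < Real.exp (3 * H) := Real.exp_pos _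
  calc _ ≤ Real.exp (H + 1) + Real.exp (3 * H + 1) + 2 * (n * Real.exp (2 * H)) :=
        add_le_add (add_le_add hA1 hA2) (mul_le_mul_of_nonneg_left hA3 (by norm_num))
    _ ≤ 3 * Real.exp (3 * H) + 3 * Real.exp (3 * H) + 2 * (n * Real.exp (3 * H)) := by
        have : n * Real.exp (2 * H) ≤ n * Real.exp (3 * H) := mul_le_mul_of_nonneg_left e3 hn0.le
        linarith
    _ ≤ n * (3 * Real.exp (3 * H)) := by nlinarith
    _ ≤ n * Real.exp (6 * H) := mul_le_mul_of_nonneg_left e4 hn0.le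

end Pool.CT
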