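import Pool.Agent.CT.Code
import Pool.Agent.XD.Count
import Pool.Agent.XD.Par
import Pool.Agent.XD.Transfer

/-!
# CT: the code of the paths (iterated matrix products)
-/

set_option autoImplicit false

namespace Pool.CT

open Finset Pool.XD Pool.XP

section path

/-- the vertices of the layer `j` -/
def lay (m n : ℕ) (j : Fin (m + 1)) : Finset (Fin n) :=
  if m ∣ (j : ℕ) then univ.filter fun a => a.1 = 0 else univ

/-- the paths -/
def Pth (m n : ℕ) : Finset (Fin (m + 1) → Fin n) := Fintype.piFinset (lay m n)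

/-- the word of a path -/
def wrd {m n : ℕ} (u : Fin (m + 1) → Fin n) (i : Fin m) : Fin n × Fin n := (u i.castSucc, u i.succ)

/-- the words of the paths -/
def POm (m n : ℕ) : Finset (Fin m → Fin n × Fin n) := (Pth m n).image wrd

variable {m n : ℕ}

theorem card_lay (hn : 1 ≤ n) (j : Fin (m + 1)) : (lay m n j).card = wdc m n j := by
  unfold lay wdc
  split_ifs
  · have : (univ.filter fun a : Fin n => a.1 = 0) = {⟨0, hn⟩} := by
      ext a
      simp only [mem_filter, mem_univ, true_and, mem_singleton]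
      exact ⟨fun h => Fin.ext h, fun h => by rw [h]⟩
    rw [this, card_singleton]
  · rw [card_univ, Fintype.card_fin]

theorem wrd_injective (hm : 1 ≤ m) : Function.Injective (wrd : (Fin (m + 1) → Fin n) → _) := by
  intro u v h
  funext j
  rcases Fin.eq_castSucc_or_eq_last j with ⟨i, rfl⟩ | rfl
  · exact congrArg Prod.fst (congrFun h i)
  · obtain ⟨m', rfl⟩ : ∃ m', m = m' + 1 := ⟨m - 1, by omega⟩
    have h1 := congrArg Prod.snd (congrFun h (Fin.last m'))
    simpa [wrd] using h1

theorem card_Pth (hn : 1 ≤ n) : ((Pth m n).card : ℝ) = ∏ j : Fin (m + 1), (wdc m n j : ℝ) := by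
  unfold Pth
  rw [Fintype.card_piFinset]
  push_cast
  exact prod_congr rfl fun j _ => by rw [card_lay hn]

theorem card_POm (hm : 1 ≤ m) : (POm m n).card = (Pth m n).card :=
  card_image_of_injective _ (wrd_injective hm)

theorem card_Pth' (hm : 1 ≤ m) (hn : 1 ≤ n) : (Pth m n).card = n ^ (m - 1) := by
  unfold Pth
  rw [Fintype.card_piFinset, prod_congr rfl fun j _ => card_lay hn j]
  obtain ⟨m', rfl⟩ : ∃ m', m = m' + 1 := ⟨m - 1, by omega⟩
  rw [Fin.prod_univ_succ, Fin.prod_univ_castSucc]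
  have h1 : ∀ j : Fin m', wdc (m' + 1) n ((j.castSucc.succ : Fin (m' + 1 + 1)) : ℕ) = n := by
    intro j
    unfold wdc
    rw [if_neg]
    intro h
    have h2 := Nat.le_of_dvd (by simp) h
    have h3 : ((j.castSucc.succ : Fin (m' + 1 + 1)) : ℕ) = j + 1 := by simp
    rw [h3] at h2
    have := j.2
    omega
  rw [prod_congr rfl fun j _ => h1 j, prod_const, card_univ, Fintype.card_fin]
  have h2 : wdc (m' + 1) n ((0 : Fin (m' + 1 + 1)) : ℕ) = 1 := by
    unfold wdc
    rw [if_pos (by simp)]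
  have h3 : wdc (m' + 1) n (((Fin.last m').succ : Fin (m' + 1 + 1)) : ℕ) = 1 := by
    unfold wdc
    rw [if_pos (by simp)]
  rw [h2, h3]
  simp

theorem POm_nonempty (hm : 1 ≤ m) (hn : 1 ≤ n) : (POm m n).Nonempty := by
  rw [← card_pos, card_POm hm, card_Pth' hm hn]
  exact pow_pos (by omega) _

/-- the assignment of a set of blocks -/
def sg (B : Finset (Fin m)) (i : Fin m) : Bool := decide (i ∈ B)

theorem sg_injective : Function.Injective (sg : Finset (Fin m) → _) := by
  intro B C h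
  ext i
  have := congrFun h i
  unfold sg at this
  simpa using this

/-- exchanging the blocks in `B` of two paths: they meet at the walls -/
theorem meet {u v z : Fin (m + 1) → Fin n} {B : Finset (Fin m)}
    (h : mixB B (wrd u) (wrd v) = wrd z) {j : Fin (m + 1)} (hj : WallA (sg B) j) : u j = v j := by
  obtain ⟨i, i2, h1, h2, h3⟩ := hj
  have e1 := congrFun h i
  have e2 := congrFun h i2
  unfold mixB wrd at e1 e2
  rw [h1] at e1
  rw [h2] at e2
  unfold sg at h3
  by_cases hi : i ∈ B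
  · have hi2 : i2 ∉ B := by
      intro h4
      exact h3 (by simp [hi, h4])
    rw [if_pos hi] at e1
    rw [if_neg hi2] at e2
    exact (congrArg Prod.snd e1).trans (congrArg Prod.fst e2).symm
  · have hi2 : i2 ∈ B := by
      by_contra h4
      exact h3 (by simp [hi, h4])
    rw [if_neg hi] at e1
    rw [if_pos hi2] at e2
    exact (congrArg Prod.fst e2).trans (congrArg Prod.snd e1).symm

open Classical in
theorem card_mix (hn : 1 ≤ n) (B : Finset (Fin m)) :
    ((((POm m n) ×ˢ (POm m n)).filter fun p => mixB B p.1 p.2 ∈ POm m n ∧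
      mixB B p.2 p.1 ∈ POm m n).card : ℝ) ≤
      ∏ j : Fin (m + 1), if WallA (sg B) j then (wdc m n j : ℝ) else (wdc m n j : ℝ) ^ 2 := by
  have h1 : (((POm m n) ×ˢ (POm m n)).filter fun p => mixB B p.1 p.2 ∈ POm m n ∧
      mixB B p.2 p.1 ∈ POm m n).card ≤
      (Fintype.piFinset fun j : Fin (m + 1) => if WallA (sg B) j then (lay m n j).diag
        else (lay m n j) ×ˢ (lay m n j)).card := by
    refine card_le_card_of_surjOn (fun f => (wrd fun j => (f j).1, wrd fun j => (f j).2)) ?_
    rintro ⟨s, t⟩ hst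
    obtain ⟨h2, h3, h4⟩ := mem_filter.1 (mem_coe.1 hst)
    obtain ⟨h5, h6⟩ := mem_product.1 h2
    obtain ⟨u, hu, hus⟩ := mem_image.1 h5
    obtain ⟨v, hv, hvt⟩ := mem_image.1 h6
    obtain ⟨z, hz, hz2⟩ := mem_image.1 h3
    dsimp only at hus hvt hz2
    refine ⟨fun j => (u j, v j), ?_, ?_⟩
    · rw [mem_coe, Fintype.mem_piFinset]
      intro j
      unfold Pth at hu hv
      rw [Fintype.mem_piFinset] at hu hv
      split_ifs with hj
      · rw [mem_diag]
        refine ⟨hu j, ?_⟩
        have e1 : mixB B (wrd u) (wrd v) = wrd z := by rw [hus, hvt, hz2]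
        exact meet e1 hj
      · rw [mem_product]
        exact ⟨hu j, hv j⟩
    · show (wrd u, wrd v) = (s, t)
      rw [hus, hvt]
  have h2 : ((((POm m n) ×ˢ (POm m n)).filter fun p => mixB B p.1 p.2 ∈ POm m n ∧
      mixB B p.2 p.1 ∈ POm m n).card : ℝ) ≤
      ((Fintype.piFinset fun j : Fin (m + 1) => if WallA (sg B) j then (lay m n j).diag
        else (lay m n j) ×ˢ (lay m n j)).card : ℝ) := by exact_mod_cast h1
  refine h2.trans (le_of_eq ?_)
  rw [Fintype.card_piFinset]
  push_cast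
  refine prod_congr rfl fun j _ => ?_
  split_ifs
  · rw [diag_card, card_lay hn]
  · rw [card_product, card_lay hn]
    push_cast
    ring

/-- **the exchanges of paths** -/
theorem ZB_path (hm : 1 ≤ m) (hn : 1 ≤ n) (τ : ℕ → Bool) {oU oV B : ℝ} (h0U : 0 < oU)
    (h0V : 0 < oV) (hB : 1 ≤ B) (hq : m * B ≤ n)
    (h1 : ∀ i ≤ m, ∏ j ∈ range i, (if τ j then oU else oV) ≤ B)
    (h2 : ∀ i ≤ m, 1 ≤ B * ∏ j ∈ range i, (if τ j then oU else oV)) :
    ZB (fun i : Fin m => τ i) (POm m n) oU oV ≤ ((POm m n).card : ℝ) ^ 2 * (6 * B) := by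
  classical
  obtain ⟨o, ho⟩ : ∃ o : ℕ → ℝ, o = fun i => if τ (i % m) then oU else oV := ⟨_, rfl⟩
  have ho0 : ∀ i, 0 ≤ o i := by
    intro i
    rw [ho]
    show (0 : ℝ) ≤ if τ (i % m) then oU else oV
    split_ifs <;> linarith
  have hwd : ∀ j, 1 ≤ wdc m n j := wdc_pos hn
  have hM : ((POm m n).card : ℝ) = ∏ j : Fin (m + 1), (wdc m n j : ℝ) := by
    rw [card_POm hm, card_Pth hn]
  -- the sum over the sets
  have h3 : ZB (fun i : Fin m => τ i) (POm m n) oU oV =
      ∑ B : Finset (Fin m), (∏ i ∈ B, (if τ i then oU else oV)) *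
      ((((POm m n) ×ˢ (POm m n)).filter fun p => mixB B p.1 p.2 ∈ POm m n ∧
        mixB B p.2 p.1 ∈ POm m n).card : ℝ) := by
    unfold ZB
    rw [← sum_product']
    have h2 : ∀ p : (Fin m → Fin n × Fin n) × (Fin m → Fin n × Fin n),
        (∑ B ∈ (univ : Finset (Finset (Fin m))).filter
          (fun B => mixB B p.1 p.2 ∈ POm m n ∧ mixB B p.2 p.1 ∈ POm m n),
          oU ^ (B.filter fun i : Fin m => τ i = true).card *
            oV ^ (B.filter fun i : Fin m => τ i = false).card) =
        ∑ B : Finset (Fin m), if mixB B p.1 p.2 ∈ POm m n ∧ mixB B p.2 p.1 ∈ POm m n then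
          (∏ i ∈ B, (if τ i then oU else oV)) else 0 := by
      intro p
      rw [sum_filter]
      refine sum_congr rfl fun B _ => ?_
      rw [weight_eq]
    rw [sum_congr rfl fun p _ => h2 p, sum_comm]
    refine sum_congr rfl fun B _ => ?_
    rw [← sum_filter, sum_const, nsmul_eq_mul, mul_comm]
  -- one set
  have h4 : ∀ B : Finset (Fin m), (∏ i ∈ B, (if τ i then oU else oV)) *
      ((((POm m n) ×ˢ (POm m n)).filter fun p => mixB B p.1 p.2 ∈ POm m n ∧
        mixB B p.2 p.1 ∈ POm m n).card : ℝ) ≤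
      ((POm m n).card : ℝ) ^ 2 * wtA (wdc m n) o (sg B) := by
    intro B
    have h5 := card_mix (m := m) hn B
    rw [prod_wd (wdc m n) hwd (sg B), ← hM] at h5
    have h6 : (∏ i ∈ B, (if τ i then oU else oV)) = ∏ i : Fin m, if sg B i then o i else 1 := by
      rw [← prod_filter]
      refine prod_congr ?_ fun i _ => ?_
      · ext i
        simp [sg]
      · rw [ho]
        show _ = if τ ((i : ℕ) % m) then oU else oV
        rw [Nat.mod_eq_of_lt i.2]
    have h7 : 0 ≤ ∏ i ∈ B, (if τ (i : ℕ) then oU else oV) := prod_nonneg fun i _ => by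
      split_ifs <;> linarith
    calc _ ≤ (∏ i ∈ B, (if τ (i : ℕ) then oU else oV)) * (((POm m n).card : ℝ) ^ 2 *
          ∏ j : Fin (m + 1), if WallA (sg B) j then ((wdc m n j : ℝ))⁻¹ else 1) :=
          mul_le_mul_of_nonneg_left h5 h7
      _ = _ := by
          unfold wtA
          rw [h6]
          ring
  have hwt0 : ∀ σ : Fin m → Bool, 0 ≤ wtA (wdc m n) o σ := by
    intro σ
    unfold wtA
    refine mul_nonneg (prod_nonneg fun j _ => by split_ifs <;> positivity)
      (prod_nonneg fun i _ => ?_)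
    split_ifs
    · exact ho0 i
    · exact zero_le_one
  have h5 : ∑ B : Finset (Fin m), wtA (wdc m n) o (sg B) ≤ ∑ σ : Fin m → Bool, wtA (wdc m n) o σ := by
    rw [← sum_image (g := (sg : Finset (Fin m) → _)) (f := fun σ => wtA (wdc m n) o σ)
      fun a _ b _ h => sg_injective h]
    exact sum_le_sum_of_subset_of_nonneg (subset_univ _) fun σ _ _ => hwt0 σ
  have h6 : ∑ σ : Fin m → Bool, wtA (wdc m n) o σ ≤ 6 * B := by
    rw [sum_wtA_eq _ _ (wdc_zero m n)]
    have h7 := ZZ_chains (g := 1) (m := m) (q := n) (B := B) τ hm hB hq h0U h0V h1 h2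
    rw [one_mul, pow_one, ZZ_eq_ZA] at h7
    have h8 : (fun j => if m ∣ j then 1 else n) = wdc m n := rfl
    rw [h8] at h7
    rw [ho]
    exact h7
  rw [h3]
  calc _ ≤ ∑ B : Finset (Fin m), ((POm m n).card : ℝ) ^ 2 * wtA (wdc m n) o (sg B) :=
        sum_le_sum fun B _ => h4 B
    _ = ((POm m n).card : ℝ) ^ 2 * ∑ B : Finset (Fin m), wtA (wdc m n) o (sg B) := by
        rw [mul_sum]
    _ ≤ ((POm m n).card : ℝ) ^ 2 * (6 * B) :=
        mul_le_mul_of_nonneg_left (h5.trans h6) (by positivity)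

end path

end Pool.CT
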