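import Pool.Agent.CT.Path

/-!
# CT: the code of the paths with free ends
-/

set_option autoImplicit false

namespace Pool.CT

open Finset Pool.XD Pool.XP

section path

/-- the words of the paths with free ends -/
def FOm (m n : ℕ) : Finset (Fin m → Fin n × Fin n) :=
  (univ : Finset (Fin (m + 1) → Fin n)).image wrd

variable {m n : ℕ}

theorem card_FOm (hm : 1 ≤ m) : (FOm m n).card = n ^ (m + 1) := by
  unfold FOm
  rw [card_image_of_injective _ (wrd_injective hm), card_univ, Fintype.card_fun, Fintype.card_fin,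
    Fintype.card_fin]

theorem FOm_nonempty (hm : 1 ≤ m) (hn : 1 ≤ n) : (FOm m n).Nonempty := by
  rw [← card_pos, card_FOm hm]
  exact pow_pos (by omega) _

open Classical in
theorem card_mixF (B : Finset (Fin m)) :
    ((((FOm m n) ×ˢ (FOm m n)).filter fun p => mixB B p.1 p.2 ∈ FOm m n ∧
      mixB B p.2 p.1 ∈ FOm m n).card : ℝ) ≤
      ∏ j : Fin (m + 1), if WallA (sg B) j then (n : ℝ) else (n : ℝ) ^ 2 := by
  have h1 : (((FOm m n) ×ˢ (FOm m n)).filter fun p => mixB B p.1 p.2 ∈ FOm m n ∧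
      mixB B p.2 p.1 ∈ FOm m n).card ≤
      (Fintype.piFinset fun j : Fin (m + 1) => if WallA (sg B) j then
        (univ : Finset (Fin n)).diag
        else (univ : Finset (Fin n)) ×ˢ univ).card := by
    refine card_le_card_of_surjOn (fun f => (wrd fun j => (f j).1, wrd fun j => (f j).2)) ?_
    rintro ⟨s, t⟩ hst
    obtain ⟨h2, h3, h4⟩ := mem_filter.1 (mem_coe.1 hst)
    obtain ⟨h5, h6⟩ := mem_product.1 h2
    obtain ⟨u, -, hus⟩ := mem_image.1 h5
    obtain ⟨v, -, hvt⟩ := mem_image.1 h6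
    obtain ⟨z, -, hz2⟩ := mem_image.1 h3
    dsimp only at hus hvt hz2
    refine ⟨fun j => (u j, v j), ?_, ?_⟩
    · rw [mem_coe, Fintype.mem_piFinset]
      intro j
      split_ifs with hj
      · rw [mem_diag]
        refine ⟨mem_univ _, ?_⟩
        have e1 : mixB B (wrd u) (wrd v) = wrd z := by rw [hus, hvt, hz2]
        exact meet e1 hj
      · rw [mem_product]
        exact ⟨mem_univ _, mem_univ _⟩
    · show (wrd u, wrd v) = (s, t)
      rw [hus, hvt]
  have h2 : ((((FOm m n) ×ˢ (FOm m n)).filter fun p => mixB B p.1 p.2 ∈ FOm m n ∧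
      mixB B p.2 p.1 ∈ FOm m n).card : ℝ) ≤
      ((Fintype.piFinset fun j : Fin (m + 1) => if WallA (sg B) j then
        (univ : Finset (Fin n)).diag
        else (univ : Finset (Fin n)) ×ˢ univ).card : ℝ) := by exact_mod_cast h1
  refine h2.trans (le_of_eq ?_)
  rw [Fintype.card_piFinset]
  push_cast
  refine prod_congr rfl fun j _ => ?_
  split_ifs
  · rw [diag_card, card_univ, Fintype.card_fin]
  · rw [card_product, card_univ, Fintype.card_fin]
    push_cast
    ring

/-- there are no walls at the ends -/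
theorem wall_mid {B : Finset (Fin m)} {j : Fin (m + 1)} (hj : WallA (sg B) j) :
    wdc m n j = n := by
  obtain ⟨i, i2, h1, h2, -⟩ := hj
  unfold wdc
  rw [if_neg]
  intro h
  have e1 : (j : ℕ) = i + 1 := by
    rw [← h1]
    rfl
  have e2 : (j : ℕ) = i2 := by
    rw [← h2]
    rfl
  have h3 := Nat.le_of_dvd (by omega) h
  have := i2.2
  omega

/-- **the exchanges of paths with free ends** -/
theorem ZB_pathF (hm : 1 ≤ m) (hn : 1 ≤ n) (τ : ℕ → Bool) {oU oV B : ℝ} (h0U : 0 < oU)
    (h0V : 0 < oV) (hB : 1 ≤ B) (hq : m * B ≤ n)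
    (h1 : ∀ i ≤ m, ∏ j ∈ range i, (if τ j then oU else oV) ≤ B)
    (h2 : ∀ i ≤ m, 1 ≤ B * ∏ j ∈ range i, (if τ j then oU else oV)) :
    ZB (fun i : Fin m => τ i) (FOm m n) oU oV ≤ ((FOm m n).card : ℝ) ^ 2 * (6 * B) := by
  classical
  obtain ⟨o, ho⟩ : ∃ o : ℕ → ℝ, o = fun i => if τ (i % m) then oU else oV := ⟨_, rfl⟩
  have ho0 : ∀ i, 0 ≤ o i := by
    intro i
    rw [ho]
    show (0 : ℝ) ≤ if τ (i % m) then oU else oV
    split_ifs <;> linarith
  have hM : ((FOm m n).card : ℝ) = ∏ j : Fin (m + 1), ((fun _ : ℕ => n) j : ℝ) := by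
    rw [card_FOm hm]
    simp
  -- the sum over the sets
  have h3 : ZB (fun i : Fin m => τ i) (FOm m n) oU oV =
      ∑ B : Finset (Fin m), (∏ i ∈ B, (if τ i then oU else oV)) *
      ((((FOm m n) ×ˢ (FOm m n)).filter fun p => mixB B p.1 p.2 ∈ FOm m n ∧
        mixB B p.2 p.1 ∈ FOm m n).card : ℝ) := by
    unfold ZB
    rw [← sum_product']
    have h2 : ∀ p : (Fin m → Fin n × Fin n) × (Fin m → Fin n × Fin n),
        (∑ B ∈ (univ : Finset (Finset (Fin m))).filter
          (fun B => mixB B p.1 p.2 ∈ FOm m n ∧ mixB B p.2 p.1 ∈ FOm m n),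
          oU ^ (B.filter fun i : Fin m => τ i = true).card *
            oV ^ (B.filter fun i : Fin m => τ i = false).card) =
        ∑ B : Finset (Fin m), if mixB B p.1 p.2 ∈ FOm m n ∧ mixB B p.2 p.1 ∈ FOm m n then
          (∏ i ∈ B, (if τ i then oU else oV)) else 0 := by
      intro p
      rw [sum_filter]
      refine sum_congr rfl fun B _ => ?_
      rw [weight_eq]
    rw [sum_congr rfl fun p _ => h2 p, sum_comm]
    refine sum_congr rfl fun B _ => ?_
    rw [← sum_filter, sum_const, nsmul_eq_mul, mul_comm]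
  -- one set
  have h4 : ∀ B : Finset (Fin m), (∏ i ∈ B, (if τ i then oU else oV)) *
      ((((FOm m n) ×ˢ (FOm m n)).filter fun p => mixB B p.1 p.2 ∈ FOm m n ∧
        mixB B p.2 p.1 ∈ FOm m n).card : ℝ) ≤
      ((FOm m n).card : ℝ) ^ 2 * wtA (wdc m n) o (sg B) := by
    intro B
    have h5 := card_mixF (m := m) (n := n) B
    have h5' := prod_wd (fun _ => n) (fun _ => hn) (sg B)
    rw [h5', ← hM] at h5
    have h8 : (∏ j : Fin (m + 1), if WallA (sg B) j then (((fun _ : ℕ => n) j : ℕ) : ℝ)⁻¹ else 1) =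
        ∏ j : Fin (m + 1), if WallA (sg B) j then ((wdc m n j : ℝ))⁻¹ else 1 := by
      refine prod_congr rfl fun j _ => ?_
      split_ifs with hj
      · rw [wall_mid hj]
      · rfl
    rw [h8] at h5
    have h6 : (∏ i ∈ B, (if τ i then oU else oV)) = ∏ i : Fin m, if sg B i then o i else 1 := by
      rw [← prod_filter]
      refine prod_congr ?_ fun i _ => ?_
      · ext i
        simp [sg]
      · rw [ho]
        show _ = if τ ((i : ℕ) % m) then oU else oV
        rw [Nat.mod_eq_of_lt i.2]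
    have h7 : 0 ≤ ∏ i ∈ B, (if τ (i : ℕ) then oU else oV) := prod_nonneg fun i _ => by
      split_ifs <;> linarith
    calc _ ≤ (∏ i ∈ B, (if τ (i : ℕ) then oU else oV)) * (((FOm m n).card : ℝ) ^ 2 *
          ∏ j : Fin (m + 1), if WallA (sg B) j then ((wdc m n j : ℝ))⁻¹ else 1) :=
          mul_le_mul_of_nonneg_left h5 h7
      _ = _ := by
          unfold wtA
          rw [h6]
          ring
  have hwt0 : ∀ σ : Fin m → Bool, 0 ≤ wtA (wdc m n) o σ := by
    intro σ
    unfold wtA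
    refine mul_nonneg (prod_nonneg fun j _ => by split_ifs <;> positivity)
      (prod_nonneg fun i _ => ?_)
    split_ifs
    · exact ho0 i
    · exact zero_le_one
  have h5 : ∑ B : Finset (Fin m), wtA (wdc m n) o (sg B) ≤ ∑ σ : Fin m → Bool, wtA (wdc m n) o σ := by
    rw [← sum_image (g := (sg : Finset (Fin m) → _)) (f := fun σ => wtA (wdc m n) o σ)
      fun a _ b _ h => sg_injective h]
    exact sum_le_sum_of_subset_of_nonneg (subset_univ _) fun σ _ _ => hwt0 σ
  have h6 : ∑ σ : Fin m → Bool, wtA (wdc m n) o σ ≤ 6 * B := by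
    rw [sum_wtA_eq _ _ (wdc_zero m n)]
    have h7 := ZZ_chains (g := 1) (m := m) (q := n) (B := B) τ hm hB hq h0U h0V h1 h2
    rw [one_mul, pow_one, ZZ_eq_ZA] at h7
    have h8 : (fun j => if m ∣ j then 1 else n) = wdc m n := rfl
    rw [h8] at h7
    rw [ho]
    exact h7
  rw [h3]
  calc _ ≤ ∑ B : Finset (Fin m), ((FOm m n).card : ℝ) ^ 2 * wtA (wdc m n) o (sg B) :=
        sum_le_sum fun B _ => h4 B
    _ = ((FOm m n).card : ℝ) ^ 2 * ∑ B : Finset (Fin m), wtA (wdc m n) o (sg B) := by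
        rw [mul_sum]
    _ ≤ ((FOm m n).card : ℝ) ^ 2 * (6 * B) :=
        mul_le_mul_of_nonneg_left (h5.trans h6) (by positivity)

end path

end Pool.CT
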