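import Pool.Agent.CT.Upper
import Pool.Agent.XG.Core

/-!
# CT: codes with unimodular weights: the fourth moment bound and the core inequality
-/

set_option autoImplicit false
set_option linter.unusedSectionVars false

namespace Pool.CT

open Finset Pool.XD Pool.XP Pool.XG Pool.Agent.Helper87.D3 Pool.Agent.Helper41.CD Matrix

open scoped ComplexOrder

section words

variable {I A : Type} [Fintype I] [DecidableEq I] [Fintype A] [DecidableEq A]

/-- the polynomial of a code with weights -/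
noncomputable def codeU (Om : Finset (I → A)) (u : (I → A) → ℂ) : MvPolynomial (I × A) ℂ :=
  ∑ s ∈ Om, MvPolynomial.monomial (Pool.XP.ex s) (u s)

theorem coeff_codeU (Om : Finset (I → A)) (u : (I → A) → ℂ) (s : I → A) (hs : s ∈ Om) :
    MvPolynomial.coeff (Pool.XP.ex s) (codeU Om u) = u s := by
  classical
  unfold codeU
  rw [MvPolynomial.coeff_sum, Finset.sum_eq_single s]
  · rw [MvPolynomial.coeff_monomial, if_pos rfl]
  · intro s' _ hne
    rw [MvPolynomial.coeff_monomial, if_neg]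
    exact fun h => hne (Pool.XP.ex_injective h)
  · intro h
    exact absurd hs h

theorem coeff_codeU_eq_zero (Om : Finset (I → A)) (u : (I → A) → ℂ) (p : I × A →₀ ℕ)
    (hp : ∀ s ∈ Om, Pool.XP.ex s ≠ p) : MvPolynomial.coeff p (codeU Om u) = 0 := by
  classical
  unfold codeU
  rw [MvPolynomial.coeff_sum]
  refine Finset.sum_eq_zero fun s hs => ?_
  rw [MvPolynomial.coeff_monomial, if_neg (hp s hs)]

/-- the correlation -/
noncomputable def corrU (Om : Finset (I → A)) (u : (I → A) → ℂ) (F : MvPolynomial (I × A) ℂ) : ℂ :=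
  ∑ s ∈ Om, starRingEnd ℂ (MvPolynomial.coeff (Pool.XP.ex s) F) * u s

theorem support_codeU_subset (Om : Finset (I → A)) (u : (I → A) → ℂ) :
    (codeU Om u).support ⊆ Om.image Pool.XP.ex := by
  classical
  intro p hp
  rw [MvPolynomial.mem_support_iff] at hp
  by_contra hne
  refine hp (coeff_codeU_eq_zero Om u p fun s hs hsp => hne (mem_image.2 ⟨s, hs, hsp⟩))

theorem corrU_eq (Om : Finset (I → A)) (u : (I → A) → ℂ) (F : MvPolynomial (I × A) ℂ) :
    ∑ p ∈ (codeU Om u).support, starRingEnd ℂ (MvPolynomial.coeff p F) *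
      MvPolynomial.coeff p (codeU Om u) = corrU Om u F := by
  classical
  have h1 : ∑ p ∈ (codeU Om u).support, starRingEnd ℂ (MvPolynomial.coeff p F) *
      MvPolynomial.coeff p (codeU Om u) = ∑ p ∈ Om.image Pool.XP.ex,
      starRingEnd ℂ (MvPolynomial.coeff p F) * MvPolynomial.coeff p (codeU Om u) := by
    refine sum_subset (support_codeU_subset Om u) fun p _ hp => ?_
    rw [MvPolynomial.notMem_support_iff.1 hp, mul_zero]
  rw [h1, sum_image fun s _ t _ hst => Pool.XP.ex_injective hst]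
  exact sum_congr rfl fun s hs => by rw [coeff_codeU Om u s hs]

theorem l2_codeU (Om : Finset (I → A)) (u : (I → A) → ℂ) (hu : ∀ s ∈ Om, ‖u s‖ = 1) :
    l2 (codeU Om u) = Om.card := by
  classical
  rw [l2_eq _ (support_codeU_subset Om u), sum_image fun s _ t _ hst => Pool.XP.ex_injective hst]
  rw [sum_congr rfl fun s hs => by rw [coeff_codeU Om u s hs, hu s hs, one_pow], sum_const,
    nsmul_eq_mul, mul_one]

/-- the trace of the product of the two matrices -/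
theorem trace_codeU (ty : I → Bool) (Om : Finset (I → A)) (u : (I → A) → ℂ)
    (F : MvPolynomial (I × A) ℂ)
    {LU LV r E : ℕ} (hr : r = (univ.filter fun i : I => ty i = true).card)
    (hE : E = (univ.filter fun i : I => ty i = false).card) (h : r ≤ LU) :
    ((opM (rty ty) F LU LV (LU - r) (LV + E))ᴴ *
      opM (rty ty) (codeU Om u) LU LV (LU - r) (LV + E)).trace =
      (Fintype.card (Box (rty ty : I × A → Bool) (LU - r) LV) : ℂ) * corrU Om u F := by
  classical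
  have h1 := sum_entries (rty ty : I × A → Bool) LU LV r E
    (fun p => starRingEnd ℂ (MvPolynomial.coeff p F) * MvPolynomial.coeff p (codeU Om u))
    (Om.image Pool.XP.ex) (fun p hp => by
      rw [coeff_codeU_eq_zero Om u p fun s hs hsp => hp (mem_image.2 ⟨s, hs, hsp⟩), mul_zero])
  have h2 : ((opM (rty ty) F LU LV (LU - r) (LV + E))ᴴ *
      opM (rty ty) (codeU Om u) LU LV (LU - r) (LV + E)).trace =
      ∑ p ∈ Om.image Pool.XP.ex, (fib (rty ty : I × A → Bool) LU LV r E p).card •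
        (starRingEnd ℂ (MvPolynomial.coeff p F) * MvPolynomial.coeff p (codeU Om u)) := by
    rw [← h1, Matrix.trace, sum_comm]
    refine sum_congr rfl fun γ _ => ?_
    rw [Matrix.diag_apply, Matrix.mul_apply]
    refine sum_congr rfl fun α _ => ?_
    rw [Matrix.conjTranspose_apply]
    unfold opM
    split_ifs
    · rfl
    · rw [mul_zero]
  rw [h2, sum_image fun s _ t _ hst => Pool.XP.ex_injective hst]
  unfold corrU
  rw [mul_sum]
  refine sum_congr rfl fun s hs => ?_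
  have e1 : (∑ l : I × A, if rty ty l then (Pool.XP.ex s) l else 0) = r := by
    rw [hr, ← Pool.XP.sum_ind_true (ty := ty) s]
    exact sum_congr rfl fun l _ => by rw [Pool.XP.ex_apply]
  have e2 : (∑ l : I × A, if rty ty l then 0 else (Pool.XP.ex s) l) = E := by
    rw [hE, ← Pool.XP.sum_ind_false (ty := ty) s]
    exact sum_congr rfl fun l _ => by rw [Pool.XP.ex_apply]
  rw [coeff_codeU Om u s hs, nsmul_eq_mul,
    le_antisymm (card_fib_le _ LU LV r E (Pool.XP.ex s)) (le_card_fib _ h (Pool.XP.ex s) e1 e2)]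

/-- the entries of the matrix of the weighted code -/
theorem norm_opM_codeU_le (ty : I → Bool) (Om : Finset (I → A)) (u : (I → A) → ℂ)
    (hu : ∀ s ∈ Om, ‖u s‖ ≤ 1) {a b a' b' : ℕ}
    (α : Box (rty ty : I × A → Bool) a b) (γ : Box (rty ty : I × A → Bool) a' b') :
    ‖opM (rty ty) (codeU Om u) a b a' b' α γ‖ ≤ opM (rty ty) (codeQ Om ℝ) a b a' b' α γ := by
  classical
  unfold opM
  split_ifs with h
  · by_cases hs : ∃ s ∈ Om, Pool.XP.ex s = gap (rty ty) α.1 γ.1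
    · obtain ⟨s, hs1, hs2⟩ := hs
      rw [← hs2, coeff_codeU Om u s hs1, coeff_codeQ Om ℝ s hs1]
      exact hu s hs1
    · push Not at hs
      rw [coeff_codeU_eq_zero Om u _ hs, coeff_codeQ_eq_zero Om ℝ _ hs, norm_zero]
  · rw [norm_zero]

/-- the Frobenius norm of the Gram matrix of the weighted code -/
theorem fr_gramU (ty : I → Bool) (Om : Finset (I → A)) (u : (I → A) → ℂ)
    (hu : ∀ s ∈ Om, ‖u s‖ ≤ 1) (LU LV r E : ℕ) :
    fr (opM (rty ty) (codeU Om u) LU LV (LU - r) (LV + E) *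
      (opM (rty ty) (codeU Om u) LU LV (LU - r) (LV + E))ᴴ) ≤
    ∑ a : Box (rty ty : I × A → Bool) LU LV, ∑ a' : Box (rty ty : I × A → Bool) LU LV,
      (∑ g : Box (rty ty : I × A → Bool) (LU - r) (LV + E),
        opM (rty ty) (codeQ Om ℝ) LU LV (LU - r) (LV + E) a g *
          opM (rty ty) (codeQ Om ℝ) LU LV (LU - r) (LV + E) a' g) ^ 2 := by
  unfold fr
  refine sum_le_sum fun a _ => sum_le_sum fun a' _ => ?_
  rw [Matrix.mul_apply]
  refine pow_le_pow_left₀ (norm_nonneg _) ?_ 2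
  refine (norm_sum_le _ _).trans (sum_le_sum fun g _ => ?_)
  rw [norm_mul, Matrix.conjTranspose_apply, norm_star]
  exact mul_le_mul (norm_opM_codeU_le ty Om u hu a g) (norm_opM_codeU_le ty Om u hu a' g)
    (norm_nonneg _) ((norm_nonneg _).trans (norm_opM_codeU_le ty Om u hu a g))

/-- **the correlation with a weighted code** -/
theorem code_corrU (ty : I → Bool) (Om : Finset (I → A)) (u : (I → A) → ℂ)
    (hu : ∀ s ∈ Om, ‖u s‖ ≤ 1) (F : MvPolynomial (I × A) ℂ)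
    {LU LV r E : ℕ}
    (hr : r = (univ.filter fun i : I => ty i = true).card)
    (hE : E = (univ.filter fun i : I => ty i = false).card) (h2 : 2 * r ≤ LU)
    {oU oV : ℝ} (h0U : 0 ≤ oU) (h0V : 0 ≤ oV) (h1U : 1 ≤ nU (rty ty : I × A → Bool))
    (h1V : 1 ≤ nV (rty ty : I × A → Bool))
    (hoU : (nU (rty ty : I × A → Bool) : ℝ) + LU - r ≤ oU * (LU - r + 1))
    (hoV : (LV : ℝ) ≤ oV * (nV (rty ty : I × A → Bool) + LV - 1)) :
    (((nU (rty ty : I × A → Bool)).multichoose LU *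
      (nV (rty ty : I × A → Bool)).multichoose LV : ℕ) : ℝ) * ‖corrU Om u F‖ ^ 4 ≤
      ((opM (rty ty) F LU LV (LU - r) (LV + E)).rank : ℝ) * l2 F ^ 2 * ZB ty Om oU oV := by
  classical
  set rk : ℝ := ((opM (rty ty) F LU LV (LU - r) (LV + E)).rank : ℝ) with hrk
  have hrk0 : 0 ≤ rk := Nat.cast_nonneg _
  have hrob := robust (opM (rty ty) F LU LV (LU - r) (LV + E))
    (opM (rty ty) (codeU Om u) LU LV (LU - r) (LV + E))
  rw [trace_codeU ty Om u F hr hE (by omega), norm_mul,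
    Complex.norm_natCast, card_box] at hrob
  have hgram := fr_gramU ty Om u hu LU LV r E
  have hC1 := C1 ty Om LU LV r E hr
  obtain ⟨R, hR⟩ : ∃ R : ℝ, R = ∑ a : Box (rty ty : I × A → Bool) LU LV,
      ∑ a' : Box (rty ty : I × A → Bool) LU LV,
      (∑ g : Box (rty ty : I × A → Bool) (LU - r) (LV + E),
        opM (rty ty) (codeQ Om ℝ) LU LV (LU - r) (LV + E) a g *
          opM (rty ty) (codeQ Om ℝ) LU LV (LU - r) (LV + E) a' g) ^ 2 := ⟨_, rfl⟩
  rw [← hR] at hgram hC1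
  have hR0 : 0 ≤ R := by
    rw [hR]
    exact sum_nonneg fun _ _ => sum_nonneg fun _ _ => sq_nonneg _
  have hcyc := cycles_le ty Om hr h2 h0U h0V h1U h1V hoU hoV hR0 (hC1.trans (le_of_eq (by
    refine Finset.sum_congr rfl fun s _ => Finset.sum_congr rfl fun t _ =>
      Finset.sum_congr ?_ fun B _ => ?_
    · congr
    · rw [card_box]
      push_cast
      rfl)))
  have hfr := fr_opM_le (rty ty : I × A → Bool) F LU LV r E
  rw [card_box] at hfr
  push_cast at hrob hfr ⊢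
  obtain ⟨m, hm⟩ : ∃ m : ℝ, m = ((nU (rty ty : I × A → Bool)).multichoose (LU - r) : ℝ) *
    (nV (rty ty : I × A → Bool)).multichoose LV := ⟨_, rfl⟩
  rw [← hm] at hrob hfr hcyc
  obtain ⟨D0, hD0⟩ : ∃ D0 : ℝ, D0 = ((nU (rty ty : I × A → Bool)).multichoose LU : ℝ) *
    (nV (rty ty : I × A → Bool)).multichoose LV := ⟨_, rfl⟩
  rw [← hD0] at hcyc ⊢
  have hD00 : 0 ≤ D0 := by
    rw [hD0]
    positivity
  have hm0 : 0 < m := by
    rw [hm]
    have e1 := mc_pos h1U (LU - r)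
    have e2 := mc_pos h1V LV
    exact_mod_cast Nat.mul_pos e1 e2
  have hl : 0 ≤ l2 F := l2_nonneg F
  have hfr0 : 0 ≤ fr (opM (rty ty) F LU LV (LU - r) (LV + E)) := fr_nonneg _
  have hfr2 : fr (opM (rty ty) F LU LV (LU - r) (LV + E)) ^ 2 ≤ (m * l2 F) ^ 2 :=
    pow_le_pow_left₀ hfr0 hfr 2
  have hrob' : (m * ‖corrU Om u F‖) ^ 4 ≤
      rk * fr (opM (rty ty) F LU LV (LU - r) (LV + E)) ^ 2 * R :=
    hrob.trans (mul_le_mul_of_nonneg_left hgram (by positivity))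
  have h5 : m ^ 4 * (D0 * ‖corrU Om u F‖ ^ 4) ≤ m ^ 4 * (rk * l2 F ^ 2 * ZB ty Om oU oV) := by
    calc m ^ 4 * (D0 * ‖corrU Om u F‖ ^ 4) = D0 * (m * ‖corrU Om u F‖) ^ 4 := by ring
      _ ≤ D0 * (rk * fr (opM (rty ty) F LU LV (LU - r) (LV + E)) ^ 2 * R) :=
          mul_le_mul_of_nonneg_left hrob' hD00
      _ = (rk * (D0 * R)) * fr (opM (rty ty) F LU LV (LU - r) (LV + E)) ^ 2 := by ring
      _ ≤ (rk * (D0 * R)) * (m * l2 F) ^ 2 := mul_le_mul_of_nonneg_left hfr2 (by positivity)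
      _ = (rk * (m * l2 F) ^ 2) * (D0 * R) := by ring
      _ ≤ (rk * (m * l2 F) ^ 2) * (m ^ 2 * ZB ty Om oU oV) :=
          mul_le_mul_of_nonneg_left hcyc (by positivity)
      _ = _ := by ring
  exact le_of_mul_le_mul_left h5 (by positivity)

end words

/-- **the core inequality** for weighted codes -/
theorem core_avgU {I A : Type} [Fintype I] [DecidableEq I] [Fintype A] [DecidableEq A]
    (ty : I → Bool) (Om : Finset (I → A)) (hOm : Om.Nonempty) (u : (I → A) → ℂ)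
    (hu : ∀ s ∈ Om, ‖u s‖ ≤ 1)
    {T S w w0 k r E : ℕ} {HU HV Z N oU oV : ℝ} {X Y : ℕ → ℝ}
    (f : Fin T → Fin S → MvPolynomial (I × A) ℂ) (hS : 1 ≤ S) (hw : 1 ≤ w)
    (hw0 : 1 ≤ w0) (hf : ∀ i j, f i j ∈ Cls w0 w S k)
    (hl : 0 < l2 (∑ i, ∏ j, f i j))
    (hcl : Om.card * l2 (∑ i, ∏ j, f i j) ≤ N * ‖corrU Om u (∑ i, ∏ j, f i j)‖ ^ 2)
    (hHU : 0 < HU) (hHV : 0 < HV)
    (hX : ∀ i, 0 < X i) (hY : ∀ i, 0 < Y i) (hX0 : X 0 = 1) (hY0 : Y 0 = 1)
    (hnum : ∀ i ≤ 2 * k, NumD (r + E) (S * ((r + E : ℕ) + 1) ^ (8 * (w0 + w) + 16))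
        HU HV (X i) (Y i) (X (i + 1)) (Y (i + 1)))
    (hr : r = (univ.filter fun i : I => ty i = true).card)
    (hE : E = (univ.filter fun i : I => ty i = false).card)
    {LU LV : ℕ} (h2 : 2 * r ≤ LU) (h1U : 1 ≤ nU (rty ty : I × A → Bool))
    (h1V : 1 ≤ nV (rty ty : I × A → Bool))
    (hU : HU * LU ≤ nU (rty ty : I × A → Bool) + LU - 1)
    (hV : (nV (rty ty : I × A → Bool) : ℝ) + LV ≤ HV * (LV + 1))
    (h0U : 0 ≤ oU) (h0V : 0 ≤ oV)
    (hoU : (nU (rty ty : I × A → Bool) : ℝ) + LU - r ≤ oU * (LU - r + 1))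
    (hoV : (LV : ℝ) ≤ oV * (nV (rty ty : I × A → Bool) + LV - 1))
    (hZ : ZB ty Om oU oV ≤ (Om.card : ℝ) ^ 2 * Z) :
    HU ^ r ≤ (T * N ^ 2) * (((r + E : ℕ) + 1 : ℝ) ^ 16 *
      (X (2 * k + 1) ^ r * Y (2 * k + 1) ^ E)) * Z := by
  classical
  have hrank1 := upper' (rty ty) hHU hHV (LU := LU) (LV := LV) (r := r) (E := E) (d := r + E) f hS hw
    hw0 hf hX hY hX0 hY0 hnum le_rfl (by omega) h1U h1V hU hV
  obtain ⟨F, hF⟩ : ∃ F, F = ∑ i, ∏ j, f i j := ⟨_, rfl⟩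
  rw [← hF] at hl hcl hrank1
  -- the count
  have hcount := code_corrU (A := A) ty Om u hu F (LU := LU) (LV := LV) (r := r) (E := E)
    hr hE h2 h0U h0V h1U h1V hoU hoV
  -- conclusion
  have hD0pos : (0 : ℝ) < (((nU (rty ty : I × A → Bool)).multichoose LU *
      (nV (rty ty : I × A → Bool)).multichoose LV : ℕ) : ℝ) := by
    have h1 : 0 < (nU (rty ty : I × A → Bool)).multichoose LU := by
      rw [Nat.multichoose_eq]
      exact Nat.choose_pos (by omega)
    have h2 : 0 < (nV (rty ty : I × A → Bool)).multichoose LV := by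
      rw [Nat.multichoose_eq]
      exact Nat.choose_pos (by omega)
    exact Nat.cast_pos.2 (Nat.mul_pos h1 h2)
  obtain ⟨D0, hD0⟩ : ∃ D0 : ℝ, D0 = (((nU (rty ty : I × A → Bool)).multichoose LU *
      (nV (rty ty : I × A → Bool)).multichoose LV : ℕ) : ℝ) := ⟨_, rfl⟩
  rw [← hD0] at hcount hD0pos hrank1
  obtain ⟨rk, hrk⟩ : ∃ rk : ℝ, rk = ((opM (rty ty) F LU LV (LU - r) (LV + E)).rank : ℝ) :=
    ⟨_, rfl⟩
  rw [← hrk] at hcount hrank1
  have hrk0 : 0 ≤ rk := by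
    rw [hrk]
    exact Nat.cast_nonneg _
  obtain ⟨M, hM⟩ : ∃ M : ℝ, M = (Om.card : ℝ) := ⟨_, rfl⟩
  have hM0 : 0 < M := by
    rw [hM]
    exact Nat.cast_pos.2 hOm.card_pos
  rw [← hM] at hcl hZ
  obtain ⟨ZZ, hZZ⟩ : ∃ ZZ, ZZ = ZB ty Om oU oV := ⟨_, rfl⟩
  rw [← hZZ] at hcount hZ
  have hcl2 : M ^ 2 * l2 F ^ 2 ≤ N ^ 2 * ‖corrU Om u F‖ ^ 4 := by
    have h0 : (0 : ℝ) ≤ M * l2 F := mul_nonneg hM0.le hl.le
    have h1 := pow_le_pow_left₀ h0 hcl 2
    calc M ^ 2 * l2 F ^ 2 = (M * l2 F) ^ 2 := by ring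
      _ ≤ (N * ‖corrU Om u F‖ ^ 2) ^ 2 := h1
      _ = _ := by ring
  have hl2 : 0 < l2 F ^ 2 := by positivity
  have hcnt : D0 * M ^ 2 ≤ (N ^ 2 * rk) * (M ^ 2 * Z) := by
    refine le_of_mul_le_mul_left ?_ hl2
    calc l2 F ^ 2 * (D0 * M ^ 2)
        = D0 * (M ^ 2 * l2 F ^ 2) := by ring
      _ ≤ D0 * (N ^ 2 * ‖corrU Om u F‖ ^ 4) := mul_le_mul_of_nonneg_left hcl2 hD0pos.le
      _ = N ^ 2 * (D0 * ‖corrU Om u F‖ ^ 4) := by ring
      _ ≤ N ^ 2 * (rk * l2 F ^ 2 * ZZ) := mul_le_mul_of_nonneg_left hcount (by positivity)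
      _ ≤ N ^ 2 * (rk * l2 F ^ 2 * (M ^ 2 * Z)) :=
          mul_le_mul_of_nonneg_left (mul_le_mul_of_nonneg_left hZ (by positivity)) (by positivity)
      _ = _ := by ring
  have hcnt' : D0 ≤ (N ^ 2 * rk) * Z := by
    have hM2 : 0 < M ^ 2 := by positivity
    refine le_of_mul_le_mul_right ?_ hM2
    linarith
  have hZ0 : 0 ≤ Z := by
    have h1 : 0 ≤ ZZ := by
      rw [hZZ]
      exact ZB_nonneg _ _ h0U h0V
    have h3 : 0 ≤ M ^ 2 * Z := h1.trans hZ
    exact nonneg_of_mul_nonneg_right h3 (by positivity)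
  have hfin : D0 * HU ^ r ≤ D0 * ((T * N ^ 2) * (((r + E : ℕ) + 1 : ℝ) ^ 16 *
      (X (2 * k + 1) ^ r * Y (2 * k + 1) ^ E)) * Z) := by
    calc D0 * HU ^ r ≤ ((N ^ 2 * rk) * Z) * HU ^ r :=
          mul_le_mul_of_nonneg_right hcnt' (by positivity)
      _ = (rk * HU ^ r) * (N ^ 2 * Z) := by ring
      _ ≤ (T * (((r + E : ℕ) + 1 : ℝ) ^ 16 *
          (X (2 * k + 1) ^ r * Y (2 * k + 1) ^ E)) * D0) * (N ^ 2 * Z) :=
          mul_le_mul_of_nonneg_right hrank1 (by positivity)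
      _ = _ := by ring
  exact le_of_mul_le_mul_left hfin hD0pos

end Pool.CT
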