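import Pool.Agent.CT.Imm
import Pool.Agent.CT.PathF
import Pool.Agent.CT.Weighted

/-!
# CT: paths with free ends and unimodular weights, class form
-/

set_option autoImplicit false

namespace Pool.CT

open Finset Real Pool.XD Pool.XP Pool.XG Pool.Agent.Helper87.D3 Pool.Agent.Helper41.CD

/-- **the core inequality** -/
theorem core_path_avg {m n : ℕ} (hm : 2 ≤ m) (hn : 16 ≤ n) {T S w w0 k : ℕ} {θ q N : ℝ} {X Y : ℕ → ℝ}
    (f : Fin T → Fin S → MvPolynomial (Fin m × (Fin n × Fin n)) ℂ) (hS : 1 ≤ S) (hw : 1 ≤ w)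
    (hw0 : 1 ≤ w0) (hf : ∀ i j, f i j ∈ Cls w0 w S k)
    (u : (Fin m → Fin n × Fin n) → ℂ) (hu : ∀ s ∈ FOm m n, ‖u s‖ ≤ 1)
    (hl : 0 < l2 (∑ i, ∏ j, f i j))
    (hcl : (FOm m n).card * l2 (∑ i, ∏ j, f i j) ≤
      N * ‖corrU (FOm m n) u (∑ i, ∏ j, f i j)‖ ^ 2)
    (hθ0 : 0 < θ) (hq0 : 0 < q) (hq1 : q ≤ 1) (hmn : m * exp (θ + 1) ≤ n)
    (hX : ∀ i, 0 < X i) (hY : ∀ i, 0 < Y i) (hX0 : X 0 = 1) (hY0 : Y 0 = 1)
    (hnum : ∀ i ≤ 2 * k, NumD m (S * ((m : ℕ) + 1) ^ (8 * (w0 + w) + 16))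
        (exp θ) (exp (θ * q)) (X i) (Y i) (X (i + 1)) (Y (i + 1))) :
    exp θ ^ nbl m q true ≤ (T * N ^ 2) * (((m : ℝ) + 1) ^ 16 *
      (X (2 * k + 1) ^ nbl m q true * Y (2 * k + 1) ^ nbl m q false)) * (6 * exp (θ + 1)) := by
  classical
  obtain ⟨r, hr⟩ : ∃ r, r = nbl m q true := ⟨_, rfl⟩
  obtain ⟨E, hE⟩ : ∃ E, E = nbl m q false := ⟨_, rfl⟩
  have hrE : r + E = m := by
    rw [hr, hE]
    exact card_add m q
  have hr1 : 1 ≤ r := by
    rw [hr]
    exact card_true_pos hm q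
  have hE1 : 1 ≤ E := by
    rw [hE]
    exact card_false_pos hm q
  obtain ⟨ty, hty⟩ : ∃ ty : Fin m → Bool, ty = fun i : Fin m => gw 1 q (i : ℕ) := ⟨_, rfl⟩
  have hrt : r = (univ.filter fun i : Fin m => ty i = true).card := by
    rw [hty, hr]
    exact (card_types m q true).symm
  have hEt : E = (univ.filter fun i : Fin m => ty i = false).card := by
    rw [hty, hE]
    exact (card_types m q false).symm
  have hcA : Fintype.card (Fin n × Fin n) = n ^ 2 := by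
    rw [Fintype.card_prod, Fintype.card_fin, sq]
  have hnU : nU (rty ty : Fin m × (Fin n × Fin n) → Bool) = r * n ^ 2 := by
    unfold nU
    rw [card_filter_rty, ← hrt, hcA]
  have hnV : nV (rty ty : Fin m × (Fin n × Fin n) → Bool) = E * n ^ 2 := by
    unfold nV
    rw [card_filter_rty, ← hEt, hcA]
  have hn2 : n ≤ n ^ 2 := Nat.le_self_pow (by norm_num) n
  have h1U : 1 ≤ nU (rty ty : Fin m × (Fin n × Fin n) → Bool) := by
    rw [hnU]
    exact Nat.mul_pos (by omega) (by omega)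
  have h1V : 1 ≤ nV (rty ty : Fin m × (Fin n × Fin n) → Bool) := by
    rw [hnV]
    exact Nat.mul_pos (by omega) (by omega)
  have hmr : (2 : ℝ) ≤ m := by exact_mod_cast hm
  have hnr : (16 : ℝ) ≤ n := by exact_mod_cast hn
  have heθ : 1 < exp θ := one_lt_exp_iff.2 hθ0
  have hexp1 : exp (θ + 1) = exp θ * exp 1 := exp_add _ _
  have he1 : 2.7 ≤ exp 1 := by
    have := exp_one_gt_d9
    linarith
  -- `m exp θ ≤ n / 2.7`
  have hmθ : m * exp θ * 2.7 ≤ n := by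
    have h1 : m * exp θ * 2.7 ≤ m * exp θ * exp 1 :=
      mul_le_mul_of_nonneg_left he1 (by positivity)
    rw [hexp1] at hmn
    linarith
  have hθn : 8 * exp θ ≤ ((n ^ 2 : ℕ) : ℝ) := by
    push_cast
    have h1 : 2 * exp θ ≤ m * exp θ := mul_le_mul_of_nonneg_right hmr (exp_pos _).le
    nlinarith
  obtain ⟨LU, h2r, hL2, hL4⟩ := exists_LU (r := r) (n := n ^ 2) (H := exp θ) hr1 (by omega)
    heθ hθn
  obtain ⟨LV, hL3, hL5⟩ := exists_LV (mul_pos hθ0 hq0) h1V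
  obtain ⟨δ, hδ⟩ : ∃ δ : ℝ, δ = 4 * exp θ / ((n ^ 2 : ℕ) : ℝ) := ⟨_, rfl⟩
  have hδ0 : 0 ≤ δ := by
    rw [hδ]
    positivity
  have hδm : δ * m ≤ 1 := by
    rw [hδ, div_mul_eq_mul_div, div_le_one (by positivity)]
    push_cast
    nlinarith
  -- the initial products
  have hpre : ∀ i ≤ m, ∏ j ∈ range i, (if gw 1 q j then exp (θ + δ) else exp (-(θ * q))) ≤
      exp (θ + 1) := by
    intro i hi
    rw [initial_prod]
    apply exp_le_exp.2
    have h1 := gps_le (x := 1) one_pos hq0 i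
    have h2 : (((range i).filter fun j => gw 1 q j = true).card : ℝ) ≤ m := by
      have h3 := card_filter_le (range i) fun j => gw 1 q j = true
      rw [card_range] at h3
      exact_mod_cast h3.trans hi
    have h3 : δ * (((range i).filter fun j => gw 1 q j = true).card : ℝ) ≤ δ * m :=
      mul_le_mul_of_nonneg_left h2 hδ0
    have h4 : θ * gps 1 q i ≤ θ * 1 := mul_le_mul_of_nonneg_left h1 hθ0.le
    linarith
  have hpre2 : ∀ i ≤ m, 1 ≤ exp (θ + 1) *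
      ∏ j ∈ range i, (if gw 1 q j then exp (θ + δ) else exp (-(θ * q))) := by
    intro i _
    rw [initial_prod, ← exp_add]
    apply one_le_exp
    have h1 := le_gps (x := 1) one_pos hq0 i
    have h2 : 0 ≤ δ * (((range i).filter fun j => gw 1 q j = true).card : ℝ) := by positivity
    have h3 : θ * (-q) ≤ θ * gps 1 q i := mul_le_mul_of_nonneg_left h1 hθ0.le
    have h4 : θ * q ≤ θ * 1 := mul_le_mul_of_nonneg_left hq1 hθ0.le
    linarith
  have hZ := ZB_pathF (m := m) (n := n) (by omega) (by omega) (gw 1 q) (oU := exp (θ + δ))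
    (oV := exp (-(θ * q))) (exp_pos _) (exp_pos _) (one_le_exp (by linarith)) hmn hpre hpre2
  have h1 := core_avgU (r := r) (E := E) (HU := exp θ) (HV := exp (θ * q))
    (Z := 6 * exp (θ + 1)) ty (FOm m n) (FOm_nonempty (by omega) (by omega)) u hu f hS hw hw0 hf hl hcl
    (exp_pos _) (exp_pos _) hX hY hX0 hY0 (by rw [hrE]; exact hnum) hrt hEt h2r h1U h1V
    (by rw [hnU]; exact hL2) hL3
    (oU := exp (θ + δ)) (oV := exp (-(θ * q)))
    (exp_pos _).le (exp_pos _).le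
    (by rw [hnU, hδ, exp_add]; exact hL4) hL5
    (by rw [hty]; exact hZ)
  rw [hrE] at h1
  rw [← hr, ← hE]
  exact h1

/-- **weighted sums over the paths are far from all sums of products of the class** -/
theorem path_far {n m : ℕ} (hn : 2 ≤ n) (hm : 1 ≤ m) (hmn : (m : ℝ) ≤ (n : ℝ) ^ (3 / 4 : ℝ)) {k : ℕ}
    {T S w w0 : ℕ} (u : (Fin m → Fin n × Fin n) → ℂ) (hu : ∀ s ∈ FOm m n, ‖u s‖ = 1)
    (f : Fin T → Fin S → MvPolynomial (Fin m × (Fin n × Fin n)) ℂ)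
    (hT : 1 ≤ T) (hS : 2 ≤ S) (hw : 1 ≤ w) (hw0 : 1 ≤ w0)
    (hf : ∀ i j, f i j ∈ Cls w0 w S k) {N : ℝ} (hN : 1 ≤ N)
    (hlt : 5000 * (log (T * N ^ 2) / log n + 1) *
      (5000 * (log S / log n + (w + w0))) ^ (Nat.fib (2 * k + 4) - 2) < m)
    (γ : ℂ) :
    ‖γ‖ ^ 2 * ((1 - 1 / N) * (n : ℝ) ^ (m + 1)) ≤
      l2 ((∑ i, ∏ j, f i j) - MvPolynomial.C γ * codeU (FOm m n) u) := by
  have hTr : (1 : ℝ) ≤ T := by exact_mod_cast hT
  have hTN : (1 : ℝ) ≤ T * N ^ 2 := one_le_mul_of_one_le_of_one_le hTr (one_le_pow₀ hN)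
  by_contra hcon
  rw [not_le] at hcon
  by_cases hsm : n < 3000 ∨ m < 2
  · exact absurd (imm_small (T := T * N ^ 2) hn hsm hmn hTN hS hw hw0) (not_le.2 hlt)
  push Not at hsm
  obtain ⟨hn3, hm2⟩ := hsm
  obtain ⟨θ, q, X, Y, hθ0, hq0, hq1, hmθ, hX, hY, hX0, hY0, hnum, hfin⟩ :=
    imm_numbers n m k S w w0 hn3 hm2 hmn hS hw hw0
  have hN0 : 0 < N := by linarith
  have hcard : ((FOm m n).card : ℝ) = (n : ℝ) ^ (m + 1) := by
    rw [card_FOm hm]
    push_cast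
    rfl
  have h2 := corr_of_close' (∑ i, ∏ j, f i j) (codeU (FOm m n) u) γ (τ := 1 / N)
    (by positivity) (by
      rw [l2_codeU _ u hu, hcard]
      calc _ < ‖γ‖ ^ 2 * ((1 - 1 / N) * (n : ℝ) ^ (m + 1)) := hcon
        _ = _ := by ring)
  rw [corrU_eq, l2_codeU _ u hu] at h2
  have h3 : ((FOm m n).card : ℝ) * l2 (∑ i, ∏ j, f i j) ≤
      N * ‖corrU (FOm m n) u (∑ i, ∏ j, f i j)‖ ^ 2 := by
    have h4 := mul_le_mul_of_nonneg_left h2.2 hN0.le
    calc ((FOm m n).card : ℝ) * l2 (∑ i, ∏ j, f i j) =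
        N * (1 / N * (FOm m n).card * l2 (∑ i, ∏ j, f i j)) := by
          field_simp
      _ ≤ _ := h4
  exact absurd (hfin (T * N ^ 2) hTN (core_path_avg hm2 (by omega) f (by omega) hw hw0 hf u
    (fun s hs => (hu s hs).le) h2.1 h3
    hθ0 hq0 hq1 hmθ hX hY hX0 hY0 hnum)) (not_le.2 hlt)

end Pool.CT
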