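import Pool.Agent.CT.Code

/-!
# CT: the Reed-Solomon code
-/

set_option autoImplicit false

namespace Pool.CT

open Finset Pool.XP

section rs

variable (p : ℕ) [Fact p.Prime] (k : ℕ)

/-- the values of the polynomial with the coefficients `a` -/
def ev (a : Fin k → ZMod p) : ZMod p → ZMod p := fun i => ∑ j, a j * i ^ (j : ℕ)

/-- the words -/
def RS : Finset (ZMod p → ZMod p) := univ.image (ev p k)

variable {p k}

/-- a polynomial of degree less than `m` with `m` zeros -/
theorem ev_inj {a b : Fin k → ZMod p} {M : Finset (ZMod p)} {m : ℕ} (hm : m ≤ M.card)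
    (h : ∀ i ∈ M, ev p k a i = ev p k b i) (hab : ∀ j : Fin k, m ≤ (j : ℕ) → a j = b j) :
    a = b := by
  classical
  obtain ⟨P, hP⟩ : ∃ P : Polynomial (ZMod p), P =
    ∑ j : Fin k, Polynomial.C (a j - b j) * Polynomial.X ^ (j : ℕ) := ⟨_, rfl⟩
  have hcoeff : ∀ j : Fin k, P.coeff j = a j - b j := by
    intro j
    rw [hP, Polynomial.finsetSum_coeff, Finset.sum_eq_single j]
    · rw [Polynomial.coeff_C_mul, Polynomial.coeff_X_pow, if_pos rfl, mul_one]
    · intro j' _ hj'
      rw [Polynomial.coeff_C_mul, Polynomial.coeff_X_pow, if_neg, mul_zero]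
      intro h1
      exact hj' (Fin.ext h1.symm)
    · intro h1
      exact absurd (mem_univ j) h1
  have hdeg : P.degree < m := by
    rw [Polynomial.degree_lt_iff_coeff_zero]
    intro j hj
    rw [hP, Polynomial.finsetSum_coeff]
    refine sum_eq_zero fun j' _ => ?_
    rw [Polynomial.coeff_C_mul, Polynomial.coeff_X_pow]
    split_ifs with h1
    · rw [hab j' (by omega), sub_self, zero_mul]
    · rw [mul_zero]
  have h0 : P = 0 := by
    apply Polynomial.eq_zero_of_degree_lt_of_eval_finset_eq_zero M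
    · exact lt_of_lt_of_le hdeg (by exact_mod_cast hm)
    · intro i hi
      have h1 := h i hi
      unfold ev at h1
      rw [hP, Polynomial.eval_finsetSum]
      have h2 : ∀ j : Fin k, Polynomial.eval i (Polynomial.C (a j - b j) * Polynomial.X ^ (j : ℕ)) =
          a j * i ^ (j : ℕ) - b j * i ^ (j : ℕ) := by
        intro j
        rw [Polynomial.eval_mul, Polynomial.eval_C, Polynomial.eval_pow, Polynomial.eval_X, sub_mul]
      rw [sum_congr rfl fun j _ => h2 j, sum_sub_distrib, h1, sub_self]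
  funext j
  have h1 := hcoeff j
  rw [h0, Polynomial.coeff_zero] at h1
  exact (sub_eq_zero.1 h1.symm)

theorem ev_injective (hk : k ≤ p) : Function.Injective (ev p k) := by
  intro a b hab
  refine ev_inj (M := univ) (m := k) ?_ (fun i _ => congrFun hab i) fun j hj => ?_
  · rw [card_univ, ZMod.card]
    exact hk
  · exact absurd j.2 (by omega)

theorem card_RS (hk : k ≤ p) : (RS p k).card = p ^ k := by
  unfold RS
  rw [card_image_of_injective _ (ev_injective hk), card_univ, Fintype.card_fun, ZMod.card,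
    Fintype.card_fin]

theorem RS_det {s t : ZMod p → ZMod p} (hs : s ∈ RS p k) (ht : t ∈ RS p k)
    (M : Finset (ZMod p)) (hM : k ≤ M.card) (h : ∀ i ∈ M, s i = t i) : s = t := by
  obtain ⟨a, _, rfl⟩ := mem_image.1 hs
  obtain ⟨b, _, rfl⟩ := mem_image.1 ht
  congr 1
  exact ev_inj hM h fun j hj => absurd j.2 (by omega)

theorem card_agree (hk : k ≤ p) (M : Finset (ZMod p)) (m : ℕ) (hmM : m ≤ M.card) (hmk : m ≤ k) :
    (agree (RS p k) M).card ≤ p ^ k * p ^ (k - m) := by
  classical
  -- the pairs of coefficient vectors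
  have h1 : (agree (RS p k) M).card ≤
      ((univ : Finset ((Fin k → ZMod p) × (Fin k → ZMod p))).filter
        fun q => ∀ i ∈ M, ev p k q.1 i = ev p k q.2 i).card := by
    refine card_le_card_of_surjOn (fun q => (ev p k q.1, ev p k q.2)) ?_
    rintro ⟨s, t⟩ hst
    obtain ⟨h2, h3⟩ := mem_filter.1 (mem_coe.1 hst)
    obtain ⟨h4, h5⟩ := mem_product.1 h2
    obtain ⟨a, _, ha⟩ := mem_image.1 h4
    obtain ⟨b, _, hb⟩ := mem_image.1 h5
    refine ⟨(a, b), ?_, ?_⟩
    · refine mem_coe.2 (mem_filter.2 ⟨mem_univ _, fun i hi => ?_⟩)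
      show ev p k a i = ev p k b i
      rw [ha, hb]
      exact h3 i hi
    · show (ev p k a, ev p k b) = (s, t)
      rw [ha, hb]
  refine h1.trans ?_
  -- such a pair is determined by the first vector and the upper coefficients of the second
  have h2 : ((univ : Finset ((Fin k → ZMod p) × (Fin k → ZMod p))).filter
      fun q => ∀ i ∈ M, ev p k q.1 i = ev p k q.2 i).card ≤
      (univ : Finset ((Fin k → ZMod p) × (Fin (k - m) → ZMod p))).card := by
    refine card_le_card_of_injOn (fun q => (q.1, fun j => q.2 ⟨m + j, by omega⟩))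
      (fun q _ => mem_coe.2 (mem_univ _)) ?_
    rintro ⟨a, b⟩ h3 ⟨a', b'⟩ h4 h5
    have h3' := (mem_filter.1 (mem_coe.1 h3)).2
    have h4' := (mem_filter.1 (mem_coe.1 h4)).2
    obtain ⟨h6, h7⟩ := Prod.mk.inj h5
    dsimp only at h3' h4' h6
    subst h6
    refine Prod.ext rfl ?_
    show b = b'
    refine ev_inj hmM (fun i hi => ?_) fun j hj => ?_
    · rw [← h3' i hi, ← h4' i hi]
    · have h8 := congrFun h7 ⟨j - m, by omega⟩
      dsimp only at h8
      have h9 : (⟨m + (j - m), by omega⟩ : Fin k) = j := Fin.ext (by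
        show m + ((j : ℕ) - m) = j
        omega)
      rwa [h9] at h8
  refine h2.trans (le_of_eq ?_)
  rw [card_univ, Fintype.card_prod, Fintype.card_fun, Fintype.card_fun, ZMod.card,
    Fintype.card_fin, Fintype.card_fin]

/-- **two words agree on a set** -/
theorem RS_cnt (hk : k ≤ p) (M : Finset (ZMod p)) :
    ((agree (RS p k) M).card : ℝ) ≤ ((RS p k).card : ℝ) ^ 2 * ((1 / (p : ℝ)) ^ M.card +
      (1 / (p : ℝ)) ^ k) := by
  have hp : (0 : ℝ) < p := by exact_mod_cast (Fact.out : p.Prime).pos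
  rw [card_RS hk]
  have h2 : ∀ m ≤ k, ((p ^ k * p ^ (k - m) : ℕ) : ℝ) = (((p ^ k : ℕ) : ℝ)) ^ 2 * (1 / (p : ℝ)) ^ m := by
    intro m hm
    push_cast
    rw [one_div, inv_pow, pow_sub₀ _ hp.ne' hm]
    ring
  rcases Nat.lt_or_ge M.card k with h | h
  · have h1 := card_agree hk M M.card le_rfl h.le
    have h3 : ((agree (RS p k) M).card : ℝ) ≤ ((p ^ k * p ^ (k - M.card) : ℕ) : ℝ) := by
      exact_mod_cast h1
    rw [h2 _ h.le] at h3
    refine h3.trans (mul_le_mul_of_nonneg_left ?_ (by positivity))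
    have : (0 : ℝ) ≤ (1 / (p : ℝ)) ^ k := by positivity
    linarith
  · have h1 := card_agree hk M k h le_rfl
    have h3 : ((agree (RS p k) M).card : ℝ) ≤ ((p ^ k * p ^ (k - k) : ℕ) : ℝ) := by
      exact_mod_cast h1
    rw [h2 _ le_rfl] at h3
    refine h3.trans (mul_le_mul_of_nonneg_left ?_ (by positivity))
    have : (0 : ℝ) ≤ (1 / (p : ℝ)) ^ M.card := by positivity
    linarith

theorem RS_nonempty : (RS p k).Nonempty := ⟨ev p k 0, mem_image.2 ⟨0, mem_univ _, rfl⟩⟩

/-- the weighted number of the exchanges -/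
theorem ZB_RS (ty : ZMod p → Bool) (hk : 2 * k ≤ p + 1) (hk' : k ≤ p) {oU oV : ℝ} (h0U : 0 ≤ oU)
    (h0V : 0 ≤ oV) :
    ZB ty (RS p k) oU oV ≤ ((RS p k).card : ℝ) ^ 2 *
      ((∏ i, (1 + (if ty i then oU else oV) * (1 / (p : ℝ)))) +
        (∏ i, ((if ty i then oU else oV) + 1 / (p : ℝ))) +
        2 * ((1 / (p : ℝ)) ^ k * ∏ i, (1 + if ty i then oU else oV))) :=
  ZB_le_mds ty (RS p k) (by positivity) (by rw [ZMod.card]; exact hk) h0U h0V
    (fun _ hs _ ht M hM h => RS_det hs ht M hM h) (fun M => RS_cnt hk' M)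

end rs

end Pool.CT
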